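import Pool.Graph.R_seed8.Y616.BM.Rot

set_option autoImplicit false

/-!
# The regularised kernel, uniformly in the shift
-/

namespace Pool.Agent.H312.Sh

open Finset Filter Topology MeasureTheory Complex Set
open Pool.Agent.H131R5.BZ Pool.Agent.Y930.Bz Pool.Agent.Y616.BM

variable {r : ℕ} {w : Fin r → ℝ}

lemma KK_shift (a A : ℝ) (w : Fin r → ℝ) (z : ℂ) :
    KK a w z = cexp (-((a - A : ℝ) : ℂ) * z) * KK A w z := by
  unfold KK
  rw [← mul_assoc, ← Complex.exp_add]
  congr 2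
  push_cast
  ring

/-- coefficients for all shifts -/
theorem exists_near_unif (hw : ∀ j, 0 < w j) {A B : ℝ} (hAB : A ≤ B) :
    ∃ (b : ℝ → ℕ → ℂ) (ρ C : ℝ), 0 < ρ ∧ ρ ≤ 1 ∧ 0 ≤ C ∧
    (∀ k, Continuous fun a => b a k) ∧
    (∀ a ∈ Set.Icc A B, ∀ k < r, ‖b a k‖ ≤ C) ∧
    ∀ a ∈ Set.Icc A B, ∀ z : ℂ, z ≠ 0 → ‖z‖ ≤ ρ → ‖Kt a w (b a) z‖ ≤ C := by
  obtain ⟨b₀, ρ, C₀, hρ, hρ1, hC₀, h0⟩ := exists_near A hw
  set L : ℝ := B - A with hL
  have hL0 : 0 ≤ L := by linarith
  set q : ℝ → ℕ → ℂ := fun a i => (-((a - A : ℝ) : ℂ)) ^ i / (i.factorial : ℂ) with hq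
  set b : ℝ → ℕ → ℂ := fun a m => ∑ k ∈ range (m + 1), b₀ k * q a (m - k) with hb
  set M : ℝ := ∑ k ∈ range r, ‖b₀ k‖ with hM
  have hM0 : 0 ≤ M := by positivity
  have hqle : ∀ a ∈ Set.Icc A B, ∀ i ≤ r, ‖q a i‖ ≤ (1 + L) ^ r := by
    intro a ha i hi
    have h1 : ‖(-((a - A : ℝ) : ℂ))‖ ≤ L := by
      rw [norm_neg, Complex.norm_real, Real.norm_eq_abs, abs_of_nonneg (by linarith [ha.1])]
      linarith [ha.2]
    have h2 : (1 : ℝ) ≤ ‖((i.factorial : ℕ) : ℂ)‖ := by
      rw [Complex.norm_natCast]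
      exact_mod_cast Nat.one_le_iff_ne_zero.2 (Nat.factorial_ne_zero i)
    rw [hq]
    simp only [norm_div, norm_pow]
    calc ‖(-((a - A : ℝ) : ℂ))‖ ^ i / ‖((i.factorial : ℕ) : ℂ)‖ ≤
        ‖(-((a - A : ℝ) : ℂ))‖ ^ i / 1 := by gcongr
      _ = ‖(-((a - A : ℝ) : ℂ))‖ ^ i := by rw [div_one]
      _ ≤ (1 + L) ^ i := by
          gcongr
          linarith
      _ ≤ (1 + L) ^ r := pow_le_pow_right₀ (by linarith) hi
  set E : ℝ := M * (1 + L) ^ r with hE
  have hE0 : 0 ≤ E := by positivity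
  refine ⟨b, ρ, E + (Real.exp L * C₀ + Real.exp 1 * (M * ((1 + L) ^ r * Real.exp L))), hρ, hρ1,
    by positivity, ?_, ?_, ?_⟩
  · intro k
    refine continuous_finsetSum _ fun i _ => ?_
    refine continuous_const.mul ?_
    simp only [hq]
    fun_prop
  · intro a ha k hk
    refine le_trans ?_ (le_add_of_nonneg_right (by positivity))
    calc ‖b a k‖ ≤ ∑ i ∈ range (k + 1), ‖b₀ i * q a (k - i)‖ := norm_sum_le _ _
      _ ≤ ∑ i ∈ range (k + 1), ‖b₀ i‖ * (1 + L) ^ r := by
          refine Finset.sum_le_sum fun i _ => ?_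
          rw [norm_mul]
          gcongr
          exact hqle a ha _ (by omega)
      _ = (∑ i ∈ range (k + 1), ‖b₀ i‖) * (1 + L) ^ r := by rw [Finset.sum_mul]
      _ ≤ E := by
          rw [hE]
          gcongr
          refine Finset.sum_le_sum_of_subset_of_nonneg ?_ fun _ _ _ => norm_nonneg _
          intro i hi
          rw [Finset.mem_range] at hi ⊢
          omega
  · intro a ha z hz hzρ
    have hzn : 0 < ‖z‖ := norm_pos_iff.2 hz
    have hz1 : ‖z‖ ≤ 1 := hzρ.trans hρ1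
    set x : ℂ := -((a - A : ℝ) : ℂ) * z with hx
    have hxn : ‖x‖ ≤ L * ‖z‖ := by
      rw [hx, norm_mul]
      gcongr
      rw [norm_neg, Complex.norm_real, Real.norm_eq_abs, abs_of_nonneg (by linarith [ha.1])]
      linarith [ha.2]
    have hxL : ‖x‖ ≤ L := hxn.trans (by nlinarith)
    have hPol : Pol r (b a) z = cexp (-z) * ∑ k ∈ range r, ∑ i ∈ range (r - k),
        b₀ k * (z ^ (r - k))⁻¹ * (x ^ i / (i.factorial : ℂ)) := by
      unfold Pol
      congr 1
      have h1 : ∀ m ∈ range r, b a m * (z ^ (r - m))⁻¹ =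
          ∑ k ∈ range (m + 1), b₀ k * (z ^ (r - k))⁻¹ * (x ^ (m - k) / ((m - k).factorial : ℂ)) := by
        intro m hm
        have hm' := Finset.mem_range.1 hm
        rw [hb]
        simp only
        rw [Finset.sum_mul]
        refine Finset.sum_congr rfl fun k hk => ?_
        have hk' : k ≤ m := by have := Finset.mem_range.1 hk; omega
        simp only [hq, hx]
        rw [mul_pow]
        have h2 : z ^ (r - k) = z ^ (r - m) * z ^ (m - k) := by
          rw [← pow_add]; congr 1; omega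
        rw [h2]
        have h3 : z ^ (r - m) ≠ 0 := pow_ne_zero _ hz
        have h4 : z ^ (m - k) ≠ 0 := pow_ne_zero _ hz
        have h5 : ((m - k).factorial : ℂ) ≠ 0 := by exact_mod_cast Nat.factorial_ne_zero _
        field_simp
      rw [Finset.sum_congr rfl h1]
      exact Finset.sum_range_diag_flip r fun k i => b₀ k * (z ^ (r - k))⁻¹ *
        (x ^ i / (i.factorial : ℂ))
    have hdec : Kt a w (b a) z = cexp x * Kt A w b₀ z + cexp (-z) * ∑ k ∈ range r,
        b₀ k * (z ^ (r - k))⁻¹ * (cexp x - ∑ i ∈ range (r - k), x ^ i / (i.factorial : ℂ)) := by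
      have h1 : KK A w z = Kt A w b₀ z + Pol r b₀ z := by unfold Kt; ring
      have h2 : Kt a w (b a) z = cexp x * KK A w z - Pol r (b a) z := by
        unfold Kt
        rw [KK_shift a A w z]
      rw [h2, h1, hPol, mul_add, add_sub_assoc]
      congr 1
      unfold Pol
      simp only [mul_sub, Finset.mul_sum, Finset.sum_sub_distrib]
      congr 1
      refine Finset.sum_congr rfl fun k _ => ?_
      ring
    have hk : ∀ k ∈ range r, ‖b₀ k * (z ^ (r - k))⁻¹ *
        (cexp x - ∑ i ∈ range (r - k), x ^ i / (i.factorial : ℂ))‖ ≤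
        ‖b₀ k‖ * ((1 + L) ^ r * Real.exp L) := by
      intro k hk
      rw [norm_mul, norm_mul, norm_inv, norm_pow, mul_assoc]
      refine mul_le_mul_of_nonneg_left ?_ (norm_nonneg _)
      have h1 := Complex.norm_exp_sub_sum_le_norm_mul_exp x (r - k)
      rw [inv_mul_le_iff₀ (by positivity)]
      refine h1.trans ?_
      calc ‖x‖ ^ (r - k) * Real.exp ‖x‖ ≤ (L * ‖z‖) ^ (r - k) * Real.exp L := by gcongr
        _ = ‖z‖ ^ (r - k) * (L ^ (r - k) * Real.exp L) := by rw [mul_pow]; ring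
        _ ≤ ‖z‖ ^ (r - k) * ((1 + L) ^ r * Real.exp L) := by
            gcongr
            calc L ^ (r - k) ≤ (1 + L) ^ (r - k) := by
                  gcongr
                  linarith
              _ ≤ (1 + L) ^ r := pow_le_pow_right₀ (by linarith) (by omega)
    have hex : ‖cexp x‖ ≤ Real.exp L := by
      rw [Complex.norm_exp]
      exact Real.exp_le_exp.2 ((Complex.re_le_norm x).trans hxL)
    have hez : ‖cexp (-z)‖ ≤ Real.exp 1 := by
      rw [Complex.norm_exp]
      refine Real.exp_le_exp.2 ((Complex.re_le_norm _).trans ?_)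
      rwa [norm_neg]
    rw [hdec]
    refine (norm_add_le _ _).trans ?_
    refine le_trans ?_ (le_add_of_nonneg_left hE0)
    rw [norm_mul, norm_mul]
    refine add_le_add ?_ ?_
    · have := h0 z hz hzρ
      gcongr
    · refine mul_le_mul hez ?_ (norm_nonneg _) (Real.exp_pos _).le
      refine (norm_sum_le _ _).trans ((Finset.sum_le_sum hk).trans ?_)
      rw [← Finset.sum_mul]

end Pool.Agent.H312.Sh
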