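import Pool.Graph.R_seed8.Y616.BM.Zone
import Pool.Graph.R_pool_sql_team_seeded_1acbe0a2.Y616.BM.Lin2
import Pool.Agent.H312.Sh.Unif

set_option autoImplicit false

/-!
# Representation of the Barnes zeta function at a fixed height, uniformly in the shift
-/

namespace Pool.Agent.H312.Sh

open Finset Filter Topology MeasureTheory Complex Set FourierTransform
open Pool.Agent.H131R5.BZ Pool.Agent.Y930.Bz Pool.Agent.Y616.BM

variable {r : ℕ} {w : Fin r → ℝ}

/-- the oscillating factor -/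
noncomputable def ph (t σ u : ℝ) : ℂ :=
  cexp (((-(t * u) : ℝ) : ℂ) * I) * ((Real.exp (-σ * u) : ℝ) : ℂ)

lemma ph_norm (t σ u : ℝ) : ‖ph t σ u‖ = Real.exp (-σ * u) := by
  unfold ph
  rw [norm_mul, Complex.norm_exp_ofReal_mul_I, one_mul, Complex.norm_real, Real.norm_eq_abs,
    abs_of_pos (Real.exp_pos _)]

lemma ph_cont (t σ : ℝ) : Continuous (ph t σ) := by
  unfold ph
  fun_prop

/-- the main part -/
noncomputable def Psi (a : ℝ) (w : Fin r → ℝ) (t σ : ℝ) (S : Set ℝ) : ℂ :=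
  ∫ u in S, ph t σ u * KK a w (zr u (1 / t))

lemma zr_re (u η : ℝ) : (zr u η).re = Real.exp (-u) * Real.sin η := by
  rw [zr_eq, Complex.add_re, Complex.ofReal_re, Complex.re_ofReal_mul, Complex.I_re, mul_zero,
    add_zero]

lemma zr_norm (u η : ℝ) : ‖zr u η‖ = Real.exp (-u) := by
  unfold zr
  exact exp_norm u _

lemma zr_cont (η : ℝ) : Continuous fun u : ℝ => zr u η := by
  unfold zr
  fun_prop

lemma KK_norm (a : ℝ) (w : Fin r → ℝ) (z : ℂ) :
    ‖KK a w z‖ = Real.exp (-a * z.re) * ‖KK 0 w z‖ := by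
  rw [KK_shift a 0 w z, norm_mul, Complex.norm_exp]
  congr 2
  simp

lemma KK_ray_cont (a : ℝ) (hw : ∀ j, 0 < w j) {η : ℝ} (h0 : 0 < η) (h1 : η ≤ 1) :
    Continuous fun u : ℝ => KK a w (zr u η) := by
  refine continuous_iff_continuousAt.2 fun u => ?_
  have hs := sin_ge h0.le h1
  have h2 : DifferentiableAt ℂ (KK a w) (zr u η) := by
    apply KK_diff hw
    rw [zr_re]
    exact mul_pos (Real.exp_pos _) (by linarith)
  exact ContinuousAt.comp (g := KK a w) (f := fun u : ℝ => zr u η) h2.continuousAt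
    (zr_cont η).continuousAt

/-- powers against exponentials -/
lemma rpow_exp_le {q c : ℝ} (hq : 0 < q) (hc : 0 < c) : ∃ D : ℝ, 0 < D ∧ ∀ y : ℝ, 0 < y →
    y ^ q * Real.exp (-(c * y)) ≤ D := by
  refine ⟨Real.exp (q * (Real.log (q / c) - 1)), Real.exp_pos _, fun y hy => ?_⟩
  rw [Real.rpow_def_of_pos hy, ← Real.exp_add]
  apply Real.exp_le_exp.2
  have h1 := Real.log_le_sub_one_of_pos (show 0 < c * y / q by positivity)
  have h2 : Real.log (c * y / q) = Real.log y - Real.log (q / c) := by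
    rw [← Real.log_div (by positivity) (by positivity)]
    congr 1
    field_simp
  rw [h2] at h1
  have h3 : q * Real.log y ≤ q * (Real.log (q / c) - 1) + c * y := by
    have h4 : q * (Real.log y - Real.log (q / c)) ≤ q * (c * y / q - 1) :=
      mul_le_mul_of_nonneg_left h1 hq.le
    have h5 : q * (c * y / q - 1) = c * y - q := by field_simp
    nlinarith
  linarith

/-- the polar part, uniformly -/
lemma Pol_le' {b : ℕ → ℂ} {ρ C : ℝ} (hρ : 0 < ρ) (hρ1 : ρ ≤ 1) (hb : ∀ k < r, ‖b k‖ ≤ C) {z : ℂ}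
    (hz : ρ ≤ ‖z‖) :
    ‖Pol r b z‖ ≤ (r * (C * (ρ ^ r)⁻¹)) * (‖z‖ ^ (-(1 / 2) : ℝ) * Real.exp (-z.re)) := by
  have hz0 : 0 < ‖z‖ := hρ.trans_le hz
  unfold Pol
  rw [norm_mul, Complex.norm_exp, neg_re]
  have h1 : ∀ k ∈ range r, ‖b k * (z ^ (r - k))⁻¹‖ ≤ (C * (ρ ^ r)⁻¹) * ‖z‖ ^ (-(1 / 2) : ℝ) := by
    intro k hk
    have hk' := Finset.mem_range.1 hk
    rw [norm_mul, norm_inv, norm_pow, mul_assoc]
    have hC : 0 ≤ C := (norm_nonneg _).trans (hb k hk')
    refine mul_le_mul (hb k hk') ?_ (by positivity) hC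
    have h2 : (‖z‖ ^ (r - k))⁻¹ = ‖z‖ ^ (-(1 / 2) : ℝ) * ‖z‖ ^ (-(((r - k : ℕ) : ℝ) - 1 / 2)) := by
      rw [← Real.rpow_add hz0, ← Real.rpow_natCast, ← Real.rpow_neg hz0.le]
      congr 1
      ring
    have hrk : (1 : ℝ) ≤ ((r - k : ℕ) : ℝ) := by exact_mod_cast (by omega : 1 ≤ r - k)
    have hrk2 : ((r - k : ℕ) : ℝ) ≤ r := by exact_mod_cast Nat.sub_le r k
    have h3 : ‖z‖ ^ (-(((r - k : ℕ) : ℝ) - 1 / 2)) ≤ (ρ ^ r)⁻¹ := by
      calc ‖z‖ ^ (-(((r - k : ℕ) : ℝ) - 1 / 2)) ≤ ρ ^ (-(((r - k : ℕ) : ℝ) - 1 / 2)) :=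
            Real.rpow_le_rpow_of_nonpos hρ hz (by linarith)
        _ ≤ ρ ^ (-(r : ℝ)) := Real.rpow_le_rpow_of_exponent_ge hρ hρ1 (by linarith)
        _ = (ρ ^ r)⁻¹ := by rw [Real.rpow_neg hρ.le, Real.rpow_natCast]
    rw [h2, mul_comm]
    gcongr
  calc Real.exp (-z.re) * ‖∑ k ∈ range r, b k * (z ^ (r - k))⁻¹‖ ≤
      Real.exp (-z.re) * ∑ k ∈ range r, ‖b k * (z ^ (r - k))⁻¹‖ := by
        gcongr
        exact norm_sum_le _ _
    _ ≤ Real.exp (-z.re) * ∑ _k ∈ range r, (C * (ρ ^ r)⁻¹) * ‖z‖ ^ (-(1 / 2) : ℝ) := by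
        gcongr with k hk
        exact h1 k hk
    _ = _ := by
        rw [Finset.sum_const, Finset.card_range, nsmul_eq_mul]
        ring

/-- **The representation.** -/
theorem rep (hw : ∀ j, 0 < w j) {A B σ δ : ℝ} (hA : 0 < A) (hAB : A ≤ B) (hσ : 1 / 2 < σ)
    (hδ : 0 < δ) : ∃ C U : ℝ, 0 ≤ C ∧ 0 ≤ U ∧ ∀ a ∈ Set.Icc A B, ∀ c : ℕ → ℂ, Tay a w c →
      ∀ t V : ℝ, 1 ≤ t → t ^ (1 + δ) ≤ Real.exp V →
      ‖FF a w c ((σ : ℂ) + t * I)‖ ≤
        C + C * t ^ (1 / 2 - σ) * ‖Psi a w t σ (Set.Icc (-V) U)‖ := by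
  obtain ⟨b, ρ, C₀, hρ, hρ1, hC₀, -, hb, h0⟩ := exists_near_unif hw hAB
  have hσ0 : 0 < σ := by linarith
  obtain ⟨g, hg, hG⟩ := Gamma_lower_line hσ0
  obtain ⟨G₁, hG₁, hgf₁⟩ := gf_lint_scale (σ := σ - 1 / 2) (c := 1 / 2) (by linarith) (by norm_num)
  obtain ⟨G₂, hG₂, hgf₂⟩ := gf_lint_scale (σ := σ) (c := A / 4) hσ0 (by positivity)
  obtain ⟨G₃, hG₃, hgf₃⟩ := gf_lint_scale (σ := σ) (c := 1) hσ0 (by norm_num)
  obtain ⟨D, hD, hexp⟩ := rpow_exp_le (q := σ / δ) (c := A / 4) (by positivity) (by positivity)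
  obtain ⟨C₁, hC₁, hKK⟩ := KK_le (a := A) hw (x := 1 / 2) (by norm_num)
  set U : ℝ := -Real.log ρ with hU
  have hU0 : 0 ≤ U := by
    have := Real.log_nonpos hρ.le hρ1
    linarith
  set K : ℝ := r * (C₀ * (ρ ^ r)⁻¹) with hK
  have hK0 : 0 ≤ K := by positivity
  set Γ₁ : ℝ := g⁻¹ * Real.exp 1 with hΓ₁
  have hΓ₁0 : 0 ≤ Γ₁ := by positivity
  set N₁ : ℝ := C₁ * G₂ * D with hN₁
  set N₂ : ℝ := K * G₁ with hN₂
  set N₃ : ℝ := C₀ * Real.exp 1 * G₃ with hN₃
  have hN₁0 : 0 ≤ N₁ := by positivity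
  have hN₂0 : 0 ≤ N₂ := by positivity
  have hN₃0 : 0 ≤ N₃ := by positivity
  refine ⟨Γ₁ + Γ₁ * (N₁ + N₂ + N₃) + r * C₀, U, by positivity, hU0,
    fun a ha c hc t V ht hV => ?_⟩
  have ha0 : 0 < a := hA.trans_le ha.1
  have ht0 : 0 < t := by linarith
  set η : ℝ := 1 / t with hη
  have hη0 : 0 < η := by positivity
  have hη1 : η ≤ 1 := by rw [hη, div_le_one ht0]; exact ht
  have hsin := sin_ge hη0.le hη1
  set θ : ℝ := Real.pi / 2 - η with hθ
  have hθ0 : 0 ≤ θ := by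
    have := Real.pi_gt_three
    linarith
  have hθ1 : θ < Real.pi / 2 := by linarith
  have hV0 : 0 ≤ V := by
    have h1 : 1 ≤ Real.exp V := (Real.one_le_rpow ht (by linarith)).trans hV
    exact Real.one_le_exp_iff.1 h1
  have h0a := h0 a ha
  have hba := hb a ha
  set f : ℝ → ℂ := fun u => ph t σ u * Kt a w (b a) (zr u η) with hf
  set fK : ℝ → ℂ := fun u => ph t σ u * KK a w (zr u η) with hfK
  set fP : ℝ → ℂ := fun u => ph t σ u * Pol r (b a) (zr u η) with hfP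
  have hfKP : ∀ u, f u = fK u - fP u := fun u => by
    simp only [hf, hfK, hfP, Kt]; ring
  -- the Fourier transform
  have hfour : 𝓕 (kth a w (b a) σ θ) (t / (2 * Real.pi)) = ∫ u, f u := by
    rw [Real.fourier_real_eq_integral_exp_smul]
    refine integral_congr_ae (ae_of_all _ fun u => ?_)
    simp only [kth, smul_eq_mul, real_smul, hf, ph, zr]
    have h1 : (-2 * Real.pi * u * (t / (2 * Real.pi))) = -(t * u) := by
      field_simp
    rw [h1]
    ring
  have hgood := (kth_good ha0 hw hρ hρ1 h0a hθ0 hθ1 hσ0).1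
  have hfc : Continuous f := by
    have h1 := kth_cont (a := a) hw (b a) σ hθ0 hθ1
    have h2 : f = fun u => cexp (((-(t * u) : ℝ) : ℂ) * I) * kth a w (b a) σ θ u := by
      funext u
      simp only [hf, ph, kth, zr, real_smul]
      ring
    rw [h2]
    exact (by fun_prop : Continuous fun u : ℝ => cexp (((-(t * u) : ℝ) : ℂ) * I)).mul h1
  have hfi : Integrable f := by
    refine Integrable.mono' hgood.norm hfc.aestronglyMeasurable (ae_of_all _ fun u => ?_)
    simp only [hf, kth, zr]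
    rw [norm_mul, ph_norm, norm_smul, Real.norm_eq_abs, abs_of_pos (Real.exp_pos _)]
  have hfKc : Continuous fK := (ph_cont t σ).mul (KK_ray_cont a hw hη0 hη1)
  have hfPc : Continuous fP := by
    have h1 : fP = fun u => fK u - f u := by funext u; rw [hfKP]; ring
    rw [h1]
    exact hfKc.sub hfc
  -- the polar part
  have hP : ∀ u ∈ Iic U, ‖fP u‖ ≤ K * gf (σ - 1 / 2) (1 / 2 * η) u := by
    intro u hu
    have h1 : ρ ≤ ‖zr u η‖ := by
      rw [zr_norm]
      calc ρ = Real.exp (Real.log ρ) := (Real.exp_log hρ).symm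
        _ ≤ Real.exp (-u) := Real.exp_le_exp.2 (by have : u ≤ U := hu; linarith)
    have h2 := Pol_le' hρ hρ1 hba h1
    simp only [hfP]
    rw [norm_mul, ph_norm]
    have h3 : Real.exp (-(zr u η).re) ≤ Real.exp (-(1 / 2 * η) * Real.exp (-u)) := by
      apply Real.exp_le_exp.2
      rw [zr_re]
      have := Real.exp_pos (-u)
      nlinarith
    have h4 : ‖zr u η‖ ^ (-(1 / 2) : ℝ) = Real.exp (1 / 2 * u) := by
      rw [zr_norm, ← Real.exp_mul]
      congr 1
      ring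
    rw [h4] at h2
    unfold gf
    have h5 : Real.exp (-(σ - 1 / 2) * u) = Real.exp (-σ * u) * Real.exp (1 / 2 * u) := by
      rw [← Real.exp_add]; congr 1; ring
    rw [h5]
    calc Real.exp (-σ * u) * ‖Pol r (b a) (zr u η)‖ ≤ Real.exp (-σ * u) *
          (K * (Real.exp (1 / 2 * u) * Real.exp (-(zr u η).re))) := by gcongr
      _ ≤ Real.exp (-σ * u) *
          (K * (Real.exp (1 / 2 * u) * Real.exp (-(1 / 2 * η) * Real.exp (-u)))) := by gcongr
      _ = _ := by ring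
  have hPi : IntegrableOn fP (Iic U) := by
    have h1 : Integrable (fun u => K * gf (σ - 1 / 2) (1 / 2 * η) u) :=
      (gf_int (by linarith) (by positivity)).const_mul K
    refine Integrable.mono' h1.integrableOn hfPc.aestronglyMeasurable ?_
    exact (ae_restrict_mem measurableSet_Iic).mono hP
  have hPn : ‖∫ u in Iic U, fP u‖ ≤ N₂ * t ^ (σ - 1 / 2) := by
    have h1 : ‖∫ u in Iic U, fP u‖ₑ ≤ ENNReal.ofReal (N₂ * t ^ (σ - 1 / 2)) := by
      calc ‖∫ u in Iic U, fP u‖ₑ ≤ ∫⁻ u in Iic U, ‖fP u‖ₑ := enorm_integral_le_lintegral_enorm _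
        _ ≤ ∫⁻ u in Iic U, ENNReal.ofReal (K * gf (σ - 1 / 2) (1 / 2 * η) u) := by
            refine setLIntegral_mono' measurableSet_Iic fun u hu => ?_
            rw [← ofReal_norm]
            exact ENNReal.ofReal_le_ofReal (hP u hu)
        _ ≤ ∫⁻ u, ENNReal.ofReal (K * gf (σ - 1 / 2) (1 / 2 * η) u) := setLIntegral_le_lintegral _ _
        _ = ENNReal.ofReal K * ∫⁻ u, ENNReal.ofReal (gf (σ - 1 / 2) (1 / 2 * η) u) := by
            rw [← lintegral_const_mul _ (gf_cont _ _).measurable.ennreal_ofReal]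
            refine lintegral_congr fun u => ?_
            rw [ENNReal.ofReal_mul hK0]
        _ = _ := by
            rw [hgf₁ η hη0, ← ENNReal.ofReal_mul hK0]
            congr 1
            rw [hη, one_div, Real.inv_rpow ht0.le, ← Real.rpow_neg ht0.le, neg_neg]
            ring
    rw [← ofReal_norm] at h1
    exact (ENNReal.ofReal_le_ofReal_iff (by positivity)).1 h1
  -- near zero
  have hNn : ‖∫ u in Ioi U, f u‖ ≤ N₃ := by
    have hpt : ∀ u ∈ Ioi U, ‖f u‖ ≤ C₀ * Real.exp 1 * gf σ (1 * 1) u := by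
      intro u hu
      have hu' : U < u := hu
      have h1 : ‖zr u η‖ ≤ ρ := by
        rw [zr_norm]
        calc Real.exp (-u) ≤ Real.exp (Real.log ρ) := Real.exp_le_exp.2 (by linarith)
          _ = ρ := Real.exp_log hρ
      have hz0 : zr u η ≠ 0 := Complex.exp_ne_zero _
      have h2 := h0a _ hz0 h1
      simp only [hf]
      rw [norm_mul, ph_norm]
      unfold gf
      have h3 : 1 ≤ Real.exp 1 * Real.exp (-(1 * 1) * Real.exp (-u)) := by
        rw [← Real.exp_add]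
        apply Real.one_le_exp
        have h8 : Real.exp (-u) ≤ 1 := by rw [← zr_norm u η]; linarith
        linarith
      calc Real.exp (-σ * u) * ‖Kt a w (b a) (zr u η)‖ ≤ Real.exp (-σ * u) * (C₀ * 1) := by
            rw [mul_one]; gcongr
        _ ≤ Real.exp (-σ * u) * (C₀ * (Real.exp 1 * Real.exp (-(1 * 1) * Real.exp (-u)))) := by
            gcongr
        _ = _ := by ring
    have h1 : ‖∫ u in Ioi U, f u‖ₑ ≤ ENNReal.ofReal N₃ := by
      calc ‖∫ u in Ioi U, f u‖ₑ ≤ ∫⁻ u in Ioi U, ‖f u‖ₑ := enorm_integral_le_lintegral_enorm _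
        _ ≤ ∫⁻ u in Ioi U, ENNReal.ofReal (C₀ * Real.exp 1 * gf σ (1 * 1) u) := by
            refine setLIntegral_mono' measurableSet_Ioi fun u hu => ?_
            rw [← ofReal_norm]
            exact ENNReal.ofReal_le_ofReal (hpt u hu)
        _ ≤ ∫⁻ u, ENNReal.ofReal (C₀ * Real.exp 1 * gf σ (1 * 1) u) :=
            setLIntegral_le_lintegral _ _
        _ = ENNReal.ofReal (C₀ * Real.exp 1) * ∫⁻ u, ENNReal.ofReal (gf σ (1 * 1) u) := by
            rw [← lintegral_const_mul _ (gf_cont _ _).measurable.ennreal_ofReal]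
            refine lintegral_congr fun u => ?_
            rw [ENNReal.ofReal_mul (by positivity)]
        _ = _ := by
            rw [hgf₃ 1 one_pos, ← ENNReal.ofReal_mul (by positivity), Real.one_rpow, mul_one]
    rw [← ofReal_norm] at h1
    exact (ENNReal.ofReal_le_ofReal_iff (by positivity)).1 h1
  -- far away
  have hfKi : IntegrableOn fK (Iic U) := by
    have h1 : fK = fun u => f u + fP u := by funext u; rw [hfKP]; ring
    rw [h1]
    exact hfi.integrableOn.add hPi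
  have hFn : ‖∫ u in Iio (-V), fK u‖ ≤ N₁ := by
    have hpt : ∀ u ∈ Iio (-V), ‖fK u‖ ≤ C₁ * Real.exp (-(A / 4 * t ^ δ)) *
        gf σ (A / 4 * η) u := by
      intro u hu
      have hu' : u < -V := hu
      have h1 : t ^ (1 + δ) ≤ Real.exp (-u) := hV.trans (Real.exp_le_exp.2 (by linarith))
      have h2 : t ^ δ ≤ Real.exp (-u) * η := by
        rw [Real.rpow_add ht0, Real.rpow_one] at h1
        rw [hη, mul_one_div, le_div_iff₀ ht0]
        linarith
      have htδ : 1 ≤ t ^ δ := Real.one_le_rpow ht hδ.le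
      have hre : t ^ δ / 2 ≤ (zr u η).re ∧ Real.exp (-u) * η / 2 ≤ (zr u η).re := by
        rw [zr_re]
        have h3 := Real.exp_pos (-u)
        constructor <;> nlinarith
      have h3 := hKK (zr u η) (by linarith [hre.1])
      have h4 : ‖KK a w (zr u η)‖ ≤ ‖KK A w (zr u η)‖ := by
        rw [KK_norm a, KK_norm A]
        have h5 : 0 ≤ (zr u η).re := by linarith [hre.1]
        refine mul_le_mul_of_nonneg_right (Real.exp_le_exp.2 ?_) (norm_nonneg _)
        have := ha.1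
        nlinarith
      simp only [hfK]
      rw [norm_mul, ph_norm]
      unfold gf
      have h5 : Real.exp (-A * (zr u η).re) ≤ Real.exp (-(A / 4 * t ^ δ)) *
          Real.exp (-(A / 4 * η) * Real.exp (-u)) := by
        rw [← Real.exp_add]
        apply Real.exp_le_exp.2
        have h6 := hre.2
        nlinarith
      calc Real.exp (-σ * u) * ‖KK a w (zr u η)‖ ≤ Real.exp (-σ * u) *
            (C₁ * (Real.exp (-(A / 4 * t ^ δ)) * Real.exp (-(A / 4 * η) * Real.exp (-u)))) := by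
            gcongr
            exact h4.trans (h3.trans (by gcongr))
        _ = _ := by ring
    have h1 : ‖∫ u in Iio (-V), fK u‖ₑ ≤ ENNReal.ofReal N₁ := by
      calc ‖∫ u in Iio (-V), fK u‖ₑ ≤ ∫⁻ u in Iio (-V), ‖fK u‖ₑ :=
            enorm_integral_le_lintegral_enorm _
        _ ≤ ∫⁻ u in Iio (-V), ENNReal.ofReal (C₁ * Real.exp (-(A / 4 * t ^ δ)) *
            gf σ (A / 4 * η) u) := by
            refine setLIntegral_mono' measurableSet_Iio fun u hu => ?_
            rw [← ofReal_norm]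
            exact ENNReal.ofReal_le_ofReal (hpt u hu)
        _ ≤ ∫⁻ u, ENNReal.ofReal (C₁ * Real.exp (-(A / 4 * t ^ δ)) * gf σ (A / 4 * η) u) :=
            setLIntegral_le_lintegral _ _
        _ = ENNReal.ofReal (C₁ * Real.exp (-(A / 4 * t ^ δ))) *
            ∫⁻ u, ENNReal.ofReal (gf σ (A / 4 * η) u) := by
            rw [← lintegral_const_mul _ (gf_cont _ _).measurable.ennreal_ofReal]
            refine lintegral_congr fun u => ?_
            rw [ENNReal.ofReal_mul (by positivity)]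
        _ ≤ _ := by
            rw [hgf₂ η hη0, ← ENNReal.ofReal_mul (by positivity)]
            apply ENNReal.ofReal_le_ofReal
            have h2 : η ^ (-σ) = (t ^ δ) ^ (σ / δ) := by
              rw [hη, one_div, Real.inv_rpow ht0.le, ← Real.rpow_neg ht0.le, neg_neg,
                ← Real.rpow_mul ht0.le]
              congr 1
              field_simp
            have h3 := hexp (t ^ δ) (by positivity)
            rw [h2]
            calc C₁ * Real.exp (-(A / 4 * t ^ δ)) * (G₂ * (t ^ δ) ^ (σ / δ)) =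
                C₁ * G₂ * ((t ^ δ) ^ (σ / δ) * Real.exp (-(A / 4 * t ^ δ))) := by ring
              _ ≤ C₁ * G₂ * D := by gcongr
    rw [← ofReal_norm] at h1
    exact (ENNReal.ofReal_le_ofReal_iff (by positivity)).1 h1
  -- the decomposition
  have hdec : ∫ u, f u = (∫ u in Iio (-V), fK u) + Psi a w t σ (Set.Icc (-V) U) -
      (∫ u in Iic U, fP u) + ∫ u in Ioi U, f u := by
    have h1 := integral_add_compl (measurableSet_Iic (a := U)) hfi
    rw [compl_Iic] at h1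
    rw [← h1]
    congr 1
    have h2 : ∫ u in Iic U, f u = (∫ u in Iic U, fK u) - ∫ u in Iic U, fP u := by
      rw [← integral_sub hfKi hPi]
      refine integral_congr_ae (ae_of_all _ fun u => hfKP u)
    rw [h2]
    congr 1
    have h3 : Iic U = Iio (-V) ∪ Icc (-V) U := by
      ext u
      simp only [Set.mem_Iic, Set.mem_union, Set.mem_Iio, Set.mem_Icc]
      constructor
      · intro h
        rcases lt_or_ge u (-V) with h' | h'
        · exact Or.inl h'
        · exact Or.inr ⟨h', h⟩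
      · rintro (h | h)
        · linarith
        · exact h.2
    rw [h3, setIntegral_union ?_ measurableSet_Icc (hfKi.mono_set ?_) (hfKi.mono_set ?_)]
    · rfl
    · rw [Set.disjoint_left]
      intro u hu hu'
      exact absurd hu'.1 (not_le.2 hu)
    · rw [h3]; exact subset_union_left
    · rw [h3]; exact subset_union_right
  -- conclusion
  have hmr := mellin_rot ha0 hw hρ hρ1 h0a hθ0 hθ1 (s := (σ : ℂ) + t * I) (by simpa using hσ0)
  have e3 : ((σ : ℂ) + t * I).re = σ := by simp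
  have e4 : ((σ : ℂ) + t * I).im = t := by simp
  rw [e3, e4, hfour] at hmr
  have hΓ : ‖(Gamma ((σ : ℂ) + t * I))⁻¹ * cexp (((σ : ℂ) + t * I) * (θ * I))‖ ≤
      Γ₁ * t ^ (1 / 2 - σ) := by
    rw [norm_mul, norm_inv]
    have h1 := hG t ht
    have h7 : ‖cexp (((σ : ℂ) + t * I) * (θ * I))‖ = Real.exp (-(θ * t)) := by
      rw [Complex.norm_exp]
      congr 1
      simp
      ring
    have h8 : 0 < g * t ^ (σ - 1 / 2) * Real.exp (-(Real.pi / 2 * t)) := by positivity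
    have h9 : ‖Gamma ((σ : ℂ) + t * I)‖⁻¹ ≤
        (g * t ^ (σ - 1 / 2) * Real.exp (-(Real.pi / 2 * t)))⁻¹ := inv_anti₀ h8 h1
    have h10 : (g * t ^ (σ - 1 / 2) * Real.exp (-(Real.pi / 2 * t)))⁻¹ =
        g⁻¹ * t ^ (1 / 2 - σ) * Real.exp (Real.pi / 2 * t) := by
      rw [mul_inv, mul_inv, Real.exp_neg, inv_inv, ← Real.rpow_neg ht0.le]
      congr 3
      ring
    have h12 : Real.exp (Real.pi / 2 * t) * Real.exp (-(θ * t)) = Real.exp 1 := by
      rw [← Real.exp_add]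
      congr 1
      have h13 : Real.pi / 2 * t + -(θ * t) = η * t := by rw [hθ]; ring
      rw [h13, hη]
      field_simp
    rw [h7]
    calc ‖Gamma ((σ : ℂ) + t * I)‖⁻¹ * Real.exp (-(θ * t))
        ≤ (g⁻¹ * t ^ (1 / 2 - σ) * Real.exp (Real.pi / 2 * t)) * Real.exp (-(θ * t)) := by
          rw [← h10]; gcongr
      _ = g⁻¹ * t ^ (1 / 2 - σ) * (Real.exp (Real.pi / 2 * t) * Real.exp (-(θ * t))) := by ring
      _ = _ := by rw [h12, hΓ₁]; ring
  have hR := Rt_le (r := r) (b a) (s := (σ : ℂ) + t * I) (by simpa using ht)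
  have hR' : ‖Rt r (b a) ((σ : ℂ) + t * I)‖ ≤ r * C₀ := by
    refine hR.trans ?_
    calc ∑ k ∈ range r, ‖b a k‖ ≤ ∑ _k ∈ range r, C₀ :=
          Finset.sum_le_sum fun k hk => hba k (Finset.mem_range.1 hk)
      _ = r * C₀ := by rw [Finset.sum_const, Finset.card_range, nsmul_eq_mul]
  rw [FF_formula ha0 hw hc hρ hρ1 h0a (s := (σ : ℂ) + t * I) (by simpa using hσ0)
    (by simpa using ht0), hmr, ← mul_assoc]
  have hI : ‖∫ u, f u‖ ≤ ‖Psi a w t σ (Set.Icc (-V) U)‖ + (N₁ + N₂ * t ^ (σ - 1 / 2) + N₃) := by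
    rw [hdec]
    have k1 := norm_add_le ((∫ u in Iio (-V), fK u) + Psi a w t σ (Set.Icc (-V) U) -
      (∫ u in Iic U, fP u)) (∫ u in Ioi U, f u)
    have k2 := norm_sub_le ((∫ u in Iio (-V), fK u) + Psi a w t σ (Set.Icc (-V) U))
      (∫ u in Iic U, fP u)
    have k3 := norm_add_le (∫ u in Iio (-V), fK u) (Psi a w t σ (Set.Icc (-V) U))
    linarith
  have htσ : t ^ (1 / 2 - σ) ≤ 1 := Real.rpow_le_one_of_one_le_of_nonpos ht (by linarith)
  have htσ0 : 0 < t ^ (1 / 2 - σ) := by positivity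
  have hprod : t ^ (1 / 2 - σ) * t ^ (σ - 1 / 2) = 1 := by
    rw [← Real.rpow_add ht0]
    have : 1 / 2 - σ + (σ - 1 / 2) = 0 := by ring
    rw [this, Real.rpow_zero]
  calc _ ≤ ‖(Gamma ((σ : ℂ) + t * I))⁻¹ * cexp (((σ : ℂ) + t * I) * (θ * I)) * ∫ u, f u‖ +
        ‖Rt r (b a) ((σ : ℂ) + t * I)‖ := norm_add_le _ _
    _ ≤ (Γ₁ * t ^ (1 / 2 - σ)) * (‖Psi a w t σ (Set.Icc (-V) U)‖ +
        (N₁ + N₂ * t ^ (σ - 1 / 2) + N₃)) + r * C₀ := by
        rw [norm_mul]
        gcongr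
    _ = Γ₁ * t ^ (1 / 2 - σ) * ‖Psi a w t σ (Set.Icc (-V) U)‖ +
        Γ₁ * (t ^ (1 / 2 - σ) * N₁ + N₂ * (t ^ (1 / 2 - σ) * t ^ (σ - 1 / 2)) +
          t ^ (1 / 2 - σ) * N₃) + r * C₀ := by ring
    _ ≤ Γ₁ * t ^ (1 / 2 - σ) * ‖Psi a w t σ (Set.Icc (-V) U)‖ +
        Γ₁ * (1 * N₁ + N₂ * 1 + 1 * N₃) + r * C₀ := by
        rw [hprod]
        gcongr
    _ ≤ _ := by
        have k1 : 0 ≤ t ^ (1 / 2 - σ) * ‖Psi a w t σ (Set.Icc (-V) U)‖ := by positivity
        have k2 : 0 ≤ (Γ₁ * (N₁ + N₂ + N₃) + r * C₀) *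
          (t ^ (1 / 2 - σ) * ‖Psi a w t σ (Set.Icc (-V) U)‖) := by positivity
        nlinarith

end Pool.Agent.H312.Sh
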