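import Pool.Graph.R_seed8.Y616.BM.Pt
import Pool.Agent.H312.Sh.Rep

set_option autoImplicit false

/-!
# Crude bounds in strips, uniformly in the shift
-/

namespace Pool.Agent.H312.Sh

open Finset Filter Topology MeasureTheory Complex Set
open Pool.Agent.H131R5.BZ Pool.Agent.Y930.Bz Pool.Agent.Y616.BM

variable {r : ℕ} {w : Fin r → ℝ}

lemma KK_norm_mono {A a : ℝ} (hAa : A ≤ a) {z : ℂ} (hz : 0 ≤ z.re) :
    ‖KK a w z‖ ≤ ‖KK A w z‖ := by
  rw [KK_shift a A w z, norm_mul, Complex.norm_exp]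
  have h1 : Real.exp ((-((a - A : ℝ) : ℂ) * z).re) ≤ 1 := by
    rw [Real.exp_le_one_iff]
    have h2 : (-((a - A : ℝ) : ℂ) * z).re = -((a - A) * z.re) := by
      rw [neg_mul, Complex.neg_re, Complex.re_ofReal_mul]
    rw [h2]
    have : 0 ≤ (a - A) * z.re := mul_nonneg (by linarith) hz
    linarith
  calc _ ≤ 1 * ‖KK A w z‖ := by gcongr
    _ = _ := one_mul _

/-- the regularised kernel on the half-line, uniformly in the shift -/
lemma Kt_real_unif (hw : ∀ j, 0 < w j) {A B : ℝ} (hA : 0 < A) {b : ℝ → ℕ → ℂ} {ρ C₀ : ℝ}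
    (hρ : 0 < ρ) (hρ1 : ρ ≤ 1) (hC₀ : 0 ≤ C₀)
    (hb : ∀ a ∈ Set.Icc A B, ∀ k < r, ‖b a k‖ ≤ C₀)
    (h0 : ∀ a ∈ Set.Icc A B, ∀ z : ℂ, z ≠ 0 → ‖z‖ ≤ ρ → ‖Kt a w (b a) z‖ ≤ C₀) :
    ∃ C c : ℝ, 0 ≤ C ∧ 0 < c ∧ ∀ a ∈ Set.Icc A B, ∀ t : ℝ, 0 < t →
      ‖Kt a w (b a) t‖ ≤ C * Real.exp (-c * t) := by
  obtain ⟨C₁, hC₁, h1⟩ := KK_le (a := A) hw (x := ρ) hρ
  set m : ℝ := min A 1 with hm
  have hm0 : 0 < m := lt_min hA one_pos
  have hmA : m ≤ A := min_le_left _ _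
  have hm1 : m ≤ 1 := min_le_right _ _
  set K : ℝ := r * (C₀ * (ρ ^ r)⁻¹) * ρ ^ (-(1 / 2) : ℝ) with hK
  have hK0 : 0 ≤ K := by positivity
  refine ⟨C₀ * Real.exp (m * ρ) + (C₁ + K), m, by positivity, hm0, fun a ha t ht => ?_⟩
  have htn : ‖(t : ℂ)‖ = t := by rw [Complex.norm_real, Real.norm_of_nonneg ht.le]
  rcases le_total t ρ with h | h
  · have h3 := h0 a ha (t : ℂ) (by exact_mod_cast ht.ne') (by rwa [htn])
    have h4 : 1 ≤ Real.exp (m * ρ) * Real.exp (-m * t) := by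
      rw [← Real.exp_add]
      apply Real.one_le_exp
      have : 0 ≤ m * (ρ - t) := mul_nonneg hm0.le (by linarith)
      linarith
    have h5 : 0 ≤ (C₁ + K) * Real.exp (-m * t) := by positivity
    calc ‖Kt a w (b a) t‖ ≤ C₀ * 1 := by rw [mul_one]; exact h3
      _ ≤ C₀ * (Real.exp (m * ρ) * Real.exp (-m * t)) := by gcongr
      _ ≤ _ := by rw [add_mul]; nlinarith
  · have h3 : ‖KK a w t‖ ≤ C₁ * Real.exp (-m * t) := by
      refine (KK_norm_mono ha.1 (by simpa using ht.le)).trans ((h1 (t : ℂ) (by simpa using h)).trans ?_)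
      have : Real.exp (-A * (t : ℂ).re) ≤ Real.exp (-m * t) := by
        apply Real.exp_le_exp.2
        rw [Complex.ofReal_re]
        nlinarith
      gcongr
    have h4 : ‖Pol r (b a) t‖ ≤ K * Real.exp (-m * t) := by
      refine (Pol_le' hρ hρ1 (hb a ha) (by rwa [htn])).trans ?_
      rw [htn, Complex.ofReal_re, hK, mul_assoc (r * (C₀ * (ρ ^ r)⁻¹))]
      have e1 : t ^ (-(1 / 2) : ℝ) ≤ ρ ^ (-(1 / 2) : ℝ) :=
        Real.rpow_le_rpow_of_nonpos hρ h (by norm_num)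
      have e2 : Real.exp (-t) ≤ Real.exp (-m * t) := by
        apply Real.exp_le_exp.2
        nlinarith
      gcongr
    calc ‖Kt a w (b a) t‖ ≤ ‖KK a w t‖ + ‖Pol r (b a) t‖ := norm_sub_le _ _
      _ ≤ C₁ * Real.exp (-m * t) + K * Real.exp (-m * t) := add_le_add h3 h4
      _ ≤ _ := by
        have : 0 ≤ C₀ * Real.exp (m * ρ) * Real.exp (-m * t) := by positivity
        rw [add_mul, add_mul]
        linarith

lemma rpow_exp_int {x c : ℝ} (hx : 0 < x) (hc : 0 < c) :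
    IntegrableOn (fun t : ℝ => t ^ (x - 1) * Real.exp (-c * t)) (Ioi 0) := by
  have h := integrableOn_rpow_mul_exp_neg_mul_rpow (p := 1) (s := x - 1) (b := c) (by linarith)
    one_pos hc
  simpa only [Real.rpow_one] using h

lemma mellin_unif {ι : Type*} {S : Set ι} {f : ι → ℝ → ℂ} {C c α β : ℝ} (hC : 0 ≤ C) (hc : 0 < c)
    (hf : ∀ i ∈ S, ∀ t : ℝ, 0 < t → ‖f i t‖ ≤ C * Real.exp (-c * t)) (hα : 0 < α) (hαβ : α ≤ β) :
    ∃ M : ℝ, 0 ≤ M ∧ ∀ i ∈ S, ∀ s : ℂ, α ≤ s.re → s.re ≤ β → ‖mellin (f i) s‖ ≤ M := by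
  have i1 := (rpow_exp_int hα hc).const_mul C
  have i2 := (rpow_exp_int (by linarith : 0 < β) hc).const_mul C
  refine ⟨∫ t in Ioi (0 : ℝ), (C * (t ^ (α - 1) * Real.exp (-c * t)) +
    C * (t ^ (β - 1) * Real.exp (-c * t))), ?_, ?_⟩
  · refine setIntegral_nonneg measurableSet_Ioi fun t ht => ?_
    have ht0 : (0 : ℝ) < t := ht
    positivity
  · intro i hi s hs0 hs1
    unfold mellin
    refine norm_integral_le_of_norm_le (i1.add i2) ?_
    filter_upwards [self_mem_ae_restrict measurableSet_Ioi] with t ht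
    have ht0 : (0 : ℝ) < t := ht
    rw [norm_smul, Complex.norm_cpow_eq_rpow_re_of_pos ht0]
    have hre : (s - 1).re = s.re - 1 := by simp
    rw [hre]
    have h1 := hf i hi t ht0
    have p0 : 0 ≤ t ^ (α - 1) := (Real.rpow_pos_of_pos ht0 _).le
    have p1 : 0 ≤ t ^ (β - 1) := (Real.rpow_pos_of_pos ht0 _).le
    have h2 : t ^ (s.re - 1) ≤ t ^ (α - 1) + t ^ (β - 1) := by
      rcases le_total t 1 with h | h
      · have := Real.rpow_le_rpow_of_exponent_ge ht0 h (by linarith : α - 1 ≤ s.re - 1)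
        linarith
      · have := Real.rpow_le_rpow_of_exponent_le h (by linarith : s.re - 1 ≤ β - 1)
        linarith
    calc t ^ (s.re - 1) * ‖f i t‖ ≤ (t ^ (α - 1) + t ^ (β - 1)) * (C * Real.exp (-c * t)) := by
          gcongr
      _ = _ := by ring

lemma Gamma_strip {α β : ℝ} (hα : 0 < α) (hαβ : α ≤ β) : ∃ C : ℝ, 0 ≤ C ∧ ∀ s : ℂ,
    α ≤ s.re → s.re ≤ β → ‖Gamma s‖ ≤ C := by
  have hβ : 0 < β := by linarith
  obtain ⟨C, hC, h⟩ := mellin_bound (f := fun t : ℝ => cexp (-(t : ℂ))) (x0 := α) (x1 := β)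
    (mellin_exp (s := (α : ℂ)) (by rwa [Complex.ofReal_re])).1
    (mellin_exp (s := (β : ℂ)) (by rwa [Complex.ofReal_re])).1
  refine ⟨C, hC, fun s h1 h2 => ?_⟩
  rw [← (mellin_exp (s := s) (by linarith)).2]
  exact h s h1 h2

lemma growth_u (hw : ∀ j, 0 < w j) {A B α β : ℝ} (hA : 0 < A) (hAB : A ≤ B) (hα : 0 < α)
    (hαβ : α ≤ β) : ∃ C : ℝ, 0 ≤ C ∧ ∀ a ∈ Set.Icc A B, ∀ c : ℕ → ℂ, Tay a w c → ∀ s : ℂ,
      α ≤ s.re → s.re ≤ β → 1 ≤ s.im → ‖Gamma s * FF a w c s‖ ≤ C := by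
  obtain ⟨b, ρ, C₀, hρ, hρ1, hC₀, -, hb, h0⟩ := exists_near_unif hw hAB
  obtain ⟨C₁, c₁, hC₁, hc₁, h1⟩ := Kt_real_unif hw hA hρ hρ1 hC₀ hb h0
  obtain ⟨M, hM, h2⟩ := mellin_unif (S := Set.Icc A B)
    (f := fun a (t : ℝ) => Kt a w (b a) t) hC₁ hc₁ h1 hα hαβ
  obtain ⟨G, hG, h3⟩ := Gamma_strip hα hαβ
  refine ⟨M + G * (r * C₀), by positivity, fun a ha c hc s hs1 hs2 him => ?_⟩
  have ha0 : 0 < a := hA.trans_le ha.1
  rw [FF_formula ha0 hw hc hρ hρ1 (h0 a ha) (by linarith) (by linarith)]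
  have hG0 : Gamma s ≠ 0 := Complex.Gamma_ne_zero_of_re_pos (by linarith)
  rw [mul_add, ← mul_assoc, mul_inv_cancel₀ hG0, one_mul]
  refine (norm_add_le _ _).trans (add_le_add (h2 a ha s hs1 hs2) ?_)
  rw [norm_mul]
  have h4 : ‖Rt r (b a) s‖ ≤ r * C₀ := by
    refine (Rt_le (b a) him).trans ?_
    calc ∑ k ∈ range r, ‖b a k‖ ≤ ∑ _k ∈ range r, C₀ :=
          Finset.sum_le_sum fun k hk => hb a ha k (Finset.mem_range.1 hk)
      _ = _ := by rw [Finset.sum_const, Finset.card_range, nsmul_eq_mul]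
  have h5 := h3 s hs1 hs2
  gcongr

/-- a crude bound for the zeta-function in a strip, uniformly in the shift -/
lemma FF_growth_u (hw : ∀ j, 0 < w j) {A B α β : ℝ} (hA : 0 < A) (hAB : A ≤ B) (hα : 0 < α)
    (hαβ : α ≤ β) : ∃ C : ℝ, 0 ≤ C ∧ ∀ a ∈ Set.Icc A B, ∀ c : ℕ → ℂ, Tay a w c → ∀ s : ℂ,
      α ≤ s.re → s.re ≤ β → 1 ≤ s.im → ‖FF a w c s‖ ≤ C * Real.exp (5 * s.im) := by
  obtain ⟨C₁, hC₁, h1⟩ := growth_u hw hA hAB hα hαβ
  obtain ⟨C₂, hC₂, h2⟩ := Gamma_one_sub_le β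
  refine ⟨C₁ * C₂, by positivity, fun a ha c hc s hs1 hs2 him => ?_⟩
  have e1 := h1 a ha c hc s hs1 hs2 him
  have e2 := h2 s hs2 (by linarith) him
  have e3 := Complex.Gamma_mul_Gamma_one_sub s
  have hG : Gamma s ≠ 0 := Complex.Gamma_ne_zero_of_re_pos (by linarith)
  have e4 : ‖Complex.sin ((Real.pi : ℂ) * s)‖ ≤ Real.exp (Real.pi * s.im) := by
    rw [Complex.sin]
    rw [norm_div, norm_mul, Complex.norm_I, mul_one]
    have h6 : ‖cexp (-((Real.pi : ℂ) * s) * I)‖ = Real.exp (Real.pi * s.im) := by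
      rw [Complex.norm_exp]; simp
    have h7 : ‖cexp (((Real.pi : ℂ) * s) * I)‖ ≤ Real.exp (Real.pi * s.im) := by
      rw [Complex.norm_exp, Real.exp_le_exp]
      have : 0 < Real.pi * s.im := mul_pos Real.pi_pos (by linarith)
      simp
      linarith
    have h8 : ‖(2 : ℂ)‖ = 2 := by simp
    rw [h8, div_le_iff₀ (by norm_num)]
    refine (norm_sub_le _ _).trans ?_
    rw [h6]
    linarith
  have hsin : Complex.sin ((Real.pi : ℂ) * s) ≠ 0 := by
    rw [Ne, Complex.sin_eq_zero_iff]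
    rintro ⟨k, hk⟩
    have h0 := congrArg Complex.im hk
    have h1 : ((Real.pi : ℂ) * s).im = Real.pi * s.im := by simp
    have h2 : ((k : ℂ) * (Real.pi : ℂ)).im = 0 := by simp
    rw [h1, h2] at h0
    have := mul_pos Real.pi_pos (lt_of_lt_of_le one_pos him)
    linarith
  have e5 : (Real.pi : ℝ) * ‖FF a w c s‖ =
      ‖Gamma s * FF a w c s‖ * (‖Gamma (1 - s)‖ * ‖Complex.sin ((Real.pi : ℂ) * s)‖) := by
    rw [← norm_mul, ← norm_mul]
    have : Gamma s * FF a w c s * (Gamma (1 - s) * Complex.sin ((Real.pi : ℂ) * s)) =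
        (Real.pi : ℂ) * FF a w c s := by
      calc _ = (Gamma s * Gamma (1 - s)) * Complex.sin ((Real.pi : ℂ) * s) * FF a w c s := by ring
        _ = _ := by
            rw [e3]
            field_simp
    rw [this, norm_mul, Complex.norm_real, Real.norm_of_nonneg Real.pi_pos.le]
  have e6 : s.im * Real.exp (Real.pi * s.im) ≤ Real.exp (5 * s.im) := by
    have h8 : s.im ≤ Real.exp s.im := by
      have := Real.add_one_le_exp s.im
      linarith
    calc s.im * Real.exp (Real.pi * s.im) ≤ Real.exp s.im * Real.exp (4 * s.im) := by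
          have : Real.exp (Real.pi * s.im) ≤ Real.exp (4 * s.im) := by
            apply Real.exp_le_exp.2
            nlinarith [Real.pi_le_four]
          gcongr
      _ = Real.exp (5 * s.im) := by
          rw [← Real.exp_add]
          congr 1
          ring
  have e7 : (Real.pi : ℝ) * ‖FF a w c s‖ ≤ C₁ * C₂ * Real.exp (5 * s.im) := by
    rw [e5]
    calc _ ≤ C₁ * (C₂ * s.im * Real.exp (Real.pi * s.im)) := by gcongr
      _ = C₁ * C₂ * (s.im * Real.exp (Real.pi * s.im)) := by ring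
      _ ≤ _ := by gcongr
  have h9 : 1 ≤ Real.pi := by linarith [Real.pi_gt_three]
  have h10 := norm_nonneg (FF a w c s)
  nlinarith

/-- lines of absolute convergence, uniformly in the shift -/
lemma FF_line_u (hw : ∀ j, 0 < w j) {A B β : ℝ} (hA : 0 < A) (hβ : (r : ℝ) < β) :
    ∃ M : ℝ, 0 ≤ M ∧ ∀ a ∈ Set.Icc A B, ∀ c : ℕ → ℂ, Tay a w c → ∀ y : ℝ,
      ‖FF a w c ((β : ℂ) + y * I)‖ ≤ M := by
  have hβ0 : 0 < β := lt_of_le_of_lt (Nat.cast_nonneg r) hβ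
  refine ⟨∑' m, (lam A w m) ^ (-β), tsum_nonneg fun m =>
    (Real.rpow_pos_of_pos (lam_pos hA hw m) _).le, fun a ha c hc y => ?_⟩
  have ha0 : 0 < a := hA.trans_le ha.1
  have h1 := FF_series ha0 hw hc (s := (β : ℂ) + y * I) (by simpa using hβ)
  rw [← h1.tsum_eq]
  have h2 : ∀ m : Fin r → ℕ, ‖((lam a w m : ℝ) : ℂ) ^ (-((β : ℂ) + y * I))‖ =
      (lam a w m) ^ (-β) := by
    intro m
    rw [Complex.norm_cpow_eq_rpow_re_of_pos (lam_pos ha0 hw m)]
    simp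
  have h3 := summable_lam ha0 hw hβ
  have h3' := summable_lam hA hw hβ
  have h4 := norm_tsum_le_tsum_norm (f := fun m : Fin r → ℕ =>
    ((lam a w m : ℝ) : ℂ) ^ (-((β : ℂ) + y * I))) (by simpa only [h2] using h3)
  simp only [h2] at h4
  refine h4.trans (h3.tsum_le_tsum (fun m => ?_) h3')
  refine Real.rpow_le_rpow_of_nonpos (lam_pos hA hw m) ?_ (by linarith)
  unfold lam
  linarith [ha.1]

end Pool.Agent.H312.Sh
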