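import Pool.Agent.H312.Sh.Strip
import Pool.Agent.H312.Sub.Crit

set_option autoImplicit false

/-!
# The mean square over the shift: criterion and sparse sets of heights
-/

namespace Pool.Agent.H312.Sh

open Filter Topology MeasureTheory Complex Set Asymptotics
open Pool.Agent.H131R5.BZ Pool.Agent.Y930.Bz Pool.Agent.Y616.BM
open Pool.Agent.H312.Barnes (nd nd_nonneg Dio)
open Pool.Agent.H312.Sub (Cont)

variable {r : ℕ} {w : Fin r → ℝ}

/-- the mean square over the shift in the strip, at every height -/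
def Ev (Z : ℝ → ℂ → ℂ) (σ β : ℝ) : Prop :=
  ∀ A B σ₁ ε : ℝ, 0 < A → 0 < ε → ∃ C : ℝ, ∀ t : ℝ, 2 ≤ t → ∃ M : ℝ → ENNReal, Measurable M ∧
    (∀ a ∈ Set.Icc A B, ∀ x u : ℝ, σ ≤ x → x ≤ σ₁ → t ≤ u → u ≤ t + 1 →
      ‖Z a ((x : ℂ) + u * I)‖ₑ ^ 2 ≤ M a) ∧
    ∫⁻ a in Set.Icc A B, M a ≤ ENNReal.ofReal (C * t ^ (β + ε))

/-- the mean square over the shift on a line, at every height -/
def Ln (Z : ℝ → ℂ → ℂ) (σ β A B : ℝ) : Prop :=
  ∀ ε : ℝ, 0 < ε → ∃ C : ℝ, ∀ t : ℝ, 2 ≤ t →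
    ∫⁻ a in Set.Icc A B, ‖Z a ((σ : ℂ) + t * I)‖ₑ ^ 2 ≤ ENNReal.ofReal (C * t ^ (β + ε))

theorem ev_of_dio (hr : 0 < r) (hw : ∀ j, 0 < w j) {Z : ℝ → ℂ → ℂ}
    (hZ : ∀ a, 0 < a → Cont r a w (Z a)) {σ β : ℝ} (hσ : 1 / 2 < σ) (hβ : 0 ≤ β)
    (h : ∀ ε : ℝ, 0 < ε → Dio w (2 * σ) (1 + β + ε)) : Ev Z σ β := by
  intro A B σ₁ ε hA hε
  rcases lt_or_ge B A with hBA | hAB
  · refine ⟨0, fun t _ => ⟨fun _ => 0, measurable_const, fun a ha => ?_, by simp⟩⟩
    exact absurd (ha.1.trans ha.2) (not_le.2 hBA)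
  rcases lt_or_ge σ₁ σ with h1 | h1
  · exact ⟨0, fun t _ => ⟨fun _ => 0, measurable_const,
      fun a ha x u hx hx1 => absurd (hx.trans hx1) (not_le.2 h1), by simp⟩⟩
  obtain ⟨C, hC, h2⟩ := strip_ms hr hw hA hAB hσ h1 (by linarith : 1 ≤ 1 + β + ε / 2)
    (h (ε / 2) (half_pos hε)) (half_pos hε)
  refine ⟨C, fun t ht => ?_⟩
  obtain ⟨M, hM, h3, h4⟩ := h2 t ht
  refine ⟨M, hM, fun a ha x u hx hx1 hu hu1 => ?_, ?_⟩
  · obtain ⟨c, hc⟩ := exists_taylor a hw
    rw [(hZ a (hA.trans_le ha.1)).eq (hA.trans_le ha.1) hw hc x (by linarith)]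
    exact h3 a ha c hc x u hx hx1 hu hu1
  · have e : 1 + β + ε / 2 - 1 + ε / 2 = β + ε := by ring
    rwa [e] at h4

lemma ln_of_ev {Z : ℝ → ℂ → ℂ} {σ β : ℝ} (h : Ev Z σ β) {A : ℝ} (hA : 0 < A) (B : ℝ) :
    Ln Z σ β A B := by
  intro ε hε
  obtain ⟨C, hC⟩ := h A B σ ε hA hε
  refine ⟨C, fun t ht => ?_⟩
  obtain ⟨M, -, h1, h2⟩ := hC t ht
  refine le_trans (setLIntegral_mono' measurableSet_Icc fun a ha => ?_) h2
  exact h1 a ha σ t le_rfl le_rfl le_rfl (by linarith)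

/-- one interval of shifts suffices -/
theorem dio_of_ln (hw : ∀ j, 0 < w j) {Z : ℝ → ℂ → ℂ}
    (hZ : ∀ a, 0 < a → Cont r a w (Z a)) {σ β A B : ℝ} (hA : 0 < A) (hAB : A < B)
    (hσ : 1 / 2 < σ) (hβ : 0 ≤ β) (h : Ln Z σ β A B) {ε : ℝ} (hε : 0 < ε) :
    Dio w (2 * σ) (1 + β + ε) := by
  set δ : ℝ := ε / 2 with hδ
  have hδ0 : 0 < δ := half_pos hε
  set q : ℝ := 1 + β + 2 * δ with hq
  have hq0 : 0 < q := by linarith
  obtain ⟨C, hC⟩ := h δ hδ0
  obtain ⟨G, hG, hFG⟩ := FF_meas hw hA hAB.le (α := σ) (by linarith)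
  have hZG : ∀ a ∈ Set.Icc A B, ∀ y : ℝ, 0 < y → Z a ((σ : ℂ) + y * I) = G (a, y) := by
    intro a ha y hy
    obtain ⟨c, hc⟩ := exists_taylor a hw
    rw [(hZ a (hA.trans_le ha.1)).eq (hA.trans_le ha.1) hw hc σ hy]
    exact hFG a ha c hc y hy
  set g : ℝ × ℝ → ENNReal := fun p => ‖G p‖ₑ ^ 2 * ENNReal.ofReal (p.2 ^ (-q)) with hg
  have hgm : Measurable g := by
    refine Measurable.mul (hG.enorm.pow_const 2) ?_
    exact ENNReal.measurable_ofReal.comp (measurable_snd.pow_const _)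
  have hfin : ∫⁻ a in Set.Icc A B, ∫⁻ y in Ioi (2 : ℝ), g (a, y) ≠ ⊤ := by
    rw [lintegral_lintegral_swap (hgm.aemeasurable)]
    have hI : IntegrableOn (fun y : ℝ => |C| * y ^ (-(1 + δ))) (Ioi 2) :=
      (integrableOn_Ioi_rpow_of_lt (by linarith) (by norm_num)).const_mul _
    have h1 : ∫⁻ y in Ioi (2 : ℝ), ∫⁻ a in Set.Icc A B, g (a, y) ≤
        ∫⁻ y in Ioi (2 : ℝ), ENNReal.ofReal (|C| * y ^ (-(1 + δ))) := by
      refine setLIntegral_mono' measurableSet_Ioi fun y hy => ?_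
      have hy2 : (2 : ℝ) < y := hy
      have hy0 : 0 < y := by linarith
      have h6 : ∫⁻ a in Set.Icc A B, g (a, y) = ENNReal.ofReal (y ^ (-q)) *
          ∫⁻ a in Set.Icc A B, ‖Z a ((σ : ℂ) + y * I)‖ₑ ^ 2 := by
        rw [← lintegral_const_mul' _ _ ENNReal.ofReal_ne_top]
        refine setLIntegral_congr_fun measurableSet_Icc fun a ha => ?_
        rw [hg]
        simp only
        rw [hZG a ha y hy0, mul_comm]
      rw [h6]
      refine (mul_le_mul_right (hC y hy2.le) _).trans ?_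
      rw [← ENNReal.ofReal_mul (by positivity)]
      apply ENNReal.ofReal_le_ofReal
      have h7 : y ^ (-q) * y ^ (β + δ) = y ^ (-(1 + δ)) := by
        rw [← Real.rpow_add hy0]
        congr 1
        rw [hq]
        ring
      calc y ^ (-q) * (C * y ^ (β + δ)) = C * (y ^ (-q) * y ^ (β + δ)) := by ring
        _ = C * y ^ (-(1 + δ)) := by rw [h7]
        _ ≤ |C| * y ^ (-(1 + δ)) := by
            gcongr
            exact le_abs_self C
    refine ne_top_of_le_ne_top ?_ h1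
    have h2 := hI.lintegral_lt_top
    exact h2.ne
  have hm : Measurable fun a => ∫⁻ y in Ioi (2 : ℝ), g (a, y) :=
    hgm.lintegral_prod_right' (ν := volume.restrict (Ioi 2))
  have hae := ae_lt_top hm hfin
  have hne : (ae (volume.restrict (Set.Icc A B))).NeBot := by
    rw [ae_neBot]
    intro h0
    have h1 : volume.restrict (Set.Icc A B) Set.univ = 0 := by rw [h0]; simp
    rw [Measure.restrict_apply_univ, Real.volume_Icc, ENNReal.ofReal_eq_zero] at h1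
    linarith
  obtain ⟨a, ha1, ha2⟩ := (hae.and (ae_restrict_mem measurableSet_Icc)).exists
  have ha : 0 < a := hA.trans_le ha2.1
  set S : ℝ := (∫⁻ y in Ioi (2 : ℝ), g (a, y)).toReal with hS
  have hS0 : 0 ≤ S := ENNReal.toReal_nonneg
  have hSe : ENNReal.ofReal S = ∫⁻ y in Ioi (2 : ℝ), g (a, y) := ENNReal.ofReal_toReal ha1.ne
  have hcont := Pool.Agent.H312.Barnes.line_cont (hZ a ha).hol σ
  set K : ℝ := ∫ y in (1 : ℝ)..2, ‖Z a ((σ : ℂ) + (y : ℂ) * I)‖ ^ 2 with hK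
  have hK0 : 0 ≤ K := intervalIntegral.integral_nonneg (by norm_num) fun y _ => by positivity
  have hO : (fun T : ℝ => ∫ t in (1 : ℝ)..T, ‖Z a ((σ : ℂ) + (t : ℂ) * I)‖ ^ 2)
      =O[atTop] fun T : ℝ => T ^ (1 + ((2 : ℕ) : ℝ) * ((β + 2 * δ) / 2)) := by
    refine IsBigO.of_bound (K + S) ?_
    filter_upwards [eventually_ge_atTop (2 : ℝ)] with T hT
    have hT0 : 0 < T := by linarith
    have e : 1 + ((2 : ℕ) : ℝ) * ((β + 2 * δ) / 2) = q := by rw [hq]; push_cast; ring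
    rw [e, Real.norm_eq_abs, Real.norm_eq_abs, abs_of_nonneg (Real.rpow_nonneg hT0.le _),
      abs_of_nonneg (intervalIntegral.integral_nonneg (by linarith) fun t _ => by positivity)]
    have hsub : ∀ x y : ℝ, 1 ≤ x → x ≤ y → IntervalIntegrable
        (fun t : ℝ => ‖Z a ((σ : ℂ) + (t : ℂ) * I)‖ ^ 2) volume x y := by
      intro x y hx hxy
      apply ContinuousOn.intervalIntegrable
      rw [Set.uIcc_of_le hxy]
      exact ((hcont.norm).pow 2).mono fun t ht => hx.trans ht.1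
    rw [← intervalIntegral.integral_add_adjacent_intervals (hsub 1 2 le_rfl (by norm_num))
      (hsub 2 T (by norm_num) hT)]
    have h2 : ∫ t in (2 : ℝ)..T, ‖Z a ((σ : ℂ) + (t : ℂ) * I)‖ ^ 2 ≤ S * T ^ q := by
      rw [intervalIntegral.integral_of_le hT,
        integral_eq_lintegral_of_nonneg_ae (ae_of_all _ fun t => by positivity)
          (((hsub 2 T (by norm_num) hT).1).aestronglyMeasurable)]
      refine ENNReal.toReal_le_of_le_ofReal (by positivity) ?_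
      calc ∫⁻ t in Ioc 2 T, ENNReal.ofReal (‖Z a ((σ : ℂ) + (t : ℂ) * I)‖ ^ 2) ≤
          ∫⁻ t in Ioc 2 T, ENNReal.ofReal (T ^ q) * g (a, t) := by
            refine setLIntegral_mono' measurableSet_Ioc fun t ht => ?_
            have ht0 : 0 < t := by linarith [ht.1]
            have h3 : 1 ≤ T ^ q * t ^ (-q) := by
              rw [Real.rpow_neg ht0.le, ← div_eq_mul_inv, one_le_div (by positivity)]
              exact Real.rpow_le_rpow ht0.le ht.2 hq0.le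
            rw [hg]
            simp only
            rw [← hZG a ha2 t ht0, ENNReal.ofReal_pow (norm_nonneg _), ofReal_norm]
            calc ‖Z a ((σ : ℂ) + (t : ℂ) * I)‖ₑ ^ 2 = ‖Z a ((σ : ℂ) + (t : ℂ) * I)‖ₑ ^ 2 * 1 :=
                  (mul_one _).symm
              _ ≤ ‖Z a ((σ : ℂ) + (t : ℂ) * I)‖ₑ ^ 2 *
                  ENNReal.ofReal (T ^ q * t ^ (-q)) := by
                  have h4 : (1 : ENNReal) ≤ ENNReal.ofReal (T ^ q * t ^ (-q)) := by
                    rwa [ENNReal.one_le_ofReal]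
                  exact mul_le_mul_right h4 _
              _ = _ := by
                  rw [ENNReal.ofReal_mul (by positivity)]
                  ring
        _ = ENNReal.ofReal (T ^ q) * ∫⁻ t in Ioc 2 T, g (a, t) :=
            lintegral_const_mul' _ _ ENNReal.ofReal_ne_top
        _ ≤ ENNReal.ofReal (T ^ q) * ∫⁻ t in Ioi (2 : ℝ), g (a, t) := by
            have h5 : ∫⁻ t in Ioc 2 T, g (a, t) ≤ ∫⁻ t in Ioi (2 : ℝ), g (a, t) :=
              lintegral_mono_set fun t ht => ht.1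
            exact mul_le_mul_right h5 _
        _ = _ := by
            rw [← hSe, ← ENNReal.ofReal_mul (by positivity), mul_comm]
    have h3 : 1 ≤ T ^ q := Real.one_le_rpow (by linarith) hq0.le
    nlinarith
  have h1 := Pool.Agent.H312.Barnes.dio_of_moment ha hw (hZ a ha).hol (hZ a ha).ser
    (n := 2) (by norm_num) hσ (η := (β + 2 * δ) / 2) (by positivity) hO
  have e : 1 + 2 * ((β + 2 * δ) / 2) = 1 + β + ε := by rw [hδ]; ring
  rwa [e] at h1

end Pool.Agent.H312.Sh
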