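import Pool.Agent.H312.Sh.App

set_option autoImplicit false

/-!
# The mean square over the shift: rare shifts and sparse sets of heights
-/

namespace Pool.Agent.H312.Sh

open Filter Topology MeasureTheory Complex Set

/-- large values at a given height are rare -/
theorem rare_shifts {Z : ℝ → ℂ → ℂ} {σ β : ℝ} (h : Ev Z σ β) {A : ℝ} (hA : 0 < A) (B σ₁ η : ℝ)
    {ε : ℝ} (hε : 0 < ε) : ∃ C : ℝ, ∀ t : ℝ, 2 ≤ t →
      volume {a : ℝ | A ≤ a ∧ a ≤ B ∧ ∃ x u : ℝ, σ ≤ x ∧ x ≤ σ₁ ∧ t ≤ u ∧ u ≤ t + 1 ∧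
        t ^ η < ‖Z a ((x : ℂ) + u * I)‖} ≤ ENNReal.ofReal (C * t ^ (β - 2 * η + ε)) := by
  obtain ⟨C, hC⟩ := h A B σ₁ ε hA hε
  refine ⟨C, fun t ht => ?_⟩
  have ht0 : 0 < t := by linarith
  obtain ⟨M, hM, h1, h2⟩ := hC t ht
  set L : ENNReal := ENNReal.ofReal (t ^ (2 * η)) with hL
  have hL0 : L ≠ 0 := by
    rw [hL, Ne, ENNReal.ofReal_eq_zero, not_le]
    positivity
  have hLt : L ≠ ⊤ := ENNReal.ofReal_ne_top
  have h3 : {a : ℝ | A ≤ a ∧ a ≤ B ∧ ∃ x u : ℝ, σ ≤ x ∧ x ≤ σ₁ ∧ t ≤ u ∧ u ≤ t + 1 ∧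
      t ^ η < ‖Z a ((x : ℂ) + u * I)‖} ⊆ {a | L ≤ M a} ∩ Set.Icc A B := by
    rintro a ⟨ha1, ha2, x, u, hx, hx1, hu, hu1, hlt⟩
    refine ⟨?_, ha1, ha2⟩
    refine le_trans ?_ (h1 a ⟨ha1, ha2⟩ x u hx hx1 hu hu1)
    rw [hL, ← ofReal_norm, ← ENNReal.ofReal_pow (norm_nonneg _)]
    apply ENNReal.ofReal_le_ofReal
    have e : t ^ (2 * η) = (t ^ η) ^ 2 := by
      rw [← Real.rpow_natCast, ← Real.rpow_mul ht0.le]
      congr 1
      push_cast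
      ring
    rw [e]
    exact pow_le_pow_left₀ (by positivity) hlt.le 2
  have h4 : volume.restrict (Set.Icc A B) {a | L ≤ M a} =
      volume ({a | L ≤ M a} ∩ Set.Icc A B) :=
    Measure.restrict_apply (measurableSet_le measurable_const hM)
  calc _ ≤ volume ({a | L ≤ M a} ∩ Set.Icc A B) := measure_mono h3
    _ = volume.restrict (Set.Icc A B) {a | L ≤ M a} := h4.symm
    _ ≤ (∫⁻ a in Set.Icc A B, M a) / L := meas_ge_le_lintegral_div hM.aemeasurable hL0 hLt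
    _ ≤ ENNReal.ofReal (C * t ^ (β + ε)) / L := by gcongr
    _ = ENNReal.ofReal (C * t ^ (β + ε) / t ^ (2 * η)) := by
        rw [hL, ← ENNReal.ofReal_div_of_pos (by positivity)]
    _ = _ := by
        congr 1
        rw [mul_div_assoc, ← Real.rpow_sub ht0]
        congr 2
        ring

/-- almost all shifts in an interval, at sparse heights -/
theorem sparse_one {Z : ℝ → ℂ → ℂ} {σ β γ : ℝ} (h : Ev Z σ β) {τ : ℕ → ℝ} (hτ : ∀ n, 2 ≤ τ n)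
    (hsum : ∀ ε : ℝ, 0 < ε → Summable fun n => (τ n) ^ (-(γ + ε))) {A : ℝ} (hA : 0 < A)
    (B σ₁ : ℝ) {ε : ℝ} (hε : 0 < ε) :
    ∀ᵐ a ∂(volume.restrict (Set.Icc A B)), ∃ C : ℝ, 0 ≤ C ∧ ∀ (n : ℕ) (x u : ℝ), σ ≤ x → x ≤ σ₁ →
      τ n ≤ u → u ≤ τ n + 1 → ‖Z a ((x : ℂ) + u * I)‖ ≤ C * (τ n) ^ ((β + γ) / 2 + ε) := by
  obtain ⟨C, hC⟩ := h A B σ₁ ε hA hε
  choose M hM h1 h2 using fun n => hC (τ n) (hτ n)
  have hτ0 : ∀ n, 0 < τ n := fun n => by linarith [hτ n]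
  set q : ℝ := β + γ + 2 * ε with hq
  have hFm : Measurable fun a => ∑' n, M n a * ENNReal.ofReal ((τ n) ^ (-q)) :=
    Measurable.ennreal_tsum fun n => (hM n).mul_const _
  have hfin : ∫⁻ a in Set.Icc A B, ∑' n, M n a * ENNReal.ofReal ((τ n) ^ (-q)) ≠ ⊤ := by
    rw [lintegral_tsum (fun n => ((hM n).mul_const _).aemeasurable)]
    have h3 : ∀ n, ∫⁻ a in Set.Icc A B, M n a * ENNReal.ofReal ((τ n) ^ (-q)) ≤
        ENNReal.ofReal (|C| * (τ n) ^ (-(γ + ε))) := by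
      intro n
      rw [lintegral_mul_const' _ _ ENNReal.ofReal_ne_top]
      calc _ ≤ ENNReal.ofReal (C * τ n ^ (β + ε)) * ENNReal.ofReal ((τ n) ^ (-q)) := by
            gcongr
            exact h2 n
        _ = ENNReal.ofReal (C * τ n ^ (β + ε) * (τ n) ^ (-q)) := by
            rw [← ENNReal.ofReal_mul' (Real.rpow_nonneg (hτ0 n).le _)]
        _ ≤ _ := by
            apply ENNReal.ofReal_le_ofReal
            rw [mul_assoc, ← Real.rpow_add (hτ0 n)]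
            have e : β + ε + -q = -(γ + ε) := by rw [hq]; ring
            rw [e]
            have := (hτ0 n).le
            gcongr
            exact le_abs_self C
    refine ne_top_of_le_ne_top ?_ (ENNReal.tsum_le_tsum h3)
    exact ((hsum ε hε).mul_left |C|).tsum_ofReal_ne_top
  filter_upwards [ae_lt_top hFm hfin, ae_restrict_mem measurableSet_Icc] with a ha1 ha2
  set S : ℝ := (∑' n, M n a * ENNReal.ofReal ((τ n) ^ (-q))).toReal with hS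
  have hS0 : 0 ≤ S := ENNReal.toReal_nonneg
  refine ⟨Real.sqrt S, Real.sqrt_nonneg _, fun n x u hx hx1 hu hu1 => ?_⟩
  have h3 : M n a * ENNReal.ofReal ((τ n) ^ (-q)) ≤ ENNReal.ofReal S := by
    rw [hS, ENNReal.ofReal_toReal ha1.ne]
    exact ENNReal.le_tsum n
  have h4 : ENNReal.ofReal (‖Z a ((x : ℂ) + u * I)‖ ^ 2 * (τ n) ^ (-q)) ≤ ENNReal.ofReal S := by
    rw [ENNReal.ofReal_mul (by positivity), ENNReal.ofReal_pow (norm_nonneg _), ofReal_norm]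
    refine le_trans ?_ h3
    gcongr
    exact h1 n a ha2 x u hx hx1 hu hu1
  have h5 := (ENNReal.ofReal_le_ofReal_iff hS0).1 h4
  rw [Real.rpow_neg (hτ0 n).le, ← div_eq_mul_inv, div_le_iff₀ (Real.rpow_pos_of_pos (hτ0 n) _)] at h5
  have h6 : (τ n) ^ q = ((τ n) ^ ((β + γ) / 2 + ε)) ^ 2 := by
    rw [← Real.rpow_natCast, ← Real.rpow_mul (hτ0 n).le]
    congr 1
    rw [hq]
    push_cast
    ring
  have h7 : 0 ≤ (τ n) ^ ((β + γ) / 2 + ε) := Real.rpow_nonneg (hτ0 n).le _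
  refine le_of_sq_le_sq ?_ (by positivity)
  rw [mul_pow, Real.sq_sqrt hS0, ← h6]
  exact h5

/-- almost all shifts, at sparse heights -/
theorem sparse {Z : ℝ → ℂ → ℂ} {σ β γ : ℝ} (h : Ev Z σ β) (hβγ : 0 ≤ β + γ) {τ : ℕ → ℝ}
    (hτ : ∀ n, 2 ≤ τ n) (hsum : ∀ ε : ℝ, 0 < ε → Summable fun n => (τ n) ^ (-(γ + ε))) :
    ∀ᵐ a : ℝ, 0 < a → ∀ σ₁ ε : ℝ, 0 < ε → ∃ C : ℝ, ∀ (n : ℕ) (x u : ℝ), σ ≤ x → x ≤ σ₁ →
      τ n ≤ u → u ≤ τ n + 1 → ‖Z a ((x : ℂ) + u * I)‖ ≤ C * u ^ ((β + γ) / 2 + ε) := by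
  have h0 : ∀ k m N : ℕ, ∀ᵐ a : ℝ, a ∈ Set.Icc (1 / ((k : ℝ) + 1)) ((k : ℝ) + 1) → ∃ C : ℝ, 0 ≤ C ∧
      ∀ (n : ℕ) (x u : ℝ), σ ≤ x → x ≤ (m : ℝ) → τ n ≤ u → u ≤ τ n + 1 →
        ‖Z a ((x : ℂ) + u * I)‖ ≤ C * (τ n) ^ ((β + γ) / 2 + 1 / ((N : ℝ) + 1)) := fun k m N =>
    (ae_restrict_iff' measurableSet_Icc).1
      (sparse_one h hτ hsum (by positivity) _ _ (by positivity))
  filter_upwards [ae_all_iff.2 fun k => ae_all_iff.2 fun m => ae_all_iff.2 fun N => h0 k m N]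
    with a ha ha0 σ₁ ε hε
  obtain ⟨k, hk⟩ := exists_nat_ge (max a (1 / a))
  have hk1 : a ≤ (k : ℝ) + 1 := by
    have := (le_max_left a (1 / a)).trans hk
    linarith
  have hk2 : 1 / ((k : ℝ) + 1) ≤ a := by
    have h1 := (le_max_right a (1 / a)).trans hk
    rw [div_le_iff₀ (by positivity)]
    rw [div_le_iff₀ ha0] at h1
    nlinarith
  obtain ⟨m, hm⟩ := exists_nat_ge σ₁
  obtain ⟨N, hN⟩ := exists_nat_one_div_lt hε
  obtain ⟨C, hC0, hC⟩ := ha k m N ⟨hk2, hk1⟩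
  refine ⟨C, fun n x u hx hx1 hu hu1 => ?_⟩
  refine (hC n x u hx (hx1.trans hm) hu hu1).trans ?_
  have hτ1 : 1 ≤ τ n := by linarith [hτ n]
  have h1 : 0 ≤ (β + γ) / 2 + 1 / ((N : ℝ) + 1) := by positivity
  calc C * (τ n) ^ ((β + γ) / 2 + 1 / ((N : ℝ) + 1)) ≤ C * u ^ ((β + γ) / 2 + 1 / ((N : ℝ) + 1)) := by
        gcongr
    _ ≤ C * u ^ ((β + γ) / 2 + ε) := by
        have h2 : u ^ ((β + γ) / 2 + 1 / ((N : ℝ) + 1)) ≤ u ^ ((β + γ) / 2 + ε) :=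
          Real.rpow_le_rpow_of_exponent_le (by linarith) (by linarith)
        gcongr

end Pool.Agent.H312.Sh
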