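import Mathlib

set_option autoImplicit false

/-!
# The mean square over the shift as a quadratic form
-/

namespace Pool.Agent.H312.Sh

open Finset Filter Topology MeasureTheory Complex Set ComplexConjugate

lemma exp_int : IntegrableOn (fun a : ℝ => a * Real.exp (-a)) (Ioi 0) := by
  have h1 := Real.GammaIntegral_convergent (s := 2) (by norm_num)
  refine h1.congr_fun (fun a ha => ?_) measurableSet_Ioi
  have ha' : (0 : ℝ) < a := ha
  simp only
  have : (2 : ℝ) - 1 = 1 := by norm_num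
  rw [this, Real.rpow_one, mul_comm]

lemma int_exp {ξ : ℂ} (hξ : 1 ≤ ξ.re) :
    ∫ a in Ioi (0 : ℝ), ((a : ℝ) : ℂ) * cexp (-(ξ * a)) = (ξ⁻¹) ^ 2 := by
  have hξ0 : ξ ≠ 0 := by
    intro h
    rw [h] at hξ
    norm_num at hξ
  set f : ℝ → ℂ := fun a => -((a : ℂ) * ξ⁻¹ + (ξ⁻¹) ^ 2) * cexp (-(ξ * a)) with hf
  have hder : ∀ a ∈ Ici (0 : ℝ), HasDerivAt f (((a : ℝ) : ℂ) * cexp (-(ξ * a))) a := by
    intro a _
    have h1 : HasDerivAt (fun a : ℝ => -((a : ℂ) * ξ⁻¹ + (ξ⁻¹) ^ 2)) (-ξ⁻¹) a := by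
      have h2 : HasDerivAt (fun a : ℝ => (a : ℂ)) 1 a := Complex.ofRealCLM.hasDerivAt
      have h3 := ((h2.mul_const ξ⁻¹).add_const ((ξ⁻¹) ^ 2)).neg
      rwa [one_mul] at h3
    have h2 : HasDerivAt (fun a : ℝ => cexp (-(ξ * a))) (cexp (-(ξ * a)) * (-ξ)) a := by
      have h3 : HasDerivAt (fun a : ℝ => (a : ℂ)) 1 a := Complex.ofRealCLM.hasDerivAt
      have h4 := (h3.const_mul ξ).neg.cexp
      rwa [mul_one] at h4
    have h3 := h1.mul h2
    refine h3.congr_deriv ?_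
    field_simp
    ring
  have hint : IntegrableOn (fun a : ℝ => ((a : ℝ) : ℂ) * cexp (-(ξ * a))) (Ioi 0) := by
    refine Integrable.mono' exp_int (by fun_prop) ?_
    filter_upwards [ae_restrict_mem measurableSet_Ioi] with a ha
    have ha' : (0 : ℝ) < a := ha
    rw [norm_mul, Complex.norm_real, Real.norm_eq_abs, abs_of_pos ha', Complex.norm_exp]
    have h1 : (-(ξ * (a : ℂ))).re = -(ξ.re * a) := by simp
    rw [h1]
    gcongr
    nlinarith
  have hlim : Tendsto f atTop (𝓝 0) := by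
    rw [tendsto_zero_iff_norm_tendsto_zero]
    have h1 := Real.tendsto_pow_mul_exp_neg_atTop_nhds_zero 1
    have h0 := Real.tendsto_exp_neg_atTop_nhds_zero
    have h2 : Tendsto (fun a : ℝ => ‖ξ⁻¹‖ * (a ^ 1 * Real.exp (-a)) + ‖ξ⁻¹‖ ^ 2 * Real.exp (-a))
        atTop (𝓝 (‖ξ⁻¹‖ * 0 + ‖ξ⁻¹‖ ^ 2 * 0)) := (h1.const_mul _).add (h0.const_mul _)
    rw [mul_zero, mul_zero, add_zero] at h2
    refine squeeze_zero' (Eventually.of_forall fun a => norm_nonneg _) ?_ h2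
    filter_upwards [eventually_ge_atTop (0 : ℝ)] with a ha
    simp only [hf]
    rw [norm_mul, norm_neg, Complex.norm_exp]
    have h3 : (-(ξ * (a : ℂ))).re = -(ξ.re * a) := by simp
    rw [h3]
    have h4 : ‖(a : ℂ) * ξ⁻¹ + (ξ⁻¹) ^ 2‖ ≤ a * ‖ξ⁻¹‖ + ‖ξ⁻¹‖ ^ 2 := by
      refine (norm_add_le _ _).trans ?_
      rw [norm_mul, norm_pow, Complex.norm_real, Real.norm_eq_abs, abs_of_nonneg ha]
    calc ‖(a : ℂ) * ξ⁻¹ + (ξ⁻¹) ^ 2‖ * Real.exp (-(ξ.re * a)) ≤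
        (a * ‖ξ⁻¹‖ + ‖ξ⁻¹‖ ^ 2) * Real.exp (-a) := by
          gcongr
          nlinarith
      _ = _ := by ring
  have h := integral_Ioi_of_hasDerivAt_of_tendsto' hder hint hlim
  rw [h]
  simp [hf]

theorem quad {h ζ : ℝ → ℂ} (hh : Integrable h) (hm : Measurable h) (hζ : Measurable ζ)
    (hre : ∀ u, 0 ≤ (ζ u).re) :
    ∫⁻ a in Ioi (0 : ℝ), ENNReal.ofReal (a * Real.exp (-a)) *
        ‖∫ u, h u * cexp (-(a : ℂ) * ζ u)‖ₑ ^ 2 ≤
      ∫⁻ p : ℝ × ℝ, ‖h p.1‖ₑ * ‖h p.2‖ₑ *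
        ENNReal.ofReal ((‖1 + ζ p.1 + conj (ζ p.2)‖ ^ 2)⁻¹) := by
  set Φ : ℝ → ℂ := fun a => ∫ u, h u * cexp (-(a : ℂ) * ζ u) with hΦ
  set G : ℝ × (ℝ × ℝ) → ℂ := fun x => ((x.1 * Real.exp (-x.1) : ℝ) : ℂ) *
    ((h x.2.1 * cexp (-(x.1 : ℂ) * ζ x.2.1)) * conj (h x.2.2 * cexp (-(x.1 : ℂ) * ζ x.2.2)))
    with hG
  have hGm : Measurable G := by
    rw [hG]
    have m1 : Measurable fun x : ℝ × (ℝ × ℝ) => ((x.1 * Real.exp (-x.1) : ℝ) : ℂ) := by fun_prop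
    have m2 : Measurable fun x : ℝ × (ℝ × ℝ) => h x.2.1 * cexp (-(x.1 : ℂ) * ζ x.2.1) := by
      fun_prop
    have m3 : Measurable fun x : ℝ × (ℝ × ℝ) => h x.2.2 * cexp (-(x.1 : ℂ) * ζ x.2.2) := by
      fun_prop
    exact m1.mul (m2.mul (Complex.continuous_conj.measurable.comp m3))
  have hexp1 : ∀ (a : ℝ), 0 ≤ a → ∀ u, ‖cexp (-(a : ℂ) * ζ u)‖ ≤ 1 := by
    intro a ha u
    rw [Complex.norm_exp]
    have : (-(a : ℂ) * ζ u).re = -(a * (ζ u).re) := by simp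
    rw [this, Real.exp_le_one_iff]
    have := mul_nonneg ha (hre u)
    linarith
  have hGi : Integrable G ((volume.restrict (Ioi (0 : ℝ))).prod (volume : Measure (ℝ × ℝ))) := by
    have hb : Integrable (fun x : ℝ × (ℝ × ℝ) => (x.1 * Real.exp (-x.1)) *
        (‖h x.2.1‖ * ‖h x.2.2‖))
        ((volume.restrict (Ioi (0 : ℝ))).prod (volume : Measure (ℝ × ℝ))) := by
      have h2 : Integrable (fun p : ℝ × ℝ => ‖h p.1‖ * ‖h p.2‖) (volume : Measure (ℝ × ℝ)) :=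
        hh.norm.mul_prod hh.norm
      exact exp_int.mul_prod h2
    refine Integrable.mono' hb hGm.aestronglyMeasurable ?_
    have hae : ∀ᵐ x ∂((volume.restrict (Ioi (0 : ℝ))).prod (volume : Measure (ℝ × ℝ))),
        x.1 ∈ Ioi (0 : ℝ) := by
      have := ae_restrict_mem (μ := volume) (measurableSet_Ioi (a := (0 : ℝ)))
      exact Measure.quasiMeasurePreserving_fst.ae this
    filter_upwards [hae] with x hx
    have hx0 : 0 < x.1 := hx
    simp only [hG]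
    rw [norm_mul, norm_mul, RCLike.norm_conj, norm_mul, norm_mul, Complex.norm_real,
      Real.norm_eq_abs, abs_of_nonneg (by positivity)]
    have e1 := hexp1 x.1 hx0.le x.2.1
    have e2 := hexp1 x.1 hx0.le x.2.2
    calc x.1 * Real.exp (-x.1) * (‖h x.2.1‖ * ‖cexp (-(x.1 : ℂ) * ζ x.2.1)‖ *
          (‖h x.2.2‖ * ‖cexp (-(x.1 : ℂ) * ζ x.2.2)‖)) ≤
        x.1 * Real.exp (-x.1) * (‖h x.2.1‖ * 1 * (‖h x.2.2‖ * 1)) := by gcongr
      _ = _ := by ring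
  -- the inner integral over `p`
  have hin : ∀ a : ℝ, ∫ p : ℝ × ℝ, G (a, p) =
      ((a * Real.exp (-a) * ‖Φ a‖ ^ 2 : ℝ) : ℂ) := by
    intro a
    have h1 : ∫ p : ℝ × ℝ, G (a, p) = ((a * Real.exp (-a) : ℝ) : ℂ) *
        ∫ p : ℝ × ℝ, (h p.1 * cexp (-(a : ℂ) * ζ p.1)) *
          (conj (h p.2 * cexp (-(a : ℂ) * ζ p.2))) := by
      rw [← integral_const_mul]
    have h2 : ∫ p : ℝ × ℝ, (h p.1 * cexp (-(a : ℂ) * ζ p.1)) *
          (conj (h p.2 * cexp (-(a : ℂ) * ζ p.2))) = Φ a * conj (Φ a) := by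
      rw [hΦ]
      simp only
      rw [← integral_conj]
      exact integral_prod_mul (fun u => h u * cexp (-(a : ℂ) * ζ u))
        (fun v => conj (h v * cexp (-(a : ℂ) * ζ v)))
    rw [h1, h2, Complex.mul_conj, Complex.normSq_eq_norm_sq]
    push_cast
    ring
  have hRi : Integrable (fun a : ℝ => ((a * Real.exp (-a) * ‖Φ a‖ ^ 2 : ℝ) : ℂ))
      (volume.restrict (Ioi (0 : ℝ))) := by
    have := hGi.integral_prod_left
    simp only [hin] at this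
    exact this
  have hRi' : Integrable (fun a : ℝ => a * Real.exp (-a) * ‖Φ a‖ ^ 2)
      (volume.restrict (Ioi (0 : ℝ))) := by
    refine hRi.re.congr (ae_of_all _ fun a => ?_)
    exact Complex.ofReal_re _
  -- the inner integral over `a`
  have hout : ∀ p : ℝ × ℝ, ∫ a in Ioi (0 : ℝ), G (a, p) =
      h p.1 * conj (h p.2) * ((1 + ζ p.1 + conj (ζ p.2))⁻¹) ^ 2 := by
    intro p
    have hξ : 1 ≤ (1 + ζ p.1 + conj (ζ p.2)).re := by
      have h1 := hre p.1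
      have h2 := hre p.2
      simp only [Complex.add_re, Complex.one_re, Complex.conj_re]
      linarith
    rw [← int_exp hξ, ← integral_const_mul]
    refine setIntegral_congr_fun measurableSet_Ioi fun a _ => ?_
    simp only [hG]
    rw [map_mul, ← Complex.exp_conj]
    have e1 : conj (-(a : ℂ) * ζ p.2) = -(a : ℂ) * conj (ζ p.2) := by
      rw [map_mul, map_neg, Complex.conj_ofReal]
    have e2 : cexp (-((1 + ζ p.1 + conj (ζ p.2)) * (a : ℂ))) =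
        cexp (-(a : ℂ)) * (cexp (-(a : ℂ) * ζ p.1) * cexp (-(a : ℂ) * conj (ζ p.2))) := by
      rw [← Complex.exp_add, ← Complex.exp_add]
      congr 1
      ring
    rw [e1, e2]
    push_cast
    ring
  have hswap : ∫ a in Ioi (0 : ℝ), ((a * Real.exp (-a) * ‖Φ a‖ ^ 2 : ℝ) : ℂ) =
      ∫ p : ℝ × ℝ, h p.1 * conj (h p.2) * ((1 + ζ p.1 + conj (ζ p.2))⁻¹) ^ 2 := by
    have h1 := integral_integral_swap (f := fun a p => G (a, p))
      (μ := volume.restrict (Ioi (0 : ℝ))) (ν := (volume : Measure (ℝ × ℝ))) hGi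
    simp only [hin, hout] at h1
    exact h1
  calc ∫⁻ a in Ioi (0 : ℝ), ENNReal.ofReal (a * Real.exp (-a)) * ‖Φ a‖ₑ ^ 2
      = ∫⁻ a in Ioi (0 : ℝ), ENNReal.ofReal (a * Real.exp (-a) * ‖Φ a‖ ^ 2) := by
        refine setLIntegral_congr_fun measurableSet_Ioi fun a ha => ?_
        have ha' : (0 : ℝ) < a := ha
        rw [ENNReal.ofReal_mul (p := a * Real.exp (-a)) (by positivity),
          ENNReal.ofReal_pow (norm_nonneg _), ofReal_norm]
    _ = ENNReal.ofReal (∫ a in Ioi (0 : ℝ), a * Real.exp (-a) * ‖Φ a‖ ^ 2) := by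
        rw [ofReal_integral_eq_lintegral_ofReal hRi']
        exact (ae_restrict_mem measurableSet_Ioi).mono fun a ha => by
          have ha' : (0 : ℝ) < a := ha
          show 0 ≤ a * Real.exp (-a) * ‖Φ a‖ ^ 2
          positivity
    _ ≤ ‖∫ a in Ioi (0 : ℝ), ((a * Real.exp (-a) * ‖Φ a‖ ^ 2 : ℝ) : ℂ)‖ₑ := by
        rw [integral_complex_ofReal, ← ofReal_norm, Complex.norm_real]
        exact ENNReal.ofReal_le_ofReal (le_abs_self _)
    _ = ‖∫ p : ℝ × ℝ, h p.1 * conj (h p.2) * ((1 + ζ p.1 + conj (ζ p.2))⁻¹) ^ 2‖ₑ := by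
        rw [hswap]
    _ ≤ ∫⁻ p : ℝ × ℝ, ‖h p.1 * conj (h p.2) * ((1 + ζ p.1 + conj (ζ p.2))⁻¹) ^ 2‖ₑ :=
        enorm_integral_le_lintegral_enorm _
    _ = _ := by
        refine lintegral_congr fun p => ?_
        rw [enorm_mul, enorm_mul]
        congr 1
        · congr 1
          rw [← ofReal_norm, RCLike.norm_conj, ofReal_norm]
        · rw [← ofReal_norm, norm_pow, norm_inv, inv_pow]

end Pool.Agent.H312.Sh
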