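import Pool.Agent.H312.Barnes.Cnt

set_option autoImplicit false

/-!
# Short means over near resonances
-/

namespace Pool.Agent.H312.Sh

open Finset Filter Topology MeasureTheory Set
open Pool.Agent.H312.Barnes (nd nd_nonneg nd_le_half nd_le nd_sub nd_nat_mul nd_meas)

lemma short_vol {w b₀ : ℝ} (hw : 0 < w) (hb₀ : 0 < b₀) : ∃ C : ℝ, 0 < C ∧
    ∀ b u₀ m τ : ℝ, b₀ ≤ b → b ≤ 1 → 0 ≤ m →
      volume {v : ℝ | v ∈ Icc u₀ (u₀ + 1) ∧ τ ≤ Real.exp (-v) ∧ Real.exp (-v) ≤ τ + 1 ∧
        nd (b * Real.exp (-v) * w) ≤ m} ≤ ENNReal.ofReal (C * m * Real.exp u₀) := by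
  refine ⟨(w + 6) * (6 / (b₀ * w)), by positivity, fun b u₀ m τ hb hb1 hm => ?_⟩
  have hb0 : 0 < b := hb₀.trans_le hb
  set S : Set ℝ := {v : ℝ | v ∈ Icc u₀ (u₀ + 1) ∧ τ ≤ Real.exp (-v) ∧ Real.exp (-v) ≤ τ + 1 ∧
        nd (b * Real.exp (-v) * w) ≤ m} with hS
  set k₁ : ℤ := ⌊b * w * τ - 1⌋ with hk₁
  set k₂ : ℤ := ⌈b * w * (τ + 1) + 1⌉ with hk₂
  set Sk : ℤ → Set ℝ := fun k => {v | v ∈ S ∧ round (b * Real.exp (-v) * w) = k} with hSk
  have hcov : S ⊆ ⋃ k ∈ Finset.Icc k₁ k₂, Sk k := by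
    intro v hv
    simp only [mem_iUnion]
    have h1 := abs_sub_round (b * Real.exp (-v) * w)
    rw [abs_le] at h1
    have h2 : b * w * τ ≤ b * Real.exp (-v) * w := by
      have := hv.2.1
      calc b * w * τ ≤ b * w * Real.exp (-v) := by gcongr
        _ = _ := by ring
    have h3 : b * Real.exp (-v) * w ≤ b * w * (τ + 1) := by
      have := hv.2.2.1
      calc b * Real.exp (-v) * w = b * w * Real.exp (-v) := by ring
        _ ≤ _ := by gcongr
    refine ⟨round (b * Real.exp (-v) * w), ?_, hv, rfl⟩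
    rw [Finset.mem_Icc]
    constructor
    · have h4 : (k₁ : ℝ) ≤ b * w * τ - 1 := Int.floor_le _
      have h5 : (k₁ : ℝ) ≤ (round (b * Real.exp (-v) * w) : ℝ) := by linarith
      exact_mod_cast h5
    · have h4 : b * w * (τ + 1) + 1 ≤ (k₂ : ℝ) := Int.le_ceil _
      have h5 : (round (b * Real.exp (-v) * w) : ℝ) ≤ (k₂ : ℝ) := by linarith
      exact_mod_cast h5
  have hpiece : ∀ k, volume (Sk k) ≤ ENNReal.ofReal (6 / (b₀ * w) * m * Real.exp u₀) := by
    intro k
    refine (Real.volume_le_diam _).trans ?_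
    refine Metric.ediam_le ?_
    have key : ∀ u ∈ Sk k, ∀ v ∈ Sk k, u < v → v - u ≤ 6 / (b₀ * w) * m * Real.exp u₀ := by
      intro u hu v hv huv
      have h1 : |b * Real.exp (-u) * w - k| ≤ m := by
        have := hu.1.2.2.2
        unfold nd at this
        rwa [hu.2] at this
      have h2 : |b * Real.exp (-v) * w - k| ≤ m := by
        have := hv.1.2.2.2
        unfold nd at this
        rwa [hv.2] at this
      rw [abs_le] at h1 h2
      have h3 : b * w * (Real.exp (-u) - Real.exp (-v)) ≤ 2 * m := by nlinarith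
      have h4 : Real.exp (-u₀) / 3 * (v - u) ≤ Real.exp (-u) - Real.exp (-v) := by
        have e2 : Real.exp (-u) = Real.exp (-v) * Real.exp (v - u) := by
          rw [← Real.exp_add]; congr 1; ring
        have h5 : v - u ≤ Real.exp (v - u) - 1 := by
          have := Real.add_one_le_exp (v - u)
          linarith
        have h6 : Real.exp (-u₀) / 3 ≤ Real.exp (-v) := by
          have h7 : Real.exp (-u₀) * Real.exp (-1) ≤ Real.exp (-v) := by
            rw [← Real.exp_add]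
            apply Real.exp_le_exp.2
            have := hv.1.1.2
            linarith
          have h8 : (1 : ℝ) / 3 ≤ Real.exp (-1) := by
            rw [Real.exp_neg, ← one_div]
            exact one_div_le_one_div_of_le (Real.exp_pos _) (by linarith [Real.exp_one_lt_d9])
          have := Real.exp_pos (-u₀)
          nlinarith
        calc Real.exp (-u₀) / 3 * (v - u) ≤ Real.exp (-v) * (Real.exp (v - u) - 1) :=
              mul_le_mul h6 h5 (by linarith) (Real.exp_pos _).le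
          _ = _ := by rw [e2]; ring
      have h5 : b₀ * w * (Real.exp (-u₀) / 3 * (v - u)) ≤ 2 * m := by
        refine le_trans ?_ h3
        have h6 : 0 ≤ Real.exp (-u₀) / 3 * (v - u) :=
          mul_nonneg (by positivity) (by linarith)
        calc b₀ * w * (Real.exp (-u₀) / 3 * (v - u)) ≤ b * w * (Real.exp (-u₀) / 3 * (v - u)) := by
              gcongr
          _ ≤ _ := by gcongr
      have h6 : v - u = Real.exp u₀ * (Real.exp (-u₀) * (v - u)) := by
        rw [← mul_assoc, ← Real.exp_add]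
        simp
      have h7 : Real.exp (-u₀) * (v - u) ≤ 6 / (b₀ * w) * m := by
        rw [div_mul_eq_mul_div, le_div_iff₀ (by positivity)]
        nlinarith
      rw [h6]
      calc Real.exp u₀ * (Real.exp (-u₀) * (v - u)) ≤ Real.exp u₀ * (6 / (b₀ * w) * m) := by
            gcongr
        _ = _ := by ring
    intro u hu v hv
    rw [edist_dist]
    apply ENNReal.ofReal_le_ofReal
    rw [Real.dist_eq]
    rcases lt_trichotomy u v with h1 | h1 | h1
    · rw [abs_of_nonpos (by linarith)]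
      have := key u hu v hv h1
      linarith
    · rw [h1, sub_self, abs_zero]; positivity
    · rw [abs_of_nonneg (by linarith)]
      exact key v hv u hu h1
  have hcard : ((Finset.Icc k₁ k₂).card : ℝ) ≤ w + 6 := by
    rw [Int.card_Icc]
    have h1 : ((k₂ + 1 - k₁).toNat : ℝ) = max ((k₂ + 1 - k₁ : ℤ) : ℝ) 0 := by
      have := Int.toNat_eq_max (k₂ + 1 - k₁)
      have h2 : (((k₂ + 1 - k₁).toNat : ℤ) : ℝ) = ((max (k₂ + 1 - k₁) 0 : ℤ) : ℝ) := by rw [this]
      push_cast at h2 ⊢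
      exact h2
    rw [h1]
    refine max_le ?_ (by positivity)
    push_cast
    have h4 : b * w * τ - 1 < (k₁ : ℝ) + 1 := Int.lt_floor_add_one _
    have h5 : (k₂ : ℝ) < b * w * (τ + 1) + 1 + 1 := Int.ceil_lt_add_one _
    have h6 : b * w ≤ w := by nlinarith
    nlinarith
  calc volume S ≤ volume (⋃ k ∈ Finset.Icc k₁ k₂, Sk k) := measure_mono hcov
    _ ≤ ∑ k ∈ Finset.Icc k₁ k₂, volume (Sk k) := measure_biUnion_finset_le _ _
    _ ≤ ∑ _k ∈ Finset.Icc k₁ k₂, ENNReal.ofReal (6 / (b₀ * w) * m * Real.exp u₀) :=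
        Finset.sum_le_sum fun k _ => hpiece k
    _ = ENNReal.ofReal (((Finset.Icc k₁ k₂).card : ℝ) * (6 / (b₀ * w) * m * Real.exp u₀)) := by
        rw [Finset.sum_const, nsmul_eq_mul, ENNReal.ofReal_mul (Nat.cast_nonneg _),
          ENNReal.ofReal_natCast]
    _ ≤ _ := by
        apply ENNReal.ofReal_le_ofReal
        calc _ ≤ (w + 6) * (6 / (b₀ * w) * m * Real.exp u₀) := by gcongr
          _ = _ := by ring

/-- the kernel -/
noncomputable def ker (x : ℝ) : ℝ := (1 + x ^ 2 / 4)⁻¹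

lemma ker_pos (x : ℝ) : 0 < ker x := by unfold ker; positivity

lemma ker_meas : Measurable ker := by unfold ker; fun_prop

lemma ker_le {x : ℝ} {n : ℤ} (h1 : (n : ℝ) ≤ x) (h2 : x ≤ n + 1) :
    ker x ≤ 8 / (1 + (n : ℝ) ^ 2) := by
  unfold ker
  rw [inv_eq_one_div, div_le_div_iff₀ (by positivity) (by positivity)]
  rcases le_or_gt 0 n with h | h
  · have : (0 : ℝ) ≤ n := by exact_mod_cast h
    nlinarith
  · have h3 : (n : ℝ) ≤ -1 := by exact_mod_cast (by omega : n ≤ -1)
    nlinarith [sq_nonneg ((n : ℝ) + 2)]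

lemma ker_sum : Summable fun n : ℤ => 8 / (1 + (n : ℝ) ^ 2) := by
  have h1 : Summable fun n : ℤ => 8 * (1 / (n : ℝ) ^ 2) :=
    ((Real.summable_one_div_int_pow (p := 2)).2 (by norm_num)).mul_left 8
  have h2 : Summable fun n : ℤ => if n = 0 then (8 : ℝ) else 0 := (hasSum_ite_eq 0 8).summable
  refine Summable.of_nonneg_of_le (fun n => by positivity) (fun n => ?_) (h1.add h2)
  by_cases hn : n = 0
  · rw [hn]; norm_num
  · rw [if_neg hn, add_zero, mul_one_div]
    have hn' : (0 : ℝ) < (n : ℝ) ^ 2 := by positivity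
    exact div_le_div_of_nonneg_left (by norm_num) hn' (by linarith)

/-- the mean of the kernel over near resonances -/
theorem short_mean {w b₀ : ℝ} (hw : 0 < w) (hb₀ : 0 < b₀) : ∃ C : ℝ, 0 < C ∧
    ∀ b u₀ m x : ℝ, b₀ ≤ b → b ≤ 1 → 0 ≤ m →
      ∫⁻ v in {v : ℝ | v ∈ Icc u₀ (u₀ + 1) ∧ nd (b * Real.exp (-v) * w) ≤ m},
        ENNReal.ofReal (ker (x - Real.exp (-v))) ≤ ENNReal.ofReal (C * m * Real.exp u₀) := by
  obtain ⟨C, hC, hvol⟩ := short_vol hw hb₀
  set K : ℝ := ∑' n : ℤ, 8 / (1 + (n : ℝ) ^ 2) with hK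
  have hK0 : 0 ≤ K := tsum_nonneg fun n => by positivity
  refine ⟨(K + 1) * C, by positivity, fun b u₀ m x hb hb1 hm => ?_⟩
  set S : Set ℝ := {v : ℝ | v ∈ Icc u₀ (u₀ + 1) ∧ nd (b * Real.exp (-v) * w) ≤ m} with hS
  set Sn : ℤ → Set ℝ := fun n => {v : ℝ | v ∈ Icc u₀ (u₀ + 1) ∧ x + n ≤ Real.exp (-v) ∧
    Real.exp (-v) ≤ x + n + 1 ∧ nd (b * Real.exp (-v) * w) ≤ m} with hSn
  have hcov : S ⊆ ⋃ n : ℤ, Sn n := by
    intro v hv
    rw [mem_iUnion]
    refine ⟨⌊Real.exp (-v) - x⌋, hv.1, ?_, ?_, hv.2⟩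
    · have := Int.floor_le (Real.exp (-v) - x)
      linarith
    · have := Int.lt_floor_add_one (Real.exp (-v) - x)
      linarith
  calc ∫⁻ v in S, ENNReal.ofReal (ker (x - Real.exp (-v))) ≤
      ∫⁻ v in ⋃ n : ℤ, Sn n, ENNReal.ofReal (ker (x - Real.exp (-v))) := lintegral_mono_set hcov
    _ ≤ ∑' n : ℤ, ∫⁻ v in Sn n, ENNReal.ofReal (ker (x - Real.exp (-v))) := lintegral_iUnion_le _ _
    _ ≤ ∑' n : ℤ, ENNReal.ofReal (8 / (1 + (n : ℝ) ^ 2)) * ENNReal.ofReal (C * m * Real.exp u₀) := by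
        refine ENNReal.tsum_le_tsum fun n => ?_
        calc ∫⁻ v in Sn n, ENNReal.ofReal (ker (x - Real.exp (-v))) ≤
            ∫⁻ _v in Sn n, ENNReal.ofReal (8 / (1 + (n : ℝ) ^ 2)) := by
              refine setLIntegral_mono_ae measurable_const.aemeasurable (ae_of_all _ fun v hv => ?_)
              apply ENNReal.ofReal_le_ofReal
              have h1 : ker (x - Real.exp (-v)) = ker (Real.exp (-v) - x) := by
                unfold ker
                congr 2
                ring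
              rw [h1]
              exact ker_le (by linarith [hv.2.1]) (by linarith [hv.2.2.1])
          _ = ENNReal.ofReal (8 / (1 + (n : ℝ) ^ 2)) * volume (Sn n) := setLIntegral_const _ _
          _ ≤ _ := by
              gcongr
              exact hvol b u₀ m (x + n) hb hb1 hm
    _ = ENNReal.ofReal (K * (C * m * Real.exp u₀)) := by
        rw [ENNReal.tsum_mul_right, ← ENNReal.ofReal_tsum_of_nonneg (fun n => by positivity) ker_sum,
          ← ENNReal.ofReal_mul hK0]
    _ ≤ _ := by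
        apply ENNReal.ofReal_le_ofReal
        have : 0 ≤ C * m * Real.exp u₀ := by positivity
        nlinarith

end Pool.Agent.H312.Sh
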