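import Pool.Agent.H312.Barnes.Blk
import Pool.Agent.H312.Sub.Jb1
import Pool.Agent.H312.Sh.Rep
import Pool.Agent.H312.Sh.Quad
import Pool.Agent.H312.Sh.Short

set_option autoImplicit false

/-!
# The mean square over the shift of a block
-/

namespace Pool.Agent.H312.Sh

open Finset Filter Topology MeasureTheory Complex Set
open Pool.Agent.H131R5.BZ Pool.Agent.Y930.Bz Pool.Agent.Y616.BM
open Pool.Agent.H312.Barnes (nd nd_nonneg nd_le_half nd_le nd_sub nd_nat_mul nd_meas Dio box_le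
  pow_le_geom cf cf_pos)

variable {r : ℕ} {w : Fin r → ℝ}

/-- the frequency factor -/
noncomputable def bt (t : ℝ) : ℝ := Real.cos (1 / t) / (2 * Real.pi)

/-- the lower bound of the frequency factor -/
noncomputable def b0 : ℝ := Real.cos 1 / (2 * Real.pi)

lemma b0_pos : 0 < b0 := by
  have := Real.cos_one_pos
  have := Real.pi_pos
  unfold b0
  positivity

lemma bt_le {t : ℝ} (ht : 1 ≤ t) : b0 ≤ bt t ∧ bt t ≤ 1 := by
  have ht0 : 0 < t := by linarith
  have hp := Real.pi_pos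
  have h1 : 1 / t ≤ 1 := by rw [div_le_one ht0]; exact ht
  have h0 : 0 < 1 / t := by positivity
  unfold b0 bt
  constructor
  · have : Real.cos 1 ≤ Real.cos (1 / t) :=
      Real.cos_le_cos_of_nonneg_of_le_pi h0.le (by linarith [Real.pi_gt_three]) h1
    gcongr
  · rw [div_le_one (by positivity)]
    linarith [Real.cos_le_one (1 / t), Real.pi_gt_three]

lemma cos_half {t : ℝ} (ht : 1 ≤ t) : 1 / 2 ≤ Real.cos (1 / t) := by
  have ht0 : 0 < t := by linarith
  have h1 : 1 / t ≤ 1 := by rw [div_le_one ht0]; exact ht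
  have h0 : 0 < 1 / t := by positivity
  have h2 := Real.one_sub_sq_div_two_le_cos (x := 1 / t)
  nlinarith

lemma zr_im (u η : ℝ) : (zr u η).im = Real.exp (-u) * Real.cos η := by
  rw [zr_eq, Complex.add_im, Complex.ofReal_im, Complex.im_ofReal_mul, Complex.I_im, mul_one,
    zero_add]

lemma ker_bound {t u v : ℝ} (ht : 1 ≤ t) :
    (‖1 + zr u (1 / t) + (starRingEnd ℂ) (zr v (1 / t))‖ ^ 2)⁻¹ ≤
      ker (Real.exp (-u) - Real.exp (-v)) := by
  have ht0 : 0 < t := by linarith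
  have h1 : 1 / t ≤ 1 := by rw [div_le_one ht0]; exact ht
  have h0 : 0 < 1 / t := by positivity
  have hs := sin_ge h0.le h1
  unfold ker
  refine inv_anti₀ (by positivity) ?_
  rw [← Complex.normSq_eq_norm_sq, Complex.normSq_apply]
  simp only [Complex.add_re, Complex.add_im, Complex.one_re, Complex.one_im, Complex.conj_re,
    Complex.conj_im, zr_re, zr_im]
  have e1 := Real.exp_pos (-u)
  have e2 := Real.exp_pos (-v)
  have hc := cos_half ht
  have hre : 1 ≤ 1 + Real.exp (-u) * Real.sin (1 / t) + Real.exp (-v) * Real.sin (1 / t) := by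
    have : 0 ≤ Real.exp (-u) * Real.sin (1 / t) := mul_nonneg e1.le (by linarith)
    have : 0 ≤ Real.exp (-v) * Real.sin (1 / t) := mul_nonneg e2.le (by linarith)
    linarith
  have him : (Real.exp (-u) - Real.exp (-v)) ^ 2 / 4 ≤
      (Real.cos (1 / t) * (Real.exp (-u) - Real.exp (-v))) ^ 2 := by
    rw [mul_pow]
    have : (1 / 4 : ℝ) ≤ Real.cos (1 / t) ^ 2 := by nlinarith
    nlinarith [sq_nonneg (Real.exp (-u) - Real.exp (-v))]
  nlinarith

lemma Psi_eq {t : ℝ} (a σ : ℝ) {S : Set ℝ} (hS : MeasurableSet S) :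
    Psi a w t σ S = ∫ u, S.indicator (fun u => ph t σ u * KK 0 w (zr u (1 / t))) u *
      cexp (-(a : ℂ) * zr u (1 / t)) := by
  unfold Psi
  rw [← integral_indicator hS]
  refine integral_congr_ae (ae_of_all _ fun u => ?_)
  by_cases hu : u ∈ S
  · simp only [Set.indicator_of_mem hu]
    rw [KK_shift a 0 w]
    rw [sub_zero]
    ring
  · simp only [Set.indicator_of_notMem hu, zero_mul]

lemma Psi_meas (hw : ∀ j, 0 < w j) {t : ℝ} (ht : 1 ≤ t) (σ : ℝ) {S : Set ℝ}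
    (hS : MeasurableSet S) : Measurable fun a : ℝ => Psi a w t σ S := by
  have ht0 : 0 < t := by linarith
  have h1 : 1 / t ≤ 1 := by rw [div_le_one ht0]; exact ht
  have h0 : 0 < 1 / t := by positivity
  have hh : Measurable (S.indicator fun u => ph t σ u * KK 0 w (zr u (1 / t))) :=
    (((ph_cont t σ).mul (KK_ray_cont 0 hw h0 h1)).measurable).indicator hS
  have hz : Measurable fun u : ℝ => zr u (1 / t) := (zr_cont _).measurable
  have h2 : Measurable (Function.uncurry fun (a u : ℝ) =>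
      S.indicator (fun u => ph t σ u * KK 0 w (zr u (1 / t))) u *
      cexp (-(a : ℂ) * zr u (1 / t))) := by
    unfold Function.uncurry
    fun_prop
  have h3 := h2.stronglyMeasurable.integral_prod_right (ν := volume)
  have h4 : (fun a : ℝ => Psi a w t σ S) = fun a : ℝ => ∫ u,
      S.indicator (fun u => ph t σ u * KK 0 w (zr u (1 / t))) u *
      cexp (-(a : ℂ) * zr u (1 / t)) := by
    funext a
    exact Psi_eq a σ hS
  rw [h4]
  exact h3.measurable

lemma enorm_sum_sq {ι : Type*} (s : Finset ι) (x : ι → ℂ) :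
    ‖∑ i ∈ s, x i‖ₑ ^ 2 ≤ (s.card : ENNReal) * ∑ i ∈ s, ‖x i‖ₑ ^ 2 := by
  have h1 : ‖∑ i ∈ s, x i‖ ^ 2 ≤ s.card * ∑ i ∈ s, ‖x i‖ ^ 2 := by
    calc ‖∑ i ∈ s, x i‖ ^ 2 ≤ (∑ i ∈ s, ‖x i‖) ^ 2 :=
          pow_le_pow_left₀ (norm_nonneg _) (norm_sum_le _ _) 2
      _ ≤ _ := sq_sum_le_card_mul_sum_sq
  have h2 := ENNReal.ofReal_le_ofReal h1
  rw [ENNReal.ofReal_mul (by positivity), ENNReal.ofReal_natCast,
    ENNReal.ofReal_sum_of_nonneg (fun i _ => by positivity), ENNReal.ofReal_pow (norm_nonneg _),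
    ofReal_norm] at h2
  refine h2.trans (le_of_eq ?_)
  congr 1
  refine Finset.sum_congr rfl fun i _ => ?_
  rw [ENNReal.ofReal_pow (norm_nonneg _), ofReal_norm]

/-- one piece -/
theorem piece_le (hr : 0 < r) (hw : ∀ j, 0 < w j) {A B σ : ℝ} (hA : 0 < A) (hσ : 0 < σ)
    {s θ : ℝ} (hs : 0 ≤ s) (hθ : 1 ≤ θ) (h2 : 2 ≤ s + θ) (h : Dio w s θ) {p₀ : ℝ} (hp₀ : 0 < p₀) :
    ∃ C : ℝ, 0 < C ∧ ∀ (t u₀ y G : ℝ) (z : Fin r → ℝ) (S : Set ℝ), 1 ≤ t → p₀ ≤ Real.exp (-u₀) →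
      0 < y → y ≤ 1 → (∀ j, y ≤ z j) → (∀ j, z j ≤ 1) → 0 ≤ G → MeasurableSet S →
      S ⊆ {u : ℝ | u ∈ Set.Icc u₀ (u₀ + 1) ∧ ∀ j, nd (bt t * Real.exp (-u) * w j) ≤ z j} →
      (∀ u ∈ S, ‖KK 0 w (zr u (1 / t))‖ ≤ G) →
      ∫⁻ a in Set.Icc A B, ‖Psi a w t σ S‖ₑ ^ 2 ≤
        ENNReal.ofReal (C * (G ^ 2 * (∏ j, (z j) ^ 2)) *
          ((Real.exp (-u₀)) ^ (2 * σ + θ - 2) * y ^ (2 - s - θ))) := by
  classical
  have hb0 := b0_pos
  obtain ⟨C₁, hC₁, hbox⟩ := box_le hr hw hs hθ h (p₀ := b0 * p₀) (by positivity)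
  choose Cj hCj hshort using fun j => short_mean (hw j) hb0
  set C₂ : ℝ := ∑ j, Cj j with hC₂
  have hC₂j : ∀ j, Cj j ≤ C₂ := fun j =>
    Finset.single_le_sum (f := Cj) (fun j _ => (hCj j).le) (Finset.mem_univ j)
  have hC₂0 : 0 < C₂ := (hCj ⟨0, hr⟩).trans_le (hC₂j _)
  set c : ℝ := A * Real.exp (-B) with hc
  have hc0 : 0 < c := by positivity
  refine ⟨c⁻¹ * C₂ * C₁, by positivity,
    fun t u₀ y G z S ht hu₀ hy hy1 hyz hz1 hG hSm hS hKK => ?_⟩
  have ht0 : 0 < t := by linarith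
  have hη1 : 1 / t ≤ 1 := by rw [div_le_one ht0]; exact ht
  have hη0 : 0 < 1 / t := by positivity
  have hsin := sin_ge hη0.le hη1
  obtain ⟨hbt0, hbt1⟩ := bt_le ht
  have hbtp : 0 < bt t := hb0.trans_le hbt0
  have : Nonempty (Fin r) := ⟨⟨0, hr⟩⟩
  obtain ⟨j₀, -, hj₀⟩ := Finset.exists_min_image Finset.univ z Finset.univ_nonempty
  have hmin : ∀ j, z j₀ ≤ z j := fun j => hj₀ j (Finset.mem_univ j)
  set m : ℝ := z j₀ with hm
  have hm0 : 0 < m := hy.trans_le (hyz j₀)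
  set P : ℝ := Real.exp (-u₀) with hP
  have hP0 : 0 < P := Real.exp_pos _
  -- the volume of the piece
  have hvol : volume S ≤ ENNReal.ofReal (C₁ * (∏ j, (z j) ^ 2) * (P ^ (θ - 1) *
      m ^ (1 - s - θ))) := by
    refine (measure_mono hS).trans ?_
    refine (hbox (bt t) u₀ m z hbtp (by gcongr) hm0 (hz1 j₀) hmin hz1).trans ?_
    apply ENNReal.ofReal_le_ofReal
    have hprod : 0 ≤ ∏ j, (z j) ^ 2 := Finset.prod_nonneg fun j _ => sq_nonneg _
    have h3 : (bt t * P) ^ (θ - 1) ≤ P ^ (θ - 1) := by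
      apply Real.rpow_le_rpow (by positivity) _ (by linarith)
      nlinarith
    gcongr
  -- the quadratic form
  set hh : ℝ → ℂ := S.indicator fun u => ph t σ u * KK 0 w (zr u (1 / t)) with hhh
  set M : ℝ := G * P ^ σ with hM
  have hM0 : 0 ≤ M := by positivity
  have hhm : Measurable hh :=
    (((ph_cont t σ).mul (KK_ray_cont 0 hw hη0 hη1)).measurable).indicator hSm
  have hhM : ∀ u, ‖hh u‖ₑ ≤ S.indicator (fun _ => ENNReal.ofReal M) u := by
    intro u
    by_cases hu : u ∈ S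
    · rw [Set.indicator_of_mem hu, hhh, Set.indicator_of_mem hu, ← ofReal_norm]
      apply ENNReal.ofReal_le_ofReal
      rw [norm_mul, ph_norm, hM, mul_comm G]
      have h3 : Real.exp (-σ * u) ≤ P ^ σ := by
        rw [hP, ← Real.exp_mul]
        apply Real.exp_le_exp.2
        have := (hS hu).1.1
        nlinarith
      exact mul_le_mul h3 (hKK u hu) (norm_nonneg _) (by positivity)
    · rw [hhh, Set.indicator_of_notMem hu, Set.indicator_of_notMem hu, enorm_zero]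
  have hSfin : volume S < ⊤ := by
    refine (measure_mono fun u hu => (hS hu).1).trans_lt ?_
    rw [Real.volume_Icc]
    exact ENNReal.ofReal_lt_top
  have hhi : Integrable hh := by
    refine ⟨hhm.aestronglyMeasurable, ?_⟩
    refine lt_of_le_of_lt (lintegral_mono hhM) ?_
    rw [lintegral_indicator_const hSm]
    exact ENNReal.mul_lt_top ENNReal.ofReal_lt_top hSfin
  have hq := quad hhi hhm (zr_cont (1 / t)).measurable (fun u => by
    rw [zr_re]
    exact mul_nonneg (Real.exp_pos _).le (by linarith))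
  -- the kernel integral
  have hsm : ∀ x : ℝ, ∫⁻ v in S, ENNReal.ofReal (ker (x - Real.exp (-v))) ≤
      ENNReal.ofReal (C₂ * m * P⁻¹) := by
    intro x
    have h3 := hshort j₀ (bt t) u₀ m x hbt0 hbt1 hm0.le
    have h4 : S ⊆ {v : ℝ | v ∈ Set.Icc u₀ (u₀ + 1) ∧ nd (bt t * Real.exp (-v) * w j₀) ≤ m} :=
      fun v hv => ⟨(hS hv).1, (hS hv).2 j₀⟩
    refine (lintegral_mono_set h4).trans (h3.trans ?_)
    apply ENNReal.ofReal_le_ofReal
    have h5 : Real.exp u₀ = P⁻¹ := by rw [hP, Real.exp_neg, inv_inv]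
    rw [h5]
    have := hC₂j j₀
    gcongr
  have hform : ∫⁻ p : ℝ × ℝ, ‖hh p.1‖ₑ * ‖hh p.2‖ₑ *
        ENNReal.ofReal ((‖1 + zr p.1 (1 / t) + (starRingEnd ℂ) (zr p.2 (1 / t))‖ ^ 2)⁻¹) ≤
      ENNReal.ofReal M * (ENNReal.ofReal M * ENNReal.ofReal (C₂ * m * P⁻¹)) * volume S := by
    refine (lintegral_prod_le _).trans ?_
    have h3 : ∀ u : ℝ, ∫⁻ v : ℝ, ‖hh u‖ₑ * ‖hh v‖ₑ *
        ENNReal.ofReal ((‖1 + zr u (1 / t) + (starRingEnd ℂ) (zr v (1 / t))‖ ^ 2)⁻¹) ≤
        S.indicator (fun _ => ENNReal.ofReal M * (ENNReal.ofReal M *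
          ENNReal.ofReal (C₂ * m * P⁻¹))) u := by
      intro u
      by_cases hu : u ∈ S
      · rw [Set.indicator_of_mem hu]
        have h4 : ‖hh u‖ₑ ≤ ENNReal.ofReal M := by
          have := hhM u
          rwa [Set.indicator_of_mem hu] at this
        calc ∫⁻ v : ℝ, ‖hh u‖ₑ * ‖hh v‖ₑ *
            ENNReal.ofReal ((‖1 + zr u (1 / t) + (starRingEnd ℂ) (zr v (1 / t))‖ ^ 2)⁻¹) ≤
            ∫⁻ v : ℝ, S.indicator (fun v => ENNReal.ofReal M * ENNReal.ofReal M *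
              ENNReal.ofReal (ker (Real.exp (-u) - Real.exp (-v)))) v := by
              refine lintegral_mono fun v => ?_
              by_cases hv : v ∈ S
              · rw [Set.indicator_of_mem hv]
                have h5 : ‖hh v‖ₑ ≤ ENNReal.ofReal M := by
                  have := hhM v
                  rwa [Set.indicator_of_mem hv] at this
                gcongr
                exact ker_bound ht
              · have h5 : hh v = 0 := by rw [hhh, Set.indicator_of_notMem hv]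
                rw [h5, enorm_zero, mul_zero, zero_mul]
                exact zero_le
          _ = ∫⁻ v in S, ENNReal.ofReal M * ENNReal.ofReal M *
              ENNReal.ofReal (ker (Real.exp (-u) - Real.exp (-v))) := lintegral_indicator hSm _
          _ = ENNReal.ofReal M * ENNReal.ofReal M *
              ∫⁻ v in S, ENNReal.ofReal (ker (Real.exp (-u) - Real.exp (-v))) := by
              rw [lintegral_const_mul]
              exact (ker_meas.comp (by fun_prop)).ennreal_ofReal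
          _ ≤ ENNReal.ofReal M * ENNReal.ofReal M * ENNReal.ofReal (C₂ * m * P⁻¹) := by
              gcongr
              exact hsm _
          _ = _ := by ring
      · have h5 : hh u = 0 := by rw [hhh, Set.indicator_of_notMem hu]
        rw [h5]
        simp
    calc _ ≤ ∫⁻ u : ℝ, S.indicator (fun _ => ENNReal.ofReal M * (ENNReal.ofReal M *
          ENNReal.ofReal (C₂ * m * P⁻¹))) u := lintegral_mono h3
      _ = _ := lintegral_indicator_const hSm _
  have hy2 : m ^ (2 - s - θ) ≤ y ^ (2 - s - θ) :=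
    Real.rpow_le_rpow_of_nonpos hy (hyz j₀) (by linarith)
  have hprod : 0 ≤ ∏ j, (z j) ^ 2 := Finset.prod_nonneg fun j _ => sq_nonneg _
  calc ∫⁻ a in Set.Icc A B, ‖Psi a w t σ S‖ₑ ^ 2
      ≤ ∫⁻ a in Set.Icc A B, ENNReal.ofReal c⁻¹ * (ENNReal.ofReal (a * Real.exp (-a)) *
          ‖∫ u, hh u * cexp (-(a : ℂ) * zr u (1 / t))‖ₑ ^ 2) := by
        refine setLIntegral_mono' measurableSet_Icc fun a ha => ?_
        rw [Psi_eq a σ hSm, ← mul_assoc, ← ENNReal.ofReal_mul (by positivity)]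
        refine le_mul_of_one_le_left (by positivity) ?_
        rw [ENNReal.one_le_ofReal]
        have ha0 : 0 < a := hA.trans_le ha.1
        have h4 : c ≤ a * Real.exp (-a) := by
          rw [hc]
          have h5 : Real.exp (-B) ≤ Real.exp (-a) := Real.exp_le_exp.2 (by linarith [ha.2])
          exact mul_le_mul ha.1 h5 (Real.exp_pos _).le ha0.le
        rw [inv_mul_eq_div, le_div_iff₀ hc0]
        linarith
    _ = ENNReal.ofReal c⁻¹ * ∫⁻ a in Set.Icc A B, (ENNReal.ofReal (a * Real.exp (-a)) *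
          ‖∫ u, hh u * cexp (-(a : ℂ) * zr u (1 / t))‖ₑ ^ 2) :=
        lintegral_const_mul' _ _ ENNReal.ofReal_ne_top
    _ ≤ ENNReal.ofReal c⁻¹ * ∫⁻ a in Set.Ioi (0 : ℝ), (ENNReal.ofReal (a * Real.exp (-a)) *
          ‖∫ u, hh u * cexp (-(a : ℂ) * zr u (1 / t))‖ₑ ^ 2) := by
        gcongr
        exact fun a ha => hA.trans_le ha.1
    _ ≤ ENNReal.ofReal c⁻¹ * (ENNReal.ofReal M * (ENNReal.ofReal M *
          ENNReal.ofReal (C₂ * m * P⁻¹)) * ENNReal.ofReal (C₁ * (∏ j, (z j) ^ 2) *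
          (P ^ (θ - 1) * m ^ (1 - s - θ)))) := by
        gcongr
        exact (hq.trans hform).trans (by gcongr)
    _ = ENNReal.ofReal (c⁻¹ * (M * (M * (C₂ * m * P⁻¹)) * (C₁ * (∏ j, (z j) ^ 2) *
          (P ^ (θ - 1) * m ^ (1 - s - θ))))) := by
        rw [← ENNReal.ofReal_mul hM0, ← ENNReal.ofReal_mul hM0, ← ENNReal.ofReal_mul (by positivity),
          ← ENNReal.ofReal_mul (by positivity)]
    _ = ENNReal.ofReal (c⁻¹ * C₂ * C₁ * (G ^ 2 * (∏ j, (z j) ^ 2)) *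
          (P ^ (2 * σ + θ - 2) * m ^ (2 - s - θ))) := by
        congr 1
        have e1 : P ^ (2 * σ + θ - 2) = P ^ σ * P ^ σ * P⁻¹ * P ^ (θ - 1) := by
          rw [← Real.rpow_neg_one P, ← Real.rpow_add hP0, ← Real.rpow_add hP0, ← Real.rpow_add hP0]
          congr 1
          ring
        have e2 : m ^ (2 - s - θ) = m * m ^ (1 - s - θ) := by
          have e3 : 2 - s - θ = 1 + (1 - s - θ) := by ring
          rw [e3, Real.rpow_add hm0, Real.rpow_one]
        rw [e1, e2, hM]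
        ring
    _ ≤ _ := by
        apply ENNReal.ofReal_le_ofReal
        gcongr

/-- the kernel on the ray, real form -/
lemma KK0_le (hw : ∀ j, 0 < w j) {t u y : ℝ} (hy : 0 < y)
    (hyx : y ≤ Real.exp (-u) * Real.sin (1 / t)) (hy1 : y ≤ 1) :
    ‖KK 0 w (zr u (1 / t))‖ ≤ (∏ j, (Real.sqrt (cf (w j)))⁻¹) *
        ∏ j, (max (nd (bt t * Real.exp (-u) * w j)) y)⁻¹ := by
  have h1 := Pool.Agent.H312.Sub.KK_ray_le1 (a := 0) hw hy hyx hy1
  rw [neg_zero, zero_mul, Real.exp_zero, ENNReal.ofReal_one, one_mul, ← ofReal_norm] at h1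
  have h0 : 0 ≤ (∏ j, (Real.sqrt (cf (w j)))⁻¹) *
        ∏ j, (max (nd (bt t * Real.exp (-u) * w j)) y)⁻¹ := by
    refine mul_nonneg (Finset.prod_nonneg fun j _ => by positivity)
      (Finset.prod_nonneg fun j _ => ?_)
    have : 0 < max (nd (bt t * Real.exp (-u) * w j)) y := hy.trans_le (le_max_right _ _)
    positivity
  exact (ENNReal.ofReal_le_ofReal_iff h0).1 h1

/-- a block -/
theorem shblock_le (hr : 0 < r) (hw : ∀ j, 0 < w j) {A B σ : ℝ} (hA : 0 < A) (hσ : 0 < σ)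
    {s θ : ℝ} (hs : 0 ≤ s) (hθ : 1 ≤ θ) (h2 : 2 ≤ s + θ) (h : Dio w s θ) {p₀ : ℝ} (hp₀ : 0 < p₀)
    {ε : ℝ} (hε : 0 < ε) :
    ∃ C : ℝ, 0 < C ∧ ∀ (t u₀ y : ℝ), 1 ≤ t → p₀ ≤ Real.exp (-u₀) → 0 < y → y ≤ 1 →
      (∀ u ∈ Set.Ioc u₀ (u₀ + 1), y ≤ Real.exp (-u) * Real.sin (1 / t)) →
      ∫⁻ a in Set.Icc A B, ‖Psi a w t σ (Set.Ioc u₀ (u₀ + 1))‖ₑ ^ 2 ≤
        ENNReal.ofReal (C * ((Real.exp (-u₀)) ^ (2 * σ + θ - 2) * y ^ (2 - s - θ - ε))) := by
  classical
  obtain ⟨C₀, hC₀, hpiece⟩ := piece_le hr hw (B := B) hA hσ hs hθ h2 h hp₀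
  have hq : 1 < (2 : ℝ) ^ ε := Real.one_lt_rpow (by norm_num) hε
  obtain ⟨C₁, hC₁, hgeom⟩ := pow_le_geom (2 * r) hq
  set K : ℝ := ∏ j, (Real.sqrt (cf (w j)))⁻¹ with hK
  have hK0 : 0 < K := Finset.prod_pos fun j _ => inv_pos.2 (Real.sqrt_pos.2 (cf_pos (hw j)))
  refine ⟨C₁ * (C₀ * (K ^ 2 * 4 ^ r)), by positivity, fun t u₀ y ht hu₀ hy hy1 hyu => ?_⟩
  have ht0 : 0 < t := by linarith
  have hη1 : 1 / t ≤ 1 := by rw [div_le_one ht0]; exact ht
  have hη0 : 0 < 1 / t := by positivity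
  have hy1' : 1 ≤ 1 / y := by rw [le_div_iff₀ hy]; linarith
  obtain ⟨L, hL1, hL2⟩ := exists_nat_pow_near hy1' (one_lt_two)
  set mx : Fin r → ℝ → ℝ := fun j u => max (nd (bt t * Real.exp (-u) * w j)) y with hmx
  have hmx0 : ∀ j u, 0 < mx j u := fun j u => hy.trans_le (le_max_right _ _)
  have hmxm : ∀ j, Measurable (mx j) := fun j => by
    refine Measurable.max (nd_meas.comp (by fun_prop)) measurable_const
  set z : (Fin r → Fin (L + 1)) → Fin r → ℝ := fun k j => (1 / 2) ^ (k j : ℕ) with hz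
  set S : (Fin r → Fin (L + 1)) → Set ℝ := fun k =>
    Set.Ioc u₀ (u₀ + 1) ∩ ⋂ j, {u : ℝ | (2 : ℝ) ^ (k j : ℕ) ≤ 1 / mx j u ∧
      1 / mx j u < 2 ^ ((k j : ℕ) + 1)} with hS
  set G : (Fin r → Fin (L + 1)) → ℝ := fun k => K * ∏ j, (2 : ℝ) ^ ((k j : ℕ) + 1) with hG
  have hG0 : ∀ k, 0 ≤ G k := fun k => by
    have : 0 ≤ ∏ j, (2 : ℝ) ^ ((k j : ℕ) + 1) := Finset.prod_nonneg fun j _ => by positivity
    positivity
  have hSm : ∀ k, MeasurableSet (S k) := by
    intro k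
    refine measurableSet_Ioc.inter (MeasurableSet.iInter fun j => ?_)
    have h1 : Measurable fun u => 1 / mx j u := measurable_const.div (hmxm j)
    exact (measurableSet_le measurable_const h1).inter (measurableSet_lt h1 measurable_const)
  have hzy : ∀ k j, y ≤ z k j := by
    intro k j
    have h1 : (2 : ℝ) ^ (k j : ℕ) ≤ 1 / y := by
      refine le_trans (pow_le_pow_right₀ (by norm_num) ?_) hL1
      have := (k j).isLt
      omega
    show y ≤ (1 / 2) ^ (k j : ℕ)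
    rw [one_div_pow, le_div_iff₀ (by positivity)]
    rw [le_div_iff₀ hy] at h1
    linarith
  have hz1 : ∀ k j, z k j ≤ 1 := fun k j => pow_le_one₀ (by norm_num) (by norm_num)
  have hcov : Set.Ioc u₀ (u₀ + 1) = ⋃ k ∈ (Finset.univ : Finset (Fin r → Fin (L + 1))), S k := by
    apply Set.Subset.antisymm
    · intro u hu
      have hk : ∀ j : Fin r, ∃ k : Fin (L + 1),
          (2 : ℝ) ^ (k : ℕ) ≤ 1 / mx j u ∧ 1 / mx j u < 2 ^ ((k : ℕ) + 1) := by
        intro j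
        have hm0 := hmx0 j u
        have hm1 : mx j u ≤ 1 := max_le ((nd_le_half _).trans (by norm_num)) hy1
        have h1 : 1 ≤ 1 / mx j u := by rw [le_div_iff₀ hm0]; linarith
        obtain ⟨k, hk1, hk2⟩ := exists_nat_pow_near h1 (one_lt_two)
        have h2 : 1 / mx j u ≤ 1 / y := one_div_le_one_div_of_le hy (le_max_right _ _)
        have h3 : (2 : ℝ) ^ k < 2 ^ (L + 1) := (hk1.trans h2).trans_lt hL2
        have h4 : k < L + 1 := (pow_lt_pow_iff_right₀ (by norm_num : (1 : ℝ) < 2)).1 h3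
        exact ⟨⟨k, h4⟩, hk1, hk2⟩
      choose k hk1 hk2 using hk
      simp only [Set.mem_iUnion]
      exact ⟨k, Finset.mem_univ k, hu, Set.mem_iInter.2 fun j => ⟨hk1 j, hk2 j⟩⟩
    · intro u hu
      simp only [Set.mem_iUnion] at hu
      obtain ⟨k, -, hk⟩ := hu
      exact hk.1
  have hdisj : Set.Pairwise (↑(Finset.univ : Finset (Fin r → Fin (L + 1))))
      (Function.onFun Disjoint S) := by
    intro k _ l _ hkl
    rw [Function.onFun, Set.disjoint_left]
    intro u hu hu'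
    apply hkl
    funext j
    have h1 := Set.mem_iInter.1 hu.2 j
    have h3 := Set.mem_iInter.1 hu'.2 j
    have e1 : (2 : ℝ) ^ (k j : ℕ) < 2 ^ ((l j : ℕ) + 1) := h1.1.trans_lt h3.2
    have e2 : (2 : ℝ) ^ (l j : ℕ) < 2 ^ ((k j : ℕ) + 1) := h3.1.trans_lt h1.2
    have e3 := (pow_lt_pow_iff_right₀ (by norm_num : (1 : ℝ) < 2)).1 e1
    have e4 := (pow_lt_pow_iff_right₀ (by norm_num : (1 : ℝ) < 2)).1 e2
    exact Fin.ext (by omega)
  have hfc : ∀ a : ℝ, Continuous fun u => ph t σ u * KK a w (zr u (1 / t)) := fun a =>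
    (ph_cont t σ).mul (KK_ray_cont a hw hη0 hη1)
  have hsum : ∀ a, Psi a w t σ (Set.Ioc u₀ (u₀ + 1)) =
      ∑ k : Fin r → Fin (L + 1), Psi a w t σ (S k) := by
    intro a
    have h1 : IntegrableOn (fun u => ph t σ u * KK a w (zr u (1 / t))) (Set.Ioc u₀ (u₀ + 1)) :=
      ((hfc a).integrableOn_Icc).mono_set Set.Ioc_subset_Icc_self
    have h3 := integral_biUnion_finset (μ := volume)
      (f := fun u => ph t σ u * KK a w (zr u (1 / t)))
      (Finset.univ : Finset (Fin r → Fin (L + 1))) (fun k _ => hSm k) hdisj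
      (fun k _ => h1.mono_set (by intro u hu; exact hu.1))
    rw [← hcov] at h3
    exact h3
  have hterm : ∀ k : Fin r → Fin (L + 1), ∫⁻ a in Set.Icc A B, ‖Psi a w t σ (S k)‖ₑ ^ 2 ≤
      ENNReal.ofReal (C₀ * (K ^ 2 * 4 ^ r) *
        ((Real.exp (-u₀)) ^ (2 * σ + θ - 2) * y ^ (2 - s - θ))) := by
    intro k
    have h1 := hpiece t u₀ y (G k) (z k) (S k) ht hu₀ hy hy1 (hzy k) (hz1 k) (hG0 k) (hSm k)
      (by
        intro u hu
        refine ⟨⟨hu.1.1.le, hu.1.2⟩, fun j => ?_⟩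
        have h3 := (Set.mem_iInter.1 hu.2 j).1
        have hm0 := hmx0 j u
        rw [le_div_iff₀ hm0] at h3
        refine (le_max_left _ y).trans ?_
        show mx j u ≤ (1 / 2) ^ (k j : ℕ)
        rw [one_div_pow, le_div_iff₀ (by positivity)]
        linarith)
      (by
        intro u hu
        refine (KK0_le hw hy (hyu u hu.1) hy1).trans ?_
        rw [hG]
        simp only
        refine mul_le_mul_of_nonneg_left ?_ hK0.le
        refine Finset.prod_le_prod (fun j _ => by have := hmx0 j u; positivity) (fun j _ => ?_)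
        have h3 := (Set.mem_iInter.1 hu.2 j).2
        rw [← one_div]
        exact h3.le)
    refine h1.trans (le_of_eq ?_)
    congr 1
    have h3 : (G k) ^ 2 * ∏ j, (z k j) ^ 2 = K ^ 2 * 4 ^ r := by
      have h4 : ∀ j : Fin r, ((2 : ℝ) ^ ((k j : ℕ) + 1)) ^ 2 * ((1 / 2) ^ (k j : ℕ)) ^ 2 = 4 := by
        intro j
        have h6 : (2 : ℝ) ^ ((k j : ℕ) + 1) * (1 / 2) ^ (k j : ℕ) = 2 := by
          rw [pow_succ, mul_right_comm, ← mul_pow]
          norm_num
        rw [← mul_pow, h6]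
        norm_num
      have h5 : (∏ j, (2 : ℝ) ^ ((k j : ℕ) + 1)) ^ 2 * ∏ j, ((1 / 2 : ℝ) ^ (k j : ℕ)) ^ 2 =
          4 ^ r := by
        rw [← Finset.prod_pow, ← Finset.prod_mul_distrib]
        simp only [h4]
        rw [Finset.prod_const, Finset.card_univ, Fintype.card_fin]
      calc (G k) ^ 2 * ∏ j, (z k j) ^ 2 = K ^ 2 * ((∏ j, (2 : ℝ) ^ ((k j : ℕ) + 1)) ^ 2 *
            ∏ j, ((1 / 2 : ℝ) ^ (k j : ℕ)) ^ 2) := by
            show (K * ∏ j, (2 : ℝ) ^ ((k j : ℕ) + 1)) ^ 2 * ∏ j, ((1 / 2 : ℝ) ^ (k j : ℕ)) ^ 2 = _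
            rw [mul_pow, mul_assoc]
        _ = _ := by rw [h5]
    rw [h3]
  have hcount : ((L : ℝ) + 1) ^ (2 * r) ≤ C₁ * y ^ (-ε) := by
    refine (hgeom L).trans ?_
    have h1 : ((2 : ℝ) ^ ε) ^ L = ((2 : ℝ) ^ L) ^ ε := by
      rw [← Real.rpow_natCast ((2 : ℝ) ^ ε), ← Real.rpow_natCast (2 : ℝ) L, ← Real.rpow_mul
        (by norm_num), ← Real.rpow_mul (by norm_num), mul_comm]
    have h2 : ((2 : ℝ) ^ L) ^ ε ≤ (1 / y) ^ ε := Real.rpow_le_rpow (by positivity) hL1 hε.le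
    have h3 : (1 / y) ^ ε = y ^ (-ε) := by
      rw [one_div, Real.inv_rpow hy.le, Real.rpow_neg hy.le]
    rw [h1, ← h3]
    gcongr
  set D : ℝ := C₀ * (K ^ 2 * 4 ^ r) * ((Real.exp (-u₀)) ^ (2 * σ + θ - 2) * y ^ (2 - s - θ))
    with hD
  have hD0 : 0 ≤ D := by positivity
  have hcard : ((Finset.univ : Finset (Fin r → Fin (L + 1))).card : ENNReal) =
      ENNReal.ofReal (((L : ℝ) + 1) ^ r) := by
    rw [Finset.card_univ, Fintype.card_fun, Fintype.card_fin, Fintype.card_fin]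
    have e1 : ((L : ℝ) + 1) ^ r = (((L + 1) ^ r : ℕ) : ℝ) := by push_cast; rfl
    rw [e1, ENNReal.ofReal_natCast]
  calc ∫⁻ a in Set.Icc A B, ‖Psi a w t σ (Set.Ioc u₀ (u₀ + 1))‖ₑ ^ 2
      ≤ ∫⁻ a in Set.Icc A B, ENNReal.ofReal (((L : ℝ) + 1) ^ r) *
          ∑ k : Fin r → Fin (L + 1), ‖Psi a w t σ (S k)‖ₑ ^ 2 := by
        refine lintegral_mono fun a => ?_
        rw [hsum a, ← hcard]
        exact enorm_sum_sq _ _
    _ = ENNReal.ofReal (((L : ℝ) + 1) ^ r) *
          ∑ k : Fin r → Fin (L + 1), ∫⁻ a in Set.Icc A B, ‖Psi a w t σ (S k)‖ₑ ^ 2 := by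
        rw [lintegral_const_mul' _ _ ENNReal.ofReal_ne_top, lintegral_finsetSum]
        intro k _
        exact ((Psi_meas hw ht σ (hSm k)).enorm).pow_const 2
    _ ≤ ENNReal.ofReal (((L : ℝ) + 1) ^ r) *
          ∑ _k : Fin r → Fin (L + 1), ENNReal.ofReal D := by
        gcongr with k _
        exact hterm k
    _ = ENNReal.ofReal (((L : ℝ) + 1) ^ (2 * r) * D) := by
        rw [Finset.sum_const, nsmul_eq_mul, hcard, ← mul_assoc, ← ENNReal.ofReal_mul (by positivity),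
          ← ENNReal.ofReal_mul (by positivity)]
        congr 2
        ring
    _ ≤ _ := by
        apply ENNReal.ofReal_le_ofReal
        have e1 : y ^ (2 - s - θ - ε) = y ^ (-ε) * y ^ (2 - s - θ) := by
          rw [← Real.rpow_add hy]; congr 1; ring
        rw [e1]
        calc ((L : ℝ) + 1) ^ (2 * r) * D ≤ (C₁ * y ^ (-ε)) * D := by gcongr
          _ = _ := by rw [hD]; ring

end Pool.Agent.H312.Sh
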