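import Pool.Agent.H312.Sh.Grow

set_option autoImplicit false

/-!
# A local bound in the strip, uniformly in the shift
-/

namespace Pool.Agent.H312.Sh

open Finset Filter Topology MeasureTheory Complex Set Asymptotics
open Pool.Agent.H131R5.BZ Pool.Agent.Y930.Bz Pool.Agent.Y616.BM

variable {r : ℕ} {w : Fin r → ℝ}

/-- the square of the zeta-function is bounded by a local integral on a line further to the left,
uniformly in the shift -/
theorem cauchy_u (hw : ∀ j, 0 < w j) {A₀ B₀ α κ σ₁ : ℝ} (hA₀ : 0 < A₀) (hAB₀ : A₀ ≤ B₀)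
    (hα : 0 < α) (hκ : 0 < κ) (hκ1 : κ ≤ 1) (hασ : α ≤ σ₁ + 1) :
    ∃ C : ℝ, 0 ≤ C ∧ ∀ a ∈ Set.Icc A₀ B₀, ∀ c : ℕ → ℂ, Tay a w c →
      ∀ σ t : ℝ, α + κ ≤ σ → σ ≤ σ₁ → 2 ≤ t →
      ‖FF a w c ((σ : ℂ) + t * I)‖ ^ 2 ≤ C * (1 + ∫ y in (1 : ℝ)..(2 * t + 12),
        ‖FF a w c ((α : ℂ) + y * I)‖ ^ 2 * Real.exp (-(y - t) ^ 2)) := by
  set β : ℝ := max σ₁ r + 1 with hβ
  have hβr : (r : ℝ) < β := by
    have := le_max_right σ₁ (r : ℝ)
    linarith
  have hβσ : σ₁ + 1 ≤ β := by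
    have := le_max_left σ₁ (r : ℝ)
    linarith
  obtain ⟨C₁, hC₁, hg'⟩ := FF_growth_u hw hA₀ hAB₀ (α := α) (β := β) hα (by linarith)
  obtain ⟨A, hA, hAb'⟩ := FF_line_u hw (A := A₀) (B := B₀) hA₀ hβr
  set L : ℝ := |β| + |α| with hL
  have hL0 : 0 ≤ L := by positivity
  set E : ℝ := Real.exp (L ^ 2) with hE
  have hE0 : 0 < E := Real.exp_pos _
  set D : ℝ := L * (C₁ ^ 2 * Real.exp 10 * E) + L * (C₁ ^ 2 * E) + A ^ 2 * E * Real.sqrt Real.pi
    with hD
  have hD0 : 0 ≤ D := by positivity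
  refine ⟨D + E / κ, by positivity, fun a ha' c hc σ t hσ hσ1 ht => ?_⟩
  have ha : 0 < a := hA₀.trans_le ha'.1
  have hg := hg' a ha' c hc
  have hAb := hAb' a ha' c hc
  have hαβ : α ≤ β := by linarith
  have hLd : β - α ≤ L := by
    have h1 := le_abs_self β
    have h2 := neg_abs_le α
    linarith
  set Y : ℝ := 2 * t + 12 with hY
  set s : ℂ := (σ : ℂ) + t * I with hs
  have hsre : s.re = σ := by simp [hs]
  have hsim : s.im = t := by simp [hs]
  set g : ℂ → ℂ := fun z => FF a w c z ^ 2 * cexp ((z - s) ^ 2) with hgdef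
  have hmemOm : ∀ z : ℂ, 1 ≤ z.im → z ∈ Om r := by
    intro z hz k _ _ h
    have := congrArg Complex.im h
    simp at this
    linarith
  have hFd : ∀ z : ℂ, 1 ≤ z.im → DifferentiableAt ℂ (FF a w c) z := fun z hz =>
    FF_diff ha hw hc (hmemOm z hz)
  have hgd : DifferentiableOn ℂ g (uIcc α β ×ℂ uIcc 1 Y) := by
    intro z hz
    have h1 : 1 ≤ z.im := by
      have := hz.2
      rw [Set.mem_preimage, Set.uIcc_of_le (by linarith)] at this
      exact this.1
    exact (((hFd z h1).pow 2).mul (by fun_prop)).differentiableWithinAt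
  have hcau := Pool.Agent.H343N.rect_cauchy' g α β 1 Y hgd s (by rw [hsre]; linarith)
    (by rw [hsre]; linarith) (by rw [hsim]; linarith) (by rw [hsim]; linarith)
  have hgs : g s = FF a w c s ^ 2 := by simp [hgdef]
  -- norms of the four sides
  have hgn : ∀ x y : ℝ, ‖g ((x : ℂ) + y * I)‖ =
      ‖FF a w c ((x : ℂ) + y * I)‖ ^ 2 * Real.exp ((x - σ) ^ 2 - (y - t) ^ 2) := by
    intro x y
    simp only [hgdef]
    rw [norm_mul, norm_pow, hs, gauss_norm]
  have hxσ : ∀ x : ℝ, α ≤ x → x ≤ β → (x - σ) ^ 2 ≤ L ^ 2 := by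
    intro x h1 h2
    apply sq_le_sq'
    · linarith
    · linarith
  have hbot : ‖∫ x in α..β, g ((x : ℂ) + (1 : ℝ) * I) / ((x : ℂ) + (1 : ℝ) * I - s)‖ ≤
      L * (C₁ ^ 2 * Real.exp 10 * E) := by
    have h1 : ∀ x ∈ uIoc α β, ‖g ((x : ℂ) + (1 : ℝ) * I) / ((x : ℂ) + (1 : ℝ) * I - s)‖ ≤
        C₁ ^ 2 * Real.exp 10 * E := by
      intro x hx
      rw [uIoc_of_le hαβ] at hx
      rw [norm_div, hgn]
      have h2 : 1 ≤ ‖(x : ℂ) + (1 : ℝ) * I - s‖ := by
        have h3 := Complex.abs_im_le_norm ((x : ℂ) + (1 : ℝ) * I - s)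
        have h4 : ((x : ℂ) + (1 : ℝ) * I - s).im = 1 - t := by simp [hsim]
        rw [h4, abs_of_nonpos (by linarith)] at h3
        linarith
      have h3 := hg ((x : ℂ) + (1 : ℝ) * I) (by simpa using hx.1.le) (by simpa using hx.2)
        (by simp)
      have h4 : ((x : ℂ) + (1 : ℝ) * I).im = 1 := by simp
      rw [h4] at h3
      have h5 : Real.exp ((x - σ) ^ 2 - (1 - t) ^ 2) ≤ E := by
        apply Real.exp_le_exp.2
        have := hxσ x hx.1.le hx.2
        nlinarith [sq_nonneg (1 - t)]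
      calc _ ≤ ‖FF a w c ((x : ℂ) + (1 : ℝ) * I)‖ ^ 2 * Real.exp ((x - σ) ^ 2 - (1 - t) ^ 2) :=
            div_le_self (by positivity) h2
        _ ≤ (C₁ * Real.exp (5 * 1)) ^ 2 * E := by gcongr
        _ = _ := by
            rw [mul_pow, ← Real.exp_nat_mul]
            norm_num
    have h2 := intervalIntegral.norm_integral_le_of_norm_le_const h1
    rw [abs_of_nonneg (by linarith)] at h2
    calc _ ≤ _ := h2
      _ = (β - α) * (C₁ ^ 2 * Real.exp 10 * E) := by ring
      _ ≤ _ := by gcongr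
  have htop : ‖∫ x in α..β, g ((x : ℂ) + Y * I) / ((x : ℂ) + Y * I - s)‖ ≤
      L * (C₁ ^ 2 * E) := by
    have h1 : ∀ x ∈ uIoc α β, ‖g ((x : ℂ) + Y * I) / ((x : ℂ) + Y * I - s)‖ ≤ C₁ ^ 2 * E := by
      intro x hx
      rw [uIoc_of_le hαβ] at hx
      rw [norm_div, hgn]
      have h2 : 1 ≤ ‖(x : ℂ) + Y * I - s‖ := by
        have h3 := Complex.abs_im_le_norm ((x : ℂ) + Y * I - s)
        have h4 : ((x : ℂ) + Y * I - s).im = Y - t := by simp [hsim]
        rw [h4, abs_of_nonneg (by linarith)] at h3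
        linarith
      have h3 := hg ((x : ℂ) + Y * I) (by simpa using hx.1.le) (by simpa using hx.2)
        (by simp; linarith)
      have h4 : ((x : ℂ) + Y * I).im = Y := by simp
      rw [h4] at h3
      have h5 : Real.exp (10 * Y) * Real.exp ((x - σ) ^ 2 - (Y - t) ^ 2) ≤ E := by
        rw [← Real.exp_add]
        apply Real.exp_le_exp.2
        have := hxσ x hx.1.le hx.2
        rw [hY]
        nlinarith
      calc _ ≤ ‖FF a w c ((x : ℂ) + Y * I)‖ ^ 2 * Real.exp ((x - σ) ^ 2 - (Y - t) ^ 2) :=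
            div_le_self (by positivity) h2
        _ ≤ (C₁ * Real.exp (5 * Y)) ^ 2 * Real.exp ((x - σ) ^ 2 - (Y - t) ^ 2) := by gcongr
        _ = C₁ ^ 2 * (Real.exp (10 * Y) * Real.exp ((x - σ) ^ 2 - (Y - t) ^ 2)) := by
            rw [mul_pow, ← Real.exp_nat_mul]
            have : ((2 : ℕ) : ℝ) * (5 * Y) = 10 * Y := by push_cast; ring
            rw [this]
            ring
        _ ≤ _ := by gcongr
    have h2 := intervalIntegral.norm_integral_le_of_norm_le_const h1
    rw [abs_of_nonneg (by linarith)] at h2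
    calc _ ≤ _ := h2
      _ = (β - α) * (C₁ ^ 2 * E) := by ring
      _ ≤ _ := by gcongr
  have hgint : Integrable fun y : ℝ => Real.exp (-(y - t) ^ 2) := by
    have h1 : Integrable fun y : ℝ => Real.exp (-1 * y ^ 2) := integrable_exp_neg_mul_sq one_pos
    have h2 := h1.comp_sub_right t
    simpa only [neg_one_mul] using h2
  have hright : ‖∫ y in (1 : ℝ)..Y, g ((β : ℂ) + y * I) / ((β : ℂ) + y * I - s)‖ ≤
      A ^ 2 * E * Real.sqrt Real.pi := by
    have h1 : ∀ y : ℝ, ‖g ((β : ℂ) + y * I) / ((β : ℂ) + y * I - s)‖ ≤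
        A ^ 2 * E * Real.exp (-(y - t) ^ 2) := by
      intro y
      rw [norm_div, hgn]
      have h2 : 1 ≤ ‖(β : ℂ) + y * I - s‖ := by
        have h3 := Complex.abs_re_le_norm ((β : ℂ) + y * I - s)
        have h4 : ((β : ℂ) + y * I - s).re = β - σ := by simp [hsre]
        rw [h4, abs_of_nonneg (by linarith)] at h3
        linarith
      have h5 : Real.exp ((β - σ) ^ 2 - (y - t) ^ 2) ≤ E * Real.exp (-(y - t) ^ 2) := by
        rw [hE, ← Real.exp_add]
        apply Real.exp_le_exp.2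
        have := hxσ β hαβ le_rfl
        linarith
      calc _ ≤ ‖FF a w c ((β : ℂ) + y * I)‖ ^ 2 * Real.exp ((β - σ) ^ 2 - (y - t) ^ 2) :=
            div_le_self (by positivity) h2
        _ ≤ A ^ 2 * (E * Real.exp (-(y - t) ^ 2)) := by
            have := hAb y
            gcongr
        _ = _ := by ring
    have h2 : ‖∫ y in (1 : ℝ)..Y, g ((β : ℂ) + y * I) / ((β : ℂ) + y * I - s)‖ ≤
        ∫ y in (1 : ℝ)..Y, A ^ 2 * E * Real.exp (-(y - t) ^ 2) :=
      intervalIntegral.norm_integral_le_of_norm_le (by linarith)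
        (ae_of_all _ fun y _ => h1 y) ((hgint.const_mul _).intervalIntegrable)
    refine h2.trans ?_
    rw [intervalIntegral.integral_const_mul]
    refine mul_le_mul_of_nonneg_left ?_ (by positivity)
    rw [intervalIntegral.integral_of_le (by linarith)]
    calc _ ≤ ∫ y : ℝ, Real.exp (-(y - t) ^ 2) :=
          setIntegral_le_integral hgint (ae_of_all _ fun y => (Real.exp_pos _).le)
      _ = ∫ y : ℝ, Real.exp (-y ^ 2) :=
          integral_sub_right_eq_self (fun y : ℝ => Real.exp (-y ^ 2)) t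
      _ = Real.sqrt Real.pi := by
          have := integral_gaussian 1
          simpa using this
      _ ≤ _ := le_rfl
  have hαcont : ContinuousOn (fun y : ℝ => ‖FF a w c ((α : ℂ) + y * I)‖ ^ 2 *
      Real.exp (-(y - t) ^ 2)) (uIcc 1 Y) := by
    intro y hy
    rw [Set.uIcc_of_le (by linarith)] at hy
    have h1 : ContinuousAt (fun y : ℝ => FF a w c ((α : ℂ) + y * I)) y :=
      ContinuousAt.comp (g := FF a w c) (f := fun y : ℝ => (α : ℂ) + y * I)
        (hFd _ (by simpa using hy.1)).continuousAt (by fun_prop)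
    exact ((h1.norm.pow 2).mul (by fun_prop)).continuousWithinAt
  have hleft : ‖∫ y in (1 : ℝ)..Y, g ((α : ℂ) + y * I) / ((α : ℂ) + y * I - s)‖ ≤
      E / κ * ∫ y in (1 : ℝ)..Y, ‖FF a w c ((α : ℂ) + y * I)‖ ^ 2 * Real.exp (-(y - t) ^ 2) := by
    have h1 : ∀ y : ℝ, ‖g ((α : ℂ) + y * I) / ((α : ℂ) + y * I - s)‖ ≤
        E / κ * (‖FF a w c ((α : ℂ) + y * I)‖ ^ 2 * Real.exp (-(y - t) ^ 2)) := by
      intro y
      rw [norm_div, hgn]
      have h2 : κ ≤ ‖(α : ℂ) + y * I - s‖ := by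
        have h3 := Complex.abs_re_le_norm ((α : ℂ) + y * I - s)
        have h4 : ((α : ℂ) + y * I - s).re = α - σ := by simp [hsre]
        rw [h4, abs_of_nonpos (by linarith)] at h3
        linarith
      have h5 : Real.exp ((α - σ) ^ 2 - (y - t) ^ 2) ≤ E * Real.exp (-(y - t) ^ 2) := by
        rw [hE, ← Real.exp_add]
        apply Real.exp_le_exp.2
        have := hxσ α le_rfl hαβ
        linarith
      calc _ ≤ ‖FF a w c ((α : ℂ) + y * I)‖ ^ 2 * (E * Real.exp (-(y - t) ^ 2)) / κ := by gcongr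
        _ = _ := by ring
    have h2 := intervalIntegral.norm_integral_le_of_norm_le (show (1 : ℝ) ≤ Y by linarith)
      (ae_of_all _ fun y _ => h1 y) ((ContinuousOn.intervalIntegrable (μ := volume) hαcont).const_mul (E / κ))
    refine h2.trans (le_of_eq ?_)
    rw [intervalIntegral.integral_const_mul]
  set J : ℝ := ∫ y in (1 : ℝ)..Y, ‖FF a w c ((α : ℂ) + y * I)‖ ^ 2 * Real.exp (-(y - t) ^ 2)
    with hJ
  have hJ0 : 0 ≤ J := intervalIntegral.integral_nonneg (by linarith) fun y _ => by positivity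
  have hfin : 2 * Real.pi * ‖FF a w c s‖ ^ 2 ≤ D + E / κ * J := by
    have h1 := congrArg norm hcau
    rw [hgs, norm_mul, norm_mul, norm_mul, Complex.norm_I, norm_pow, Complex.norm_real,
      Real.norm_of_nonneg Real.pi_pos.le] at h1
    have h2 : ‖(2 : ℂ)‖ = 2 := by simp
    rw [h2, mul_one] at h1
    rw [← h1]
    refine (norm_sub_le _ _).trans ?_
    refine (add_le_add (norm_add_le _ _) le_rfl).trans ?_
    refine (add_le_add (add_le_add (norm_sub_le _ _) le_rfl) le_rfl).trans ?_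
    rw [norm_mul, norm_mul, Complex.norm_I, one_mul, one_mul]
    have := hbot
    have := htop
    have := hright
    have := hleft
    rw [hD]
    linarith
  have hpi : 1 ≤ 2 * Real.pi := by linarith [Real.pi_gt_three]
  have h3 : ‖FF a w c s‖ ^ 2 ≤ D + E / κ * J := by
    have : 0 ≤ ‖FF a w c s‖ ^ 2 := by positivity
    nlinarith
  have h4 : 0 ≤ E / κ := by positivity
  calc _ ≤ _ := h3
    _ ≤ (D + E / κ) * (1 + J) := by nlinarith [mul_nonneg hD0 hJ0]

end Pool.Agent.H312.Sh
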