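import Pool.Agent.H312.Sh.Rep

set_option autoImplicit false

/-!
# Joint measurability in the shift and the height
-/

namespace Pool.Agent.H312.Sh

open Finset Filter Topology MeasureTheory Complex Set
open Pool.Agent.H131R5.BZ Pool.Agent.Y930.Bz Pool.Agent.Y616.BM

variable {r : ℕ} {w : Fin r → ℝ}

theorem FF_meas (hw : ∀ j, 0 < w j) {A B α : ℝ} (hA : 0 < A) (hAB : A ≤ B) (hα : 0 < α) :
    ∃ G : ℝ × ℝ → ℂ, Measurable G ∧ ∀ a ∈ Set.Icc A B, ∀ c : ℕ → ℂ, Tay a w c → ∀ y : ℝ, 0 < y →
      FF a w c ((α : ℂ) + y * I) = G (a, y) := by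
  obtain ⟨b, ρ, C₀, hρ, hρ1, -, hbc, -, h0⟩ := exists_near_unif hw hAB
  refine ⟨fun p => (Gamma ((α : ℂ) + p.2 * I))⁻¹ *
    mellin (fun t : ℝ => Kt p.1 w (b p.1) t) ((α : ℂ) + p.2 * I) +
    Rt r (b p.1) ((α : ℂ) + p.2 * I), ?_, ?_⟩
  · have hbm : ∀ k, Measurable fun p : ℝ × ℝ => b p.1 k := fun k =>
      (hbc k).measurable.comp measurable_fst
    have hs : Measurable fun p : ℝ × ℝ => (α : ℂ) + p.2 * I := by fun_prop
    refine Measurable.add (Measurable.mul ?_ ?_) ?_
    · exact Complex.differentiable_one_div_Gamma.continuous.measurable.comp hs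
    · unfold mellin
      have hf : Measurable (Function.uncurry fun (p : ℝ × ℝ) (t : ℝ) =>
          (t : ℂ) ^ ((α : ℂ) + p.2 * I - 1) • Kt p.1 w (b p.1) t) := by
        unfold Function.uncurry
        have m1 : Measurable fun q : (ℝ × ℝ) × ℝ => ((q.2 : ℝ) : ℂ) := by fun_prop
        have m2 : Measurable fun q : (ℝ × ℝ) × ℝ => (α : ℂ) + q.1.2 * I - 1 := by fun_prop
        refine Measurable.smul (m1.pow m2) ?_
        unfold Kt
        refine Measurable.sub ?_ ?_
        · unfold KK
          refine Measurable.mul (by fun_prop) ?_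
          refine Finset.measurable_prod _ fun j _ => ?_
          exact Measurable.inv (by fun_prop)
        · unfold Pol
          refine Measurable.mul (by fun_prop) ?_
          refine Finset.measurable_sum _ fun k _ => ?_
          refine Measurable.mul ((hbm k).comp measurable_fst) ?_
          exact Measurable.inv (by fun_prop)
      exact (StronglyMeasurable.integral_prod_right (ν := volume.restrict (Ioi 0))
        hf.stronglyMeasurable).measurable
    · unfold Rt
      refine Finset.measurable_sum _ fun k _ => ?_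
      refine Measurable.mul (hbm k) ?_
      refine Measurable.inv ?_
      refine Finset.measurable_prod _ fun j _ => ?_
      fun_prop
  · intro a ha c hc y hy
    exact FF_formula (hA.trans_le ha.1) hw hc hρ hρ1 (h0 a ha) (by simpa using hα)
      (by simpa using hy)

end Pool.Agent.H312.Sh
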