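import Pool.Agent.H312.Sh.Blk

set_option autoImplicit false

/-!
# The mean square over the shift at a fixed height
-/

namespace Pool.Agent.H312.Sh

open Finset Filter Topology MeasureTheory Complex Set
open Pool.Agent.H131R5.BZ Pool.Agent.Y930.Bz Pool.Agent.Y616.BM
open Pool.Agent.H312.Barnes (nd nd_nonneg Dio)

variable {r : ℕ} {w : Fin r → ℝ}

lemma Psi_split (hw : ∀ j, 0 < w j) {t : ℝ} (ht : 1 ≤ t) (a σ α : ℝ) (N : ℕ) :
    Psi a w t σ (Set.Icc α (α + N)) =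
      ∑ k ∈ range N, Psi a w t σ (Set.Ioc (α + k) (α + k + 1)) := by
  have ht0 : 0 < t := by linarith
  have hη1 : 1 / t ≤ 1 := by rw [div_le_one ht0]; exact ht
  have hη0 : 0 < 1 / t := by positivity
  have hc : Continuous fun u => ph t σ u * KK a w (zr u (1 / t)) :=
    (ph_cont t σ).mul (KK_ray_cont a hw hη0 hη1)
  have h1 := intervalIntegral.sum_integral_adjacent_intervals (μ := volume)
    (f := fun u => ph t σ u * KK a w (zr u (1 / t))) (a := fun k : ℕ => α + k) (n := N)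
    (fun k _ => hc.intervalIntegrable _ _)
  unfold Psi
  rw [integral_Icc_eq_integral_Ioc, ← intervalIntegral.integral_of_le (by
    have : (0 : ℝ) ≤ N := Nat.cast_nonneg N
    linarith)]
  have h2 : ∫ x in (α + ((0 : ℕ) : ℝ))..(α + (N : ℝ)), ph t σ x * KK a w (zr x (1 / t)) =
      ∫ x in α..(α + (N : ℝ)), ph t σ x * KK a w (zr x (1 / t)) := by
    rw [Nat.cast_zero, add_zero]
  rw [← h2, ← h1]
  refine Finset.sum_congr rfl fun k _ => ?_
  rw [intervalIntegral.integral_of_le (by push_cast; linarith)]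
  congr 2
  push_cast
  ring_nf

theorem shift_ms (hr : 0 < r) (hw : ∀ j, 0 < w j) {A B σ θ : ℝ} (hA : 0 < A) (hAB : A ≤ B)
    (hσ : 1 / 2 < σ) (hθ : 1 ≤ θ) (h : Dio w (2 * σ) θ) {ε : ℝ} (hε : 0 < ε) :
    ∃ C : ℝ, 0 < C ∧ ∀ c : ℝ → ℕ → ℂ, (∀ a ∈ Set.Icc A B, Tay a w (c a)) → ∀ t : ℝ, 1 ≤ t →
      ∫⁻ a in Set.Icc A B, ‖FF a w (c a) ((σ : ℂ) + t * I)‖ₑ ^ 2 ≤
        ENNReal.ofReal (C * t ^ (θ - 1 + ε)) := by
  set q : ℝ := 2 * σ + θ - 2 with hq
  have hq0 : 0 < q := by linarith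
  set δ : ℝ := ε / (2 * q) with hδ
  have hδ0 : 0 < δ := by positivity
  have hδq : δ * q = ε / 2 := by rw [hδ]; field_simp
  set ε₁ : ℝ := ε / 6 with hε₁
  have hε₁0 : 0 < ε₁ := by positivity
  obtain ⟨C₁, U, hC₁, hU, hrep⟩ := rep hw hA hAB hσ hδ0
  obtain ⟨C₂, hC₂, hblk⟩ := shblock_le hr hw (B := B) (σ := σ) hA (by linarith)
    (by linarith : 0 ≤ 2 * σ) hθ (by linarith) h (p₀ := Real.exp (-U)) (Real.exp_pos _) hε₁0
  set C₃ : ℝ := (2 * Real.exp 1) ^ (q + ε₁) * Real.exp (ε₁ * U) with hC₃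
  have hC₃0 : 0 < C₃ := by positivity
  set C₄ : ℝ := U + 1 + (1 + δ) / ε₁ with hC₄
  have hC₄0 : 0 < C₄ := by positivity
  refine ⟨2 * C₁ ^ 2 * (B - A) + 2 * C₁ ^ 2 * (C₄ ^ 2 * (C₂ * C₃)) + 1, by
    have : 0 ≤ B - A := by linarith
    positivity, fun c hc t ht => ?_⟩
  have ht0 : 0 < t := by linarith
  have hlog : 0 ≤ Real.log t := Real.log_nonneg ht
  have hη1 : 1 / t ≤ 1 := by rw [div_le_one ht0]; exact ht
  have hη0 : 0 < 1 / t := by positivity
  have hsin := sin_ge hη0.le hη1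
  set N : ℕ := ⌈U + (1 + δ) * Real.log t⌉₊ with hN
  have hN1 : U + (1 + δ) * Real.log t ≤ N := Nat.le_ceil _
  have hN2 : (N : ℝ) < U + (1 + δ) * Real.log t + 1 := Nat.ceil_lt_add_one (by positivity)
  set V : ℝ := N - U with hV
  have hVt : t ^ (1 + δ) ≤ Real.exp V := by
    rw [Real.rpow_def_of_pos ht0]
    apply Real.exp_le_exp.2
    rw [hV]
    linarith
  have hNC : (N : ℝ) ≤ C₄ * t ^ ε₁ := by
    have h1 : Real.log t ≤ t ^ ε₁ / ε₁ := Real.log_le_rpow_div ht0.le hε₁0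
    have h2 : 1 ≤ t ^ ε₁ := Real.one_le_rpow ht hε₁0.le
    calc (N : ℝ) ≤ (U + 1) * 1 + (1 + δ) * Real.log t := by linarith
      _ ≤ (U + 1) * t ^ ε₁ + (1 + δ) * (t ^ ε₁ / ε₁) := by gcongr
      _ = _ := by rw [hC₄]; ring
  set D : ℝ := C₂ * (C₃ * t ^ ((1 + δ) * q + ε₁)) with hD
  have hD0 : 0 ≤ D := by positivity
  -- the blocks
  have hblock : ∀ k ∈ range N, ∫⁻ a in Set.Icc A B,
      ‖Psi a w t σ (Set.Ioc (-V + k) (-V + k + 1))‖ₑ ^ 2 ≤ ENNReal.ofReal D := by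
    intro k hk
    have hkN : (k : ℝ) + 1 ≤ N := by
      have := Finset.mem_range.1 hk
      exact_mod_cast this
    set u₀ : ℝ := -V + k with hu₀
    set P : ℝ := Real.exp (-u₀) with hP
    have hP0 : 0 < P := Real.exp_pos _
    have hPU : Real.exp (-U) ≤ P := by
      apply Real.exp_le_exp.2
      rw [hu₀, hV]
      linarith
    have hPt : P ≤ Real.exp 1 * t ^ (1 + δ) := by
      rw [hP, Real.rpow_def_of_pos ht0, ← Real.exp_add]
      apply Real.exp_le_exp.2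
      have : (0 : ℝ) ≤ k := Nat.cast_nonneg k
      rw [hu₀, hV]
      linarith
    set y : ℝ := min 1 (P / (2 * Real.exp 1 * t)) with hy
    have hy0 : 0 < y := lt_min one_pos (by positivity)
    have hyu : ∀ u ∈ Set.Ioc u₀ (u₀ + 1), y ≤ Real.exp (-u) * Real.sin (1 / t) := by
      intro u hu
      refine (min_le_right _ _).trans ?_
      have h1 : P / Real.exp 1 ≤ Real.exp (-u) := by
        rw [hP, ← Real.exp_sub]
        apply Real.exp_le_exp.2
        linarith [hu.2]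
      calc P / (2 * Real.exp 1 * t) = P / Real.exp 1 * (1 / t / 2) := by field_simp
        _ ≤ Real.exp (-u) * Real.sin (1 / t) := by gcongr
    refine (hblk t u₀ y ht hPU hy0 (min_le_left _ _) hyu).trans ?_
    apply ENNReal.ofReal_le_ofReal
    rw [hD]
    refine mul_le_mul_of_nonneg_left ?_ hC₂.le
    have e1 : 2 - 2 * σ - θ - ε₁ = -(q + ε₁) := by rw [hq]; ring
    rw [e1, ← hq]
    have he1 : (1 : ℝ) ≤ Real.exp 1 := Real.one_le_exp (by norm_num)
    have hexpU : 1 ≤ Real.exp (ε₁ * U) := Real.one_le_exp (by positivity)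
    rcases le_total 1 (P / (2 * Real.exp 1 * t)) with hc1 | hc1
    · have hy1 : y = 1 := min_eq_left hc1
      rw [hy1, Real.one_rpow, mul_one]
      calc P ^ q ≤ (Real.exp 1 * t ^ (1 + δ)) ^ q := Real.rpow_le_rpow hP0.le hPt hq0.le
        _ = Real.exp 1 ^ q * t ^ ((1 + δ) * q) := by
            rw [Real.mul_rpow (by positivity) (by positivity), ← Real.rpow_mul ht0.le]
        _ ≤ (2 * Real.exp 1) ^ (q + ε₁) * Real.exp (ε₁ * U) * t ^ ((1 + δ) * q + ε₁) := by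
            have h1 : Real.exp 1 ^ q ≤ (2 * Real.exp 1) ^ (q + ε₁) := by
              calc Real.exp 1 ^ q ≤ (2 * Real.exp 1) ^ q :=
                    Real.rpow_le_rpow (by positivity) (by linarith) hq0.le
                _ ≤ _ := Real.rpow_le_rpow_of_exponent_le (by linarith) (by linarith)
            have h2 : t ^ ((1 + δ) * q) ≤ t ^ ((1 + δ) * q + ε₁) :=
              Real.rpow_le_rpow_of_exponent_le ht (by linarith)
            calc Real.exp 1 ^ q * t ^ ((1 + δ) * q) ≤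
                (2 * Real.exp 1) ^ (q + ε₁) * t ^ ((1 + δ) * q + ε₁) := by gcongr
              _ = (2 * Real.exp 1) ^ (q + ε₁) * 1 * t ^ ((1 + δ) * q + ε₁) := by ring
              _ ≤ _ := by gcongr
    · have hy1 : y = P / (2 * Real.exp 1 * t) := min_eq_right hc1
      have h1 : P ^ q * y ^ (-(q + ε₁)) = (2 * Real.exp 1) ^ (q + ε₁) * t ^ (q + ε₁) *
          P ^ (-ε₁) := by
        rw [hy1, Real.div_rpow hP0.le (by positivity), Real.rpow_neg (by positivity : (0 : ℝ) ≤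
          2 * Real.exp 1 * t), div_inv_eq_mul, Real.mul_rpow (by positivity) ht0.le,
          ← mul_assoc, ← Real.rpow_add hP0]
        have e2 : q + -(q + ε₁) = -ε₁ := by ring
        rw [e2]
        ring
      have h2 : P ^ (-ε₁) ≤ Real.exp (ε₁ * U) := by
        rw [hP, ← Real.exp_mul]
        apply Real.exp_le_exp.2
        have h3 : -U ≤ -u₀ := Real.exp_le_exp.1 hPU
        nlinarith
      have h3 : t ^ (q + ε₁) ≤ t ^ ((1 + δ) * q + ε₁) :=
        Real.rpow_le_rpow_of_exponent_le ht (by nlinarith)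
      rw [h1]
      calc (2 * Real.exp 1) ^ (q + ε₁) * t ^ (q + ε₁) * P ^ (-ε₁) ≤
          (2 * Real.exp 1) ^ (q + ε₁) * t ^ ((1 + δ) * q + ε₁) * Real.exp (ε₁ * U) := by gcongr
        _ = _ := by rw [hC₃]; ring
  -- the sum
  have hPsi : ∀ a, Psi a w t σ (Set.Icc (-V) U) =
      ∑ k ∈ range N, Psi a w t σ (Set.Ioc (-V + k) (-V + k + 1)) := by
    intro a
    rw [← Psi_split hw ht]
    congr 2
    rw [hV]
    ring
  have hbm : ∀ k : ℕ, Measurable fun a : ℝ =>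
      ‖Psi a w t σ (Set.Ioc (-V + k) (-V + k + 1))‖ₑ ^ 2 := fun k =>
    ((Psi_meas hw ht σ measurableSet_Ioc).enorm).pow_const 2
  have hPm : Measurable fun a : ℝ => ‖Psi a w t σ (Set.Icc (-V) U)‖ₑ ^ 2 :=
    ((Psi_meas hw ht σ measurableSet_Icc).enorm).pow_const 2
  have hPint : ∫⁻ a in Set.Icc A B, ‖Psi a w t σ (Set.Icc (-V) U)‖ₑ ^ 2 ≤
      ENNReal.ofReal (C₄ ^ 2 * t ^ (2 * ε₁) * D) := by
    calc ∫⁻ a in Set.Icc A B, ‖Psi a w t σ (Set.Icc (-V) U)‖ₑ ^ 2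
        ≤ ∫⁻ a in Set.Icc A B, (N : ENNReal) *
          ∑ k ∈ range N, ‖Psi a w t σ (Set.Ioc (-V + k) (-V + k + 1))‖ₑ ^ 2 := by
          refine lintegral_mono fun a => ?_
          rw [hPsi a]
          have := enorm_sum_sq (range N) fun k : ℕ => Psi a w t σ (Set.Ioc (-V + k) (-V + k + 1))
          rwa [Finset.card_range] at this
      _ = (N : ENNReal) * ∑ k ∈ range N, ∫⁻ a in Set.Icc A B,
          ‖Psi a w t σ (Set.Ioc (-V + k) (-V + k + 1))‖ₑ ^ 2 := by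
          rw [lintegral_const_mul' _ _ (ENNReal.natCast_ne_top N), lintegral_finsetSum _
            fun k _ => hbm k]
      _ ≤ (N : ENNReal) * ∑ _k ∈ range N, ENNReal.ofReal D := by
          gcongr with k hk
          exact hblock k hk
      _ = ENNReal.ofReal ((N : ℝ) * (N * D)) := by
          rw [Finset.sum_const, Finset.card_range, nsmul_eq_mul, ENNReal.ofReal_mul
            (Nat.cast_nonneg N), ENNReal.ofReal_mul (Nat.cast_nonneg N), ENNReal.ofReal_natCast]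
      _ ≤ _ := by
          apply ENNReal.ofReal_le_ofReal
          have e1 : t ^ (2 * ε₁) = t ^ ε₁ * t ^ ε₁ := by
            rw [← Real.rpow_add ht0]; congr 1; ring
          rw [e1]
          calc (N : ℝ) * (N * D) ≤ (C₄ * t ^ ε₁) * ((C₄ * t ^ ε₁) * D) := by gcongr
            _ = _ := by ring
  have hpt : ∀ a ∈ Set.Icc A B, ‖FF a w (c a) ((σ : ℂ) + t * I)‖ₑ ^ 2 ≤
      ENNReal.ofReal (2 * C₁ ^ 2) + ENNReal.ofReal (2 * C₁ ^ 2 * t ^ (1 - 2 * σ)) *
        ‖Psi a w t σ (Set.Icc (-V) U)‖ₑ ^ 2 := by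
    intro a ha
    have h1 := hrep a ha (c a) (hc a ha) t V ht hVt
    have h2 : ‖FF a w (c a) ((σ : ℂ) + t * I)‖ ^ 2 ≤
        2 * C₁ ^ 2 + 2 * C₁ ^ 2 * t ^ (1 - 2 * σ) * ‖Psi a w t σ (Set.Icc (-V) U)‖ ^ 2 := by
      have e1 : t ^ (1 - 2 * σ) = (t ^ (1 / 2 - σ)) ^ 2 := by
        rw [← Real.rpow_natCast (t ^ (1 / 2 - σ)), ← Real.rpow_mul ht0.le]
        congr 1
        push_cast
        ring
      rw [e1]
      refine (pow_le_pow_left₀ (norm_nonneg _) h1 2).trans ?_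
      nlinarith [sq_nonneg (C₁ - C₁ * t ^ (1 / 2 - σ) * ‖Psi a w t σ (Set.Icc (-V) U)‖)]
    have h3 := ENNReal.ofReal_le_ofReal h2
    rw [ENNReal.ofReal_pow (norm_nonneg _), ofReal_norm, ENNReal.ofReal_add (by positivity)
      (by positivity), ENNReal.ofReal_mul (p := 2 * C₁ ^ 2 * t ^ (1 - 2 * σ)) (by positivity),
      ENNReal.ofReal_pow (norm_nonneg _), ofReal_norm] at h3
    exact h3
  calc ∫⁻ a in Set.Icc A B, ‖FF a w (c a) ((σ : ℂ) + t * I)‖ₑ ^ 2
      ≤ ∫⁻ a in Set.Icc A B, (ENNReal.ofReal (2 * C₁ ^ 2) +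
          ENNReal.ofReal (2 * C₁ ^ 2 * t ^ (1 - 2 * σ)) *
          ‖Psi a w t σ (Set.Icc (-V) U)‖ₑ ^ 2) := setLIntegral_mono' measurableSet_Icc hpt
    _ = ENNReal.ofReal (2 * C₁ ^ 2) * ENNReal.ofReal (B - A) +
          ENNReal.ofReal (2 * C₁ ^ 2 * t ^ (1 - 2 * σ)) *
          ∫⁻ a in Set.Icc A B, ‖Psi a w t σ (Set.Icc (-V) U)‖ₑ ^ 2 := by
        rw [lintegral_add_left measurable_const, setLIntegral_const, Real.volume_Icc,
          lintegral_const_mul _ hPm]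
    _ ≤ ENNReal.ofReal (2 * C₁ ^ 2) * ENNReal.ofReal (B - A) +
          ENNReal.ofReal (2 * C₁ ^ 2 * t ^ (1 - 2 * σ)) *
          ENNReal.ofReal (C₄ ^ 2 * t ^ (2 * ε₁) * D) := by gcongr
    _ = ENNReal.ofReal (2 * C₁ ^ 2 * (B - A) +
          2 * C₁ ^ 2 * t ^ (1 - 2 * σ) * (C₄ ^ 2 * t ^ (2 * ε₁) * D)) := by
        have hBA : 0 ≤ B - A := by linarith
        rw [← ENNReal.ofReal_mul (by positivity), ← ENNReal.ofReal_mul (by positivity),
          ← ENNReal.ofReal_add (by positivity) (by positivity)]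
    _ ≤ _ := by
        apply ENNReal.ofReal_le_ofReal
        have hBA : 0 ≤ B - A := by linarith
        have h1 : 1 ≤ t ^ (θ - 1 + ε) := Real.one_le_rpow ht (by linarith)
        have e2 : t ^ (1 - 2 * σ) * t ^ (2 * ε₁) * t ^ ((1 + δ) * q + ε₁) = t ^ (θ - 1 + ε) := by
          rw [← Real.rpow_add ht0, ← Real.rpow_add ht0]
          congr 1
          have : (1 + δ) * q = q + ε / 2 := by rw [add_mul, one_mul, hδq]
          rw [this, hε₁, hq]
          ring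
        calc 2 * C₁ ^ 2 * (B - A) + 2 * C₁ ^ 2 * t ^ (1 - 2 * σ) * (C₄ ^ 2 * t ^ (2 * ε₁) * D)
            = 2 * C₁ ^ 2 * (B - A) * 1 + 2 * C₁ ^ 2 * (C₄ ^ 2 * (C₂ * C₃)) *
              (t ^ (1 - 2 * σ) * t ^ (2 * ε₁) * t ^ ((1 + δ) * q + ε₁)) := by rw [hD]; ring
          _ ≤ 2 * C₁ ^ 2 * (B - A) * t ^ (θ - 1 + ε) + 2 * C₁ ^ 2 * (C₄ ^ 2 * (C₂ * C₃)) *
              t ^ (θ - 1 + ε) := by
              rw [e2]
              gcongr
          _ ≤ _ := by
              rw [← add_mul]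
              exact mul_le_mul_of_nonneg_right (by linarith) (by positivity)

end Pool.Agent.H312.Sh
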