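import Pool.Agent.H312.Sh.Cau
import Pool.Agent.H312.Sh.Meas
import Pool.Agent.H312.Sh.Tot
import Pool.Agent.H312.Barnes.Lv

set_option autoImplicit false

/-!
# The mean square over the shift in the whole strip at every height
-/

namespace Pool.Agent.H312.Sh

open Finset Filter Topology MeasureTheory Complex Set
open Pool.Agent.H131R5.BZ Pool.Agent.Y930.Bz Pool.Agent.Y616.BM
open Pool.Agent.H312.Barnes (nd nd_nonneg Dio)

variable {r : ℕ} {w : Fin r → ℝ}

/-- a weight against a Gaussian -/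
lemma gauss_pow {e t y : ℝ} (he : 0 ≤ e) (ht : 1 ≤ t) (hy : 1 ≤ y) :
    Real.exp (1 - (y - t) ^ 2 / 2) * y ^ e ≤
      t ^ e * Real.exp (1 + e ^ 2) * Real.exp (-(1 / 4) * (y - t) ^ 2) := by
  have ht0 : 0 < t := by linarith
  have hy0 : 0 < y := by linarith
  set x : ℝ := |y - t| with hx
  have hx0 : 0 ≤ x := abs_nonneg _
  have hx2 : (y - t) ^ 2 = x ^ 2 := by rw [hx, sq_abs]
  have h1 : y ≤ t * Real.exp x := by
    have h2 : y ≤ t + x := by
      have := le_abs_self (y - t)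
      linarith
    have h3 := Real.add_one_le_exp x
    nlinarith
  have h2 : y ^ e ≤ t ^ e * Real.exp (e * x) := by
    calc y ^ e ≤ (t * Real.exp x) ^ e := Real.rpow_le_rpow hy0.le h1 he
      _ = t ^ e * Real.exp (e * x) := by
          rw [Real.mul_rpow ht0.le (Real.exp_pos _).le, ← Real.exp_mul, mul_comm x e]
  calc Real.exp (1 - (y - t) ^ 2 / 2) * y ^ e ≤
      Real.exp (1 - (y - t) ^ 2 / 2) * (t ^ e * Real.exp (e * x)) := by gcongr
    _ = t ^ e * Real.exp (1 - (y - t) ^ 2 / 2 + e * x) := by rw [Real.exp_add]; ring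
    _ ≤ t ^ e * Real.exp (1 + e ^ 2 + -(1 / 4) * (y - t) ^ 2) := by
        have h3 : 1 - (y - t) ^ 2 / 2 + e * x ≤ 1 + e ^ 2 + -(1 / 4) * (y - t) ^ 2 := by
          rw [hx2]
          nlinarith [sq_nonneg (e - x / 2)]
        gcongr
    _ = _ := by rw [Real.exp_add]; ring

theorem strip_ms (hr : 0 < r) (hw : ∀ j, 0 < w j) {A B σ₀ σ₁ θ : ℝ} (hA : 0 < A) (hAB : A ≤ B)
    (hσ₀ : 1 / 2 < σ₀) (hσ₁ : σ₀ ≤ σ₁) (hθ : 1 ≤ θ) (h : Dio w (2 * σ₀) θ) {ε : ℝ} (hε : 0 < ε) :
    ∃ C : ℝ, 0 < C ∧ ∀ t : ℝ, 2 ≤ t → ∃ M : ℝ → ENNReal, Measurable M ∧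
      (∀ a ∈ Set.Icc A B, ∀ c : ℕ → ℂ, Tay a w c → ∀ σ u : ℝ, σ₀ ≤ σ → σ ≤ σ₁ → t ≤ u →
        u ≤ t + 1 → ‖FF a w c ((σ : ℂ) + u * I)‖ₑ ^ 2 ≤ M a) ∧
      ∫⁻ a in Set.Icc A B, M a ≤ ENNReal.ofReal (C * t ^ (θ - 1 + ε)) := by
  set κ : ℝ := min (min (ε / 8) ((σ₀ - 1 / 2) / 2)) 1 with hκ
  have hκ0 : 0 < κ := lt_min (lt_min (by positivity) (by linarith)) one_pos
  have hκ1 : κ ≤ 1 := min_le_right _ _
  have hκε : κ ≤ ε / 8 := (min_le_left _ _).trans (min_le_left _ _)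
  have hκσ : κ ≤ (σ₀ - 1 / 2) / 2 := (min_le_left _ _).trans (min_le_right _ _)
  set α : ℝ := σ₀ - κ with hα
  have hα2 : 1 / 2 < α := by linarith
  have hD : Dio w (2 * α) (θ + 2 * κ) := by
    have h0 := h.left (δ := 2 * κ) (by positivity)
    have e : 2 * σ₀ - 2 * κ = 2 * α := by rw [hα]; ring
    rwa [e] at h0
  obtain ⟨C₁, hC₁, h1⟩ := shift_ms hr hw hA hAB hα2 (by linarith : 1 ≤ θ + 2 * κ) hD
    (by positivity : 0 < ε / 2)
  obtain ⟨C₂, hC₂, h2⟩ := cauchy_u hw hA hAB (α := α) (κ := κ) (σ₁ := σ₁) (by linarith) hκ0 hκ1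
    (by linarith)
  obtain ⟨G, hG, hFG⟩ := FF_meas hw hA hAB (α := α) (by linarith)
  choose c₀ hc₀ using fun a : ℝ => exists_taylor a hw
  set e : ℝ := θ - 1 + ε with he
  have he0 : 0 ≤ e := by linarith
  set K : ℝ := Real.exp (1 + e ^ 2) with hK
  set J : ℝ := ∫ x : ℝ, Real.exp (-(1 / 4) * x ^ 2) with hJ
  have hJ0 : 0 ≤ J := integral_nonneg fun x => (Real.exp_pos _).le
  have hJi : Integrable fun x : ℝ => Real.exp (-(1 / 4) * x ^ 2) :=
    integrable_exp_neg_mul_sq (by norm_num)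
  refine ⟨C₂ * ((B - A) + C₁ * K * J) + 1, by
    have : 0 ≤ B - A := by linarith
    positivity, fun t ht => ?_⟩
  have ht0 : 0 < t := by linarith
  have hte : 1 ≤ t ^ e := Real.one_le_rpow (by linarith) he0
  set g : ℝ × ℝ → ENNReal := fun p => ‖G p‖ₑ ^ 2 *
    ENNReal.ofReal (Real.exp (1 - (p.2 - t) ^ 2 / 2)) with hg
  have hgm : Measurable g := by
    refine Measurable.mul (hG.enorm.pow_const 2) ?_
    exact ENNReal.measurable_ofReal.comp (by fun_prop)
  refine ⟨fun a => ENNReal.ofReal C₂ * (1 + ∫⁻ y in Ioi (1 : ℝ), g (a, y)), ?_, ?_, ?_⟩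
  · exact (Measurable.const_add (hgm.lintegral_prod_right' (ν := volume.restrict (Ioi 1))) 1).const_mul _
  · intro a ha c hc σ u hσ hσ1 hu hu1
    have h3 := h2 a ha c hc σ u (by linarith) hσ1 (by linarith)
    set Y : ℝ := 2 * u + 12 with hY
    have hY1 : 1 ≤ Y := by linarith
    have h4 : ENNReal.ofReal (∫ y in (1 : ℝ)..Y, ‖FF a w c ((α : ℂ) + y * I)‖ ^ 2 *
        Real.exp (-(y - u) ^ 2)) ≤ ∫⁻ y in Ioi (1 : ℝ), g (a, y) := by
      rw [intervalIntegral.integral_of_le hY1]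
      refine (Real.ofReal_le_enorm _).trans ((enorm_integral_le_lintegral_enorm _).trans ?_)
      calc ∫⁻ y in Ioc (1 : ℝ) Y, ‖‖FF a w c ((α : ℂ) + y * I)‖ ^ 2 * Real.exp (-(y - u) ^ 2)‖ₑ ≤
          ∫⁻ y in Ioc (1 : ℝ) Y, g (a, y) := by
            refine setLIntegral_mono' measurableSet_Ioc fun y hy => ?_
            rw [hg]
            simp only
            rw [← hFG a ha c hc y (by linarith [hy.1]), enorm_mul, enorm_pow, enorm_norm,
              Real.enorm_of_nonneg (Real.exp_pos _).le]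
            have h5 : Real.exp (-(y - u) ^ 2) ≤ Real.exp (1 - (y - t) ^ 2 / 2) := by
              apply Real.exp_le_exp.2
              have h6 : (u - t) ^ 2 ≤ 1 := by nlinarith
              nlinarith [sq_nonneg ((y - u) - (u - t))]
            exact mul_le_mul_right (ENNReal.ofReal_le_ofReal h5) _
        _ ≤ _ := lintegral_mono_set fun y hy => hy.1
    calc ‖FF a w c ((σ : ℂ) + u * I)‖ₑ ^ 2 = ENNReal.ofReal (‖FF a w c ((σ : ℂ) + u * I)‖ ^ 2) := by
          rw [ENNReal.ofReal_pow (norm_nonneg _), ofReal_norm]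
      _ ≤ ENNReal.ofReal (C₂ * (1 + ∫ y in (1 : ℝ)..Y, ‖FF a w c ((α : ℂ) + y * I)‖ ^ 2 *
        Real.exp (-(y - u) ^ 2))) := ENNReal.ofReal_le_ofReal h3
      _ = ENNReal.ofReal C₂ * (1 + ENNReal.ofReal (∫ y in (1 : ℝ)..Y,
          ‖FF a w c ((α : ℂ) + y * I)‖ ^ 2 * Real.exp (-(y - u) ^ 2))) := by
          rw [ENNReal.ofReal_mul hC₂, ENNReal.ofReal_add zero_le_one, ENNReal.ofReal_one]
          exact intervalIntegral.integral_nonneg hY1 fun y _ => by positivity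
      _ ≤ ENNReal.ofReal C₂ * (1 + ∫⁻ y in Ioi (1 : ℝ), g (a, y)) := by gcongr
  · have h5 : ∫⁻ a in Set.Icc A B, ∫⁻ y in Ioi (1 : ℝ), g (a, y) ≤
        ENNReal.ofReal (C₁ * K * J * t ^ e) := by
      rw [lintegral_lintegral_swap (hgm.aemeasurable)]
      calc ∫⁻ y in Ioi (1 : ℝ), ∫⁻ a in Set.Icc A B, g (a, y) ≤
          ∫⁻ y in Ioi (1 : ℝ), ENNReal.ofReal (C₁ * K * t ^ e *
            Real.exp (-(1 / 4) * (y - t) ^ 2)) := by
            refine setLIntegral_mono' measurableSet_Ioi fun y hy => ?_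
            have hy1 : (1 : ℝ) < y := hy
            have hy0 : 0 < y := by linarith
            have h6 : ∫⁻ a in Set.Icc A B, g (a, y) =
                ENNReal.ofReal (Real.exp (1 - (y - t) ^ 2 / 2)) *
                ∫⁻ a in Set.Icc A B, ‖FF a w (c₀ a) ((α : ℂ) + y * I)‖ₑ ^ 2 := by
              rw [← lintegral_const_mul' _ _ ENNReal.ofReal_ne_top]
              refine setLIntegral_congr_fun measurableSet_Icc fun a ha => ?_
              rw [hg]
              simp only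
              rw [hFG a ha (c₀ a) (hc₀ a) y hy0, mul_comm]
            rw [h6]
            refine (mul_le_mul_right (h1 c₀ (fun a _ => hc₀ a) y hy1.le) _).trans ?_
            rw [← ENNReal.ofReal_mul (Real.exp_pos _).le]
            apply ENNReal.ofReal_le_ofReal
            have h7 : y ^ (θ + 2 * κ - 1 + ε / 2) ≤ y ^ e :=
              Real.rpow_le_rpow_of_exponent_le hy1.le (by linarith)
            have h8 := gauss_pow he0 (by linarith : 1 ≤ t) hy1.le
            calc Real.exp (1 - (y - t) ^ 2 / 2) * (C₁ * y ^ (θ + 2 * κ - 1 + ε / 2)) ≤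
                Real.exp (1 - (y - t) ^ 2 / 2) * (C₁ * y ^ e) := by gcongr
              _ = C₁ * (Real.exp (1 - (y - t) ^ 2 / 2) * y ^ e) := by ring
              _ ≤ C₁ * (t ^ e * K * Real.exp (-(1 / 4) * (y - t) ^ 2)) := by gcongr
              _ = _ := by ring
        _ ≤ ∫⁻ y : ℝ, ENNReal.ofReal (C₁ * K * t ^ e * Real.exp (-(1 / 4) * (y - t) ^ 2)) :=
            setLIntegral_le_lintegral _ _
        _ = ∫⁻ y : ℝ, ENNReal.ofReal (C₁ * K * t ^ e * Real.exp (-(1 / 4) * y ^ 2)) :=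
            lintegral_sub_right_eq_self (fun y : ℝ =>
              ENNReal.ofReal (C₁ * K * t ^ e * Real.exp (-(1 / 4) * y ^ 2))) t
        _ = ENNReal.ofReal (∫ y : ℝ, C₁ * K * t ^ e * Real.exp (-(1 / 4) * y ^ 2)) := by
            rw [ofReal_integral_eq_lintegral_ofReal (hJi.const_mul _)]
            exact ae_of_all _ fun y => by positivity
        _ = _ := by
            rw [integral_const_mul]
            congr 1
            ring
    have h6 : ∫⁻ a in Set.Icc A B, (1 : ENNReal) = ENNReal.ofReal (B - A) := by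
      rw [setLIntegral_one, Real.volume_Icc]
    calc ∫⁻ a in Set.Icc A B, ENNReal.ofReal C₂ * (1 + ∫⁻ y in Ioi (1 : ℝ), g (a, y)) =
        ENNReal.ofReal C₂ * ∫⁻ a in Set.Icc A B, (1 + ∫⁻ y in Ioi (1 : ℝ), g (a, y)) :=
          lintegral_const_mul' _ _ ENNReal.ofReal_ne_top
      _ = ENNReal.ofReal C₂ * (ENNReal.ofReal (B - A) +
          ∫⁻ a in Set.Icc A B, ∫⁻ y in Ioi (1 : ℝ), g (a, y)) := by
          rw [lintegral_add_left measurable_const, h6]
      _ ≤ ENNReal.ofReal C₂ * (ENNReal.ofReal (B - A) + ENNReal.ofReal (C₁ * K * J * t ^ e)) := by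
          gcongr
      _ = ENNReal.ofReal (C₂ * ((B - A) + C₁ * K * J * t ^ e)) := by
          rw [ENNReal.ofReal_mul hC₂, ENNReal.ofReal_add (by linarith) (by positivity)]
      _ ≤ _ := by
          apply ENNReal.ofReal_le_ofReal
          have h7 : (B - A) ≤ (B - A) * t ^ e := by
            have : 0 ≤ B - A := by linarith
            nlinarith
          have h8 : 0 ≤ t ^ e := by linarith
          calc C₂ * ((B - A) + C₁ * K * J * t ^ e) ≤
              C₂ * ((B - A) * t ^ e + C₁ * K * J * t ^ e) := by gcongr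
            _ = C₂ * ((B - A) + C₁ * K * J) * t ^ e := by ring
            _ ≤ _ := by nlinarith

end Pool.Agent.H312.Sh
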